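import Pool.Agent.Q93.Asym.Basic

/-!
A contraction is isometric at a vector on which averages of distinct powers converge to a nonzero
multiple of the vector.
-/

namespace Q93.C11

open Topology Filter
open scoped InnerProductSpace

variable {H : Type*} [NormedAddCommGroup H] [InnerProductSpace ℂ H] [CompleteSpace H]

/-- The defect operator squared, `1 - C* C`. -/
noncomputable def Q (C : H →L[ℂ] H) : H →L[ℂ] H :=
  1 - (ContinuousLinearMap.adjoint C).comp C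

theorem inner_Q (C : H →L[ℂ] H) (x : H) :
    ⟪x, Q C x⟫_ℂ = ((‖x‖ ^ 2 - ‖C x‖ ^ 2 : ℝ) : ℂ) := by
  have h : Q C x = x - (ContinuousLinearMap.adjoint C) (C x) := rfl
  rw [h, inner_sub_right, ContinuousLinearMap.adjoint_inner_right, inner_self_eq_norm_sq_to_K,
    inner_self_eq_norm_sq_to_K]
  simp

theorem norm_apply_le {C : H →L[ℂ] H} (hC : ‖C‖ ≤ 1) (x : H) : ‖C x‖ ≤ ‖x‖ :=
  (C.le_opNorm x).trans (by nlinarith [norm_nonneg x])

theorem Q_isPositive {C : H →L[ℂ] H} (hC : ‖C‖ ≤ 1) : (Q C).IsPositive := by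
  rw [ContinuousLinearMap.isPositive_iff_complex]
  intro x
  have h1 : ⟪Q C x, x⟫_ℂ = ((‖x‖ ^ 2 - ‖C x‖ ^ 2 : ℝ) : ℂ) := by
    rw [← inner_conj_symm, inner_Q, Complex.conj_ofReal]
  rw [h1]
  constructor
  · rw [RCLike.re_to_complex, Complex.ofReal_re]
  · have := norm_apply_le hC x
    have h2 : ‖C x‖ ^ 2 ≤ ‖x‖ ^ 2 := by gcongr
    simp only [Complex.ofReal_re, RCLike.re_to_complex]
    linarith

theorem pow_norm_le {C : H →L[ℂ] H} (hC : ‖C‖ ≤ 1) (n : ℕ) (x : H) : ‖(C ^ n) x‖ ≤ ‖x‖ := by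
  induction n with
  | zero => simp
  | succ n ih =>
    rw [pow_succ']
    exact (norm_apply_le hC _).trans ih

theorem sum_Q_le {C : H →L[ℂ] H} (hC : ‖C‖ ≤ 1) (x : H) (N : ℕ) :
    ∑ n ∈ Finset.range N, ‖Q C ((C ^ n) x)‖ ^ 2 ≤ ‖Q C‖ * ‖x‖ ^ 2 := by
  have h1 : ∀ n, ‖Q C ((C ^ n) x)‖ ^ 2 ≤ ‖Q C‖ * (‖(C ^ n) x‖ ^ 2 - ‖(C ^ (n + 1)) x‖ ^ 2) := by
    intro n
    have h2 := Q93.Asym.norm_apply_sq_le (Q_isPositive hC) ((C ^ n) x)
    rw [inner_Q, Complex.ofReal_re] at h2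
    have h3 : (C ^ (n + 1)) x = C ((C ^ n) x) := by rw [pow_succ']; rfl
    rw [h3]
    exact h2
  refine (Finset.sum_le_sum fun n _ => h1 n).trans ?_
  rw [← Finset.mul_sum, Finset.sum_range_sub']
  have h3 : ‖(C ^ 0) x‖ = ‖x‖ := by simp
  rw [h3]
  have h4 : 0 ≤ ‖(C ^ N) x‖ ^ 2 := by positivity
  have h5 := norm_nonneg (Q C)
  nlinarith

/-- If `φ` is strictly increasing and the averages of `C ^ φ k` at `x` converge to `a • x` with
`a ≠ 0` then `‖C x‖ = ‖x‖`. -/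
theorem norm_eq_of_avg {C : H →L[ℂ] H} (hC : ‖C‖ ≤ 1) {x : H} {a : ℂ} (ha : a ≠ 0)
    {φ : ℕ → ℕ} (hφ : StrictMono φ)
    (havg : Tendsto (fun J : ℕ => (J : ℂ)⁻¹ • ∑ k ∈ Finset.range J, (C ^ (φ k)) x) atTop
      (𝓝 (a • x))) : ‖C x‖ = ‖x‖ := by
  have h1 : Tendsto (fun J : ℕ => Q C ((J : ℂ)⁻¹ • ∑ k ∈ Finset.range J, (C ^ (φ k)) x)) atTop
      (𝓝 (Q C (a • x))) := ((Q C).continuous.tendsto _).comp havg
  set M : ℝ := ‖Q C‖ * ‖x‖ ^ 2 with hM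
  have hM0 : 0 ≤ M := by positivity
  have hsum : ∀ J, ∑ k ∈ Finset.range J, ‖Q C ((C ^ (φ k)) x)‖ ^ 2 ≤ M := by
    intro J
    refine le_trans ?_ (sum_Q_le hC x (φ J))
    rw [← Finset.sum_image (s := Finset.range J) (g := φ)
      (f := fun n => ‖Q C ((C ^ n) x)‖ ^ 2) (fun i _ j _ h => hφ.injective h)]
    apply Finset.sum_le_sum_of_subset_of_nonneg
    · intro n hn
      rw [Finset.mem_image] at hn
      obtain ⟨k, hk, rfl⟩ := hn
      exact Finset.mem_range.2 (hφ (Finset.mem_range.1 hk))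
    · intro n _ _
      positivity
  have h2 : ∀ J : ℕ, 0 < J →
      ‖Q C ((J : ℂ)⁻¹ • ∑ k ∈ Finset.range J, (C ^ (φ k)) x)‖ ^ 2 ≤ M * (1 / (J : ℝ)) := by
    intro J hJ
    have hJ' : (0 : ℝ) < J := by exact_mod_cast hJ
    rw [map_smul, map_sum, norm_smul, norm_inv, Complex.norm_natCast, mul_pow]
    have h3 : ‖∑ k ∈ Finset.range J, Q C ((C ^ (φ k)) x)‖ ^ 2 ≤ J * M := by
      calc ‖∑ k ∈ Finset.range J, Q C ((C ^ (φ k)) x)‖ ^ 2
          ≤ (∑ k ∈ Finset.range J, ‖Q C ((C ^ (φ k)) x)‖) ^ 2 := by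
            gcongr
            exact norm_sum_le _ _
        _ ≤ (Finset.range J).card * ∑ k ∈ Finset.range J, ‖Q C ((C ^ (φ k)) x)‖ ^ 2 :=
            sq_sum_le_card_mul_sum_sq
        _ ≤ J * M := by rw [Finset.card_range]; gcongr; exact hsum J
    calc ((J : ℝ)⁻¹) ^ 2 * ‖∑ k ∈ Finset.range J, Q C ((C ^ (φ k)) x)‖ ^ 2
        ≤ ((J : ℝ)⁻¹) ^ 2 * (J * M) := by gcongr
      _ = M * (1 / (J : ℝ)) := by field_simp
  have h4 : Tendsto (fun J : ℕ => M * (1 / (J : ℝ))) atTop (𝓝 0) := by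
    have := (tendsto_one_div_atTop_nhds_zero_nat (𝕜 := ℝ)).const_mul M
    simpa using this
  have h5 : ‖Q C (a • x)‖ ^ 2 ≤ 0 := by
    refine le_of_tendsto_of_tendsto (h1.norm.pow 2) h4 ?_
    filter_upwards [eventually_gt_atTop 0] with J hJ
    exact h2 J hJ
  have h6 : Q C (a • x) = 0 := by
    have : ‖Q C (a • x)‖ = 0 := by nlinarith [norm_nonneg (Q C (a • x))]
    exact norm_eq_zero.1 this
  rw [map_smul] at h6
  have h7 : Q C x = 0 := (smul_eq_zero.1 h6).resolve_left ha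
  have h8 := inner_Q C x
  rw [h7, inner_zero_right] at h8
  have h9 : ‖x‖ ^ 2 - ‖C x‖ ^ 2 = 0 := by exact_mod_cast h8.symm
  exact (sq_eq_sq₀ (norm_nonneg _) (norm_nonneg _)).1 (by linarith)

end Q93.C11
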