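import Mathlib

open MeasureTheory Set Metric Filter Topology
open scoped ENNReal NNReal

namespace Pool.Agent.Q93.KF

/-- Euclidean space `ℝ^n`. -/
abbrev E (n : ℕ) := EuclideanSpace ℝ (Fin n)

/-- The unit sphere. -/
abbrev S (n : ℕ) := sphere (0 : E n) 1

/-- The surface measure on the unit sphere. -/
noncomputable abbrev surf (n : ℕ) : Measure (S n) := (volume : Measure (E n)).toSphere

variable {n : ℕ}

/-- The closed cylinder of length `1` and radius `δ` with centre `b` and axis in direction `e`. -/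
def tube (δ : ℝ) (b e : E n) : Set (E n) :=
  {y | |inner ℝ (y - b) e| ≤ 1 / 2 ∧ ‖(y - b) - (inner ℝ (y - b) e : ℝ) • e‖ ≤ δ}

/-- The open cylinder. -/
def otube (δ : ℝ) (b e : E n) : Set (E n) :=
  {y | |inner ℝ (y - b) e| < 1 / 2 ∧ ‖(y - b) - (inner ℝ (y - b) e : ℝ) • e‖ < δ}

/-- The average of `g` over the cylinder. -/
noncomputable def av (g : E n → ℝ≥0∞) (δ : ℝ) (b e : E n) : ℝ≥0∞ :=
  (volume (tube δ b e))⁻¹ * ∫⁻ y in tube δ b e, g y

lemma otube_subset (δ : ℝ) (b e : E n) : otube δ b e ⊆ tube δ b e :=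
  fun _ hy => ⟨hy.1.le, hy.2.le⟩

lemma cont1 (b e : E n) : Continuous (fun y : E n => |inner ℝ (y - b) e|) := by fun_prop

lemma cont2 (b e : E n) :
    Continuous (fun y : E n => ‖(y - b) - (inner ℝ (y - b) e : ℝ) • e‖) := by fun_prop

lemma isClosed_tube (δ : ℝ) (b e : E n) : IsClosed (tube δ b e) :=
  (isClosed_le (cont1 b e) continuous_const).inter (isClosed_le (cont2 b e) continuous_const)

lemma isOpen_otube (δ : ℝ) (b e : E n) : IsOpen (otube δ b e) :=
  (isOpen_lt (cont1 b e) continuous_const).inter (isOpen_lt (cont2 b e) continuous_const)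

lemma convex_otube (δ : ℝ) (b e : E n) : Convex ℝ (otube δ b e) := by
  intro x hx y hy a c ha hc hac
  have h1 : a • x + c • y - b = a • (x - b) + c • (y - b) := by
    rw [smul_sub, smul_sub]
    have : b = a • b + c • b := by rw [← add_smul, hac, one_smul]
    nth_rewrite 1 [this]
    abel
  have h2 : inner ℝ (a • x + c • y - b) e = a * inner ℝ (x - b) e + c * inner ℝ (y - b) e := by
    rw [h1, inner_add_left, real_inner_smul_left, real_inner_smul_left]
  have key : ∀ u v r : ℝ, u < r → v < r → a * u + c * v < r := by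
    intro u v r hu hv
    rcases ha.eq_or_lt with h | h
    · have : c = 1 := by linarith
      rw [← h, this]; linarith
    · calc a * u + c * v < a * r + c * v := by nlinarith
        _ ≤ a * r + c * r := by nlinarith
        _ = r := by rw [← add_mul, hac, one_mul]
  constructor
  · rw [h2]
    calc |a * inner ℝ (x - b) e + c * inner ℝ (y - b) e|
        ≤ |a * inner ℝ (x - b) e| + |c * inner ℝ (y - b) e| := abs_add_le _ _
      _ = a * |inner ℝ (x - b) e| + c * |inner ℝ (y - b) e| := by
          rw [abs_mul, abs_mul, abs_of_nonneg ha, abs_of_nonneg hc]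
      _ < 1 / 2 := key _ _ _ hx.1 hy.1
  · have h3 : (a • x + c • y - b) - (inner ℝ (a • x + c • y - b) e : ℝ) • e =
        a • ((x - b) - (inner ℝ (x - b) e : ℝ) • e) + c • ((y - b) - (inner ℝ (y - b) e : ℝ) • e) := by
      rw [h2, h1]
      module
    rw [h3]
    calc _ ≤ ‖a • ((x - b) - (inner ℝ (x - b) e : ℝ) • e)‖ +
          ‖c • ((y - b) - (inner ℝ (y - b) e : ℝ) • e)‖ := norm_add_le _ _
      _ = a * ‖(x - b) - (inner ℝ (x - b) e : ℝ) • e‖ +
          c * ‖(y - b) - (inner ℝ (y - b) e : ℝ) • e‖ := by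
          rw [norm_smul, norm_smul, Real.norm_eq_abs, Real.norm_eq_abs, abs_of_nonneg ha,
            abs_of_nonneg hc]
      _ < δ := key _ _ _ hx.2 hy.2

lemma tube_subset_closure {δ : ℝ} (hδ : 0 < δ) (b e : E n) :
    tube δ b e ⊆ closure (otube δ b e) := by
  intro y hy
  have hlim : Tendsto (fun t : ℝ => b + t • (y - b)) (𝓝[<] 1) (𝓝 (b + (1 : ℝ) • (y - b))) := by
    have : Continuous (fun t : ℝ => b + t • (y - b)) := by fun_prop
    exact (this.tendsto 1).mono_left nhdsWithin_le_nhds
  rw [one_smul, add_sub_cancel] at hlim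
  refine mem_closure_of_tendsto hlim ?_
  have h1 : ∀ᶠ t : ℝ in 𝓝[<] 1, 0 < t :=
    (eventually_gt_nhds zero_lt_one).filter_mono nhdsWithin_le_nhds
  filter_upwards [h1, self_mem_nhdsWithin] with t ht0 ht1
  have ht1' : t < 1 := ht1
  have h2 : b + t • (y - b) - b = t • (y - b) := by abel
  constructor
  · rw [h2, real_inner_smul_left, abs_mul, abs_of_pos ht0]
    nlinarith [hy.1, abs_nonneg (inner ℝ (y - b) e)]
  · rw [h2, real_inner_smul_left, mul_smul, ← smul_sub, norm_smul, Real.norm_eq_abs,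
      abs_of_pos ht0]
    nlinarith [hy.2, norm_nonneg ((y - b) - (inner ℝ (y - b) e : ℝ) • e)]

lemma ae_tube {δ : ℝ} (hδ : 0 < δ) (b e : E n) : otube δ b e =ᵐ[volume] tube δ b e := by
  refine (LE.le.eventuallyLE (otube_subset δ b e)).antisymm ?_
  rw [ae_le_set]
  refine measure_mono_null ?_ ((convex_otube δ b e).addHaar_frontier volume)
  rw [frontier, (isOpen_otube δ b e).interior_eq]
  exact sdiff_subset_sdiff_left (tube_subset_closure hδ b e)

lemma norm_proj_le {e : E n} (he : ‖e‖ = 1) (x : E n) : ‖x - (inner ℝ x e : ℝ) • e‖ ≤ ‖x‖ := by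
  have h : ‖x - (inner ℝ x e : ℝ) • e‖ ^ 2 ≤ ‖x‖ ^ 2 := by
    rw [norm_sub_sq_real, real_inner_smul_right, norm_smul, he, Real.norm_eq_abs, mul_one, sq_abs]
    nlinarith [sq_nonneg (inner ℝ x e : ℝ)]
  exact le_of_sq_le_sq h (norm_nonneg _)

lemma ball_subset_otube {δ : ℝ} {e : E n} (he : ‖e‖ = 1) (b : E n) :
    ball b (min δ (1 / 2)) ⊆ otube δ b e := by
  intro y hy
  rw [mem_ball, dist_eq_norm, lt_min_iff] at hy
  refine ⟨?_, (norm_proj_le he _).trans_lt hy.1⟩
  have := abs_real_inner_le_norm (y - b) e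
  rw [he, mul_one] at this
  exact this.trans_lt hy.2

lemma tube_subset_closedBall {δ : ℝ} {e : E n} (he : ‖e‖ = 1) (b : E n) :
    tube δ b e ⊆ closedBall b (1 / 2 + δ) := by
  intro y hy
  rw [mem_closedBall, dist_eq_norm]
  have h1 : y - b = (inner ℝ (y - b) e : ℝ) • e + ((y - b) - (inner ℝ (y - b) e : ℝ) • e) := by abel
  rw [h1]
  refine (norm_add_le _ _).trans (add_le_add ?_ hy.2)
  rw [norm_smul, he, mul_one, Real.norm_eq_abs]
  exact hy.1

lemma vol_tube_pos {δ : ℝ} {e : E n} (he : ‖e‖ = 1) (b : E n) :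
    volume (ball (0 : E n) (min δ (1 / 2))) ≤ volume (tube δ b e) := by
  rw [← Measure.addHaar_ball_center volume b]
  exact measure_mono ((ball_subset_otube he b).trans (otube_subset _ _ _))

lemma vol_tube_ne_zero {δ : ℝ} (hδ : 0 < δ) {e : E n} (he : ‖e‖ = 1) (b : E n) :
    volume (tube δ b e) ≠ 0 :=
  ((measure_ball_pos volume (0 : E n) (lt_min hδ (by norm_num))).trans_le
    (vol_tube_pos he b)).ne'

lemma vol_tube_ne_top {δ : ℝ} {e : E n} (he : ‖e‖ = 1) (b : E n) :
    volume (tube δ b e) ≠ ⊤ :=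
  ((measure_mono (tube_subset_closedBall he b)).trans_lt measure_closedBall_lt_top).ne

lemma tube_translate (δ : ℝ) (b z e : E n) :
    tube δ (b + z) e = (fun y => y - z) ⁻¹' tube δ b e := by
  ext y
  simp only [tube, mem_preimage, Set.mem_ofPred_eq]
  have : y - (b + z) = y - z - b := by abel
  rw [this]

lemma vol_tube_translate (δ : ℝ) (b e : E n) : volume (tube δ b e) = volume (tube δ 0 e) := by
  have h := tube_translate δ 0 b e
  rw [zero_add] at h
  rw [h]
  simp only [sub_eq_add_neg]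
  rw [measure_preimage_add_right]

lemma av_translate (g : E n → ℝ≥0∞) (δ : ℝ) (b z e : E n) :
    av g δ (b + z) e = av (fun y => g (y + z)) δ b e := by
  unfold av
  rw [vol_tube_translate δ (b + z), vol_tube_translate δ b]
  congr 1
  rw [tube_translate]
  have h1 : MeasurableSet (tube δ b e) := (isClosed_tube δ b e).measurableSet
  have h2 : MeasurePreserving (fun y : E n => y - z) volume volume :=
    measurePreserving_sub_right volume z
  have h3 := h2.setLIntegral_comp_preimage_emb (MeasurableEquiv.subRight z).measurableEmbedding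
    (fun y => g (y + z)) (tube δ b e)
  simp only [sub_add_cancel] at h3
  exact h3

lemma tube_rotate (k : E n ≃ₗᵢ[ℝ] E n) (δ : ℝ) (b e : E n) :
    k ⁻¹' tube δ (k b) (k e) = tube δ b e := by
  ext y
  simp only [tube, mem_preimage, Set.mem_ofPred_eq]
  rw [← map_sub, k.inner_map_map, ← map_smul, ← map_sub, k.norm_map]

lemma av_rotate (k : E n ≃ₗᵢ[ℝ] E n) (g : E n → ℝ≥0∞) (δ : ℝ) (b e : E n) :
    av (fun y => g (k y)) δ b e = av g δ (k b) (k e) := by
  unfold av
  have hk : MeasurePreserving k volume volume := k.measurePreserving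
  have h1 : MeasurableSet (tube δ (k b) (k e)) := (isClosed_tube δ _ _).measurableSet
  have h3 := hk.setLIntegral_comp_preimage_emb k.toHomeomorph.measurableEmbedding g
    (tube δ (k b) (k e))
  rw [tube_rotate] at h3
  rw [h3]
  congr 2
  rw [← hk.measure_preimage h1.nullMeasurableSet, tube_rotate]

/-- Fatou's lemma for moving tubes. -/
lemma fatou {g : E n → ℝ≥0∞} {gs : ℕ → E n → ℝ≥0∞} (hgs : ∀ i, AEMeasurable (gs i) volume)
    (hlim : ∀ᵐ y, g y ≤ liminf (fun i => gs i y) atTop) {δ : ℝ} (hδ : 0 < δ) {b : E n}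
    {bs : ℕ → E n} (hb : Tendsto bs atTop (𝓝 b)) (e : E n) :
    av g δ b e ≤ liminf (fun i => av (gs i) δ (bs i) e) atTop := by
  have hmain : ∫⁻ y in tube δ b e, g y ≤ liminf (fun i => ∫⁻ y in tube δ (bs i) e, gs i y) atTop := by
    have h1 : ∀ (c : E n) (f : E n → ℝ≥0∞), ∫⁻ y in tube δ c e, f y =
        ∫⁻ y, (otube δ c e).indicator f y := by
      intro c f
      rw [← setLIntegral_congr (ae_tube hδ c e),
        lintegral_indicator (isOpen_otube δ c e).measurableSet]
    rw [h1]
    simp_rw [h1]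
    refine (lintegral_mono_ae ?_).trans (lintegral_liminf_le' fun i =>
      (hgs i).indicator (isOpen_otube δ (bs i) e).measurableSet)
    filter_upwards [hlim] with y hy
    by_cases hyt : y ∈ otube δ b e
    · rw [indicator_of_mem hyt]
      refine hy.trans ?_
      refine liminf_le_liminf ?_
      have h2 : Tendsto (fun i => |inner ℝ (y - bs i) e|) atTop (𝓝 |inner ℝ (y - b) e|) := by
        have : Continuous (fun c : E n => |inner ℝ (y - c) e|) := by fun_prop
        exact (this.tendsto b).comp hb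
      have h3 : Tendsto (fun i => ‖(y - bs i) - (inner ℝ (y - bs i) e : ℝ) • e‖) atTop
          (𝓝 ‖(y - b) - (inner ℝ (y - b) e : ℝ) • e‖) := by
        have : Continuous (fun c : E n => ‖(y - c) - (inner ℝ (y - c) e : ℝ) • e‖) := by fun_prop
        exact (this.tendsto b).comp hb
      filter_upwards [h2.eventually_lt_const hyt.1, h3.eventually_lt_const hyt.2] with i h4 h5
      rw [indicator_of_mem (show y ∈ otube δ (bs i) e from ⟨h4, h5⟩)]
    · rw [indicator_of_notMem hyt]
      exact bot_le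
  unfold av
  have hv : ∀ c : E n, volume (tube δ c e) = volume (tube δ 0 e) := fun c =>
    vol_tube_translate δ c e
  simp_rw [hv]
  rcases eq_or_ne (volume (tube δ 0 e)) 0 with h0 | h0
  · have h00 : ∀ (c : E n) (f : E n → ℝ≥0∞), ∫⁻ y in tube δ c e, f y = 0 := by
      intro c f
      exact setLIntegral_measure_zero _ _ (by rw [hv, h0])
    rw [h00, mul_zero]
    exact bot_le
  · have hfin : (volume (tube δ 0 e))⁻¹ ≠ ⊤ := ENNReal.inv_ne_top.2 h0
    rw [ENNReal.liminf_const_mul_of_ne_top hfin]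
    gcongr

end Pool.Agent.Q93.KF
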