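import Mathlib

open MeasureTheory Metric Set Filter Topology TopologicalSpace
open scoped ENNReal NNReal

namespace Pool.Agent.Q93.TypK

/-- Euclidean space `ℝ^n`. -/
abbrev E (n : ℕ) := EuclideanSpace ℝ (Fin n)

variable {n : ℕ}

/-- `K` contains a unit segment in every direction of `Ω`. -/
def HasSegments (Ω K : Set (E n)) : Prop :=
  ∀ ω ∈ Ω, ∃ a : E n, ∀ t ∈ Icc (0 : ℝ) 1, a + t • ω ∈ K

/-- The space of the nonempty compact sets that contain a unit segment in every direction of `Ω`,
with the Hausdorff distance. -/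
abbrev KSpace (Ω : Set (E n)) :=
  {K : NonemptyCompacts (E n) // HasSegments Ω (K : Set (E n))}

lemma edist_ne (K L : NonemptyCompacts (E n)) :
    hausdorffEDist (K : Set (E n)) (L : Set (E n)) ≠ ⊤ :=
  hausdorffEDist_ne_top_of_nonempty_of_bounded K.nonempty L.nonempty
    K.isCompact.isBounded L.isCompact.isBounded

lemma isClosed_hasSegments (Ω : Set (E n)) :
    IsClosed {K : NonemptyCompacts (E n) | HasSegments Ω (K : Set (E n))} := by
  refine IsSeqClosed.isClosed ?_
  intro K K₀ hK hlim ω hω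
  have hK' : ∀ j, ∃ a : E n, ∀ t ∈ Icc (0 : ℝ) 1, a + t • ω ∈ (K j : Set (E n)) :=
    fun j => hK j ω hω
  choose a ha using hK'
  have hdist : Tendsto (fun j => dist (K j) K₀) atTop (𝓝 0) := by
    rw [← tendsto_iff_dist_tendsto_zero]; exact hlim
  have hb : ∀ j, ∃ b ∈ (K₀ : Set (E n)), dist (a j) b < dist (K j) K₀ + 1 / ((j : ℝ) + 1) := by
    intro j
    have h1 : a j ∈ (K j : Set (E n)) := by
      have := ha j 0 (by simp)
      simpa using this
    have hpos : (0 : ℝ) < 1 / ((j : ℝ) + 1) := by positivity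
    refine exists_dist_lt_of_hausdorffDist_lt h1 ?_ (edist_ne _ _)
    rw [← NonemptyCompacts.dist_eq]; linarith
  choose b hbK hb using hb
  obtain ⟨b₀, hb₀, φ, hφ, hbl⟩ := K₀.isCompact.tendsto_subseq hbK
  refine ⟨b₀, fun t ht => ?_⟩
  have hal : Tendsto (fun j => a (φ j)) atTop (𝓝 b₀) := by
    have h2 : Tendsto (fun j => dist (a (φ j)) (b (φ j))) atTop (𝓝 0) := by
      have h3 : Tendsto (fun j => dist (K (φ j)) K₀ + 1 / (((φ j : ℕ) : ℝ) + 1)) atTop (𝓝 0) := by
        have h4 := (hdist.add tendsto_one_div_add_atTop_nhds_zero_nat).comp hφ.tendsto_atTop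
        simpa [Function.comp_def] using h4
      exact squeeze_zero (fun _ => dist_nonneg) (fun j => (hb (φ j)).le) h3
    exact (tendsto_iff_of_dist h2).2 hbl
  have h5 : Tendsto (fun j => infDist (a (φ j) + t • ω) (K₀ : Set (E n))) atTop
      (𝓝 (infDist (b₀ + t • ω) (K₀ : Set (E n)))) :=
    ((continuous_infDist_pt _).tendsto _).comp (hal.add_const _)
  have h6 : Tendsto (fun j => infDist (a (φ j) + t • ω) (K₀ : Set (E n))) atTop (𝓝 0) := by
    refine squeeze_zero (fun _ => infDist_nonneg) (fun j => ?_) (hdist.comp hφ.tendsto_atTop)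
    have := infDist_le_hausdorffDist_of_mem (ha (φ j) t ht) (edist_ne (K (φ j)) K₀)
    simpa [NonemptyCompacts.dist_eq] using this
  have h7 := tendsto_nhds_unique h5 h6
  exact (K₀.isCompact.isClosed.mem_iff_infDist_zero K₀.nonempty).2 h7

instance (Ω : Set (E n)) : CompleteSpace (KSpace Ω) :=
  (isClosed_hasSegments Ω).completeSpace_coe

/-! ### lattice points -/

/-- The point `ε z` of the lattice `ε ℤ^n`. -/
noncomputable def lat (ε : ℝ) (z : Fin n → ℤ) : E n := WithLp.toLp 2 (fun k => ε * (z k : ℝ))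

lemma lat_apply (ε : ℝ) (z : Fin n → ℤ) (k : Fin n) : lat ε z k = ε * (z k : ℝ) := rfl

/-- Rounding. -/
lemma exists_lat {ε : ℝ} (hε : 0 < ε) (a : E n) :
    ‖a - lat ε (fun k => ⌊a k / ε⌋)‖ ≤ Real.sqrt n * ε := by
  have h1 : ∀ k, ‖(a - lat ε (fun k => ⌊a k / ε⌋)) k‖ ^ 2 ≤ ε ^ 2 := by
    intro k
    have h2 : (a - lat ε (fun k => ⌊a k / ε⌋)) k = ε * Int.fract (a k / ε) := by
      rw [PiLp.sub_apply, lat_apply, Int.fract]
      field_simp
    rw [h2, Real.norm_eq_abs, abs_mul, abs_of_pos hε, abs_of_nonneg (Int.fract_nonneg _), mul_pow]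
    have h3 : Int.fract (a k / ε) ^ 2 ≤ 1 := by
      have := Int.fract_lt_one (a k / ε)
      have := Int.fract_nonneg (a k / ε)
      nlinarith
    nlinarith [sq_nonneg ε]
  rw [EuclideanSpace.norm_eq]
  calc Real.sqrt (∑ k, ‖(a - lat ε (fun k => ⌊a k / ε⌋)) k‖ ^ 2)
      ≤ Real.sqrt (∑ _k : Fin n, ε ^ 2) := Real.sqrt_le_sqrt (Finset.sum_le_sum fun k _ => h1 k)
    _ = Real.sqrt n * ε := by
      rw [Finset.sum_const, Finset.card_univ, Fintype.card_fin, nsmul_eq_mul,
        Real.sqrt_mul (by positivity), Real.sqrt_sq hε.le]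

/-- The number of lattice points in a ball is bounded independently of the centre. -/
lemma card_lat {ε : ℝ} (hε : 0 < ε) (R : ℝ) :
    ∃ M : ℕ, ∀ (Λ : Finset (Fin n → ℤ)) (x : E n),
      (∀ z ∈ Λ, ‖x - lat ε z‖ ≤ R) → Λ.card ≤ M := by
  classical
  obtain ⟨L, hL⟩ := exists_nat_ge (2 * R / ε)
  refine ⟨(Finset.Icc (fun _ : Fin n => -(L : ℤ)) (fun _ => (L : ℤ))).card, fun Λ x hx => ?_⟩
  rcases Λ.eq_empty_or_nonempty with rfl | ⟨z₀, hz₀⟩
  · simp
  refine Finset.card_le_card_of_injOn (fun z => z - z₀) ?_ ?_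
  · intro z hz
    have h1 : ‖lat ε z - lat ε z₀‖ ≤ 2 * R := by
      have : lat ε z - lat ε z₀ = (x - lat ε z₀) - (x - lat ε z) := by abel
      rw [this]
      refine (norm_sub_le _ _).trans ?_
      have := hx z hz
      have := hx z₀ hz₀
      linarith
    have h2 : ∀ k, |((z k - z₀ k : ℤ) : ℝ)| ≤ L := by
      intro k
      have h3 : |(lat ε z - lat ε z₀) k| ≤ 2 * R :=
        (PiLp.norm_apply_le (lat ε z - lat ε z₀) k).trans h1
      rw [PiLp.sub_apply, lat_apply, lat_apply, ← mul_sub, abs_mul, abs_of_pos hε] at h3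
      have h4 : |(z k : ℝ) - z₀ k| ≤ 2 * R / ε := by
        rw [le_div_iff₀ hε]; linarith
      push_cast
      exact h4.trans hL
    have h5 : ∀ k, |z k - z₀ k| ≤ (L : ℤ) := by
      intro k
      have := h2 k
      exact_mod_cast this
    simp only [Finset.coe_Icc, Set.mem_Icc, Pi.le_def, Pi.sub_apply]
    exact ⟨fun k => (abs_le.1 (h5 k)).1, fun k => (abs_le.1 (h5 k)).2⟩
  · intro z _ w _ h
    exact sub_left_injective h

/-! ### the construction -/

/-- Translate of a set. -/
def tr (v : E n) (A : Set (E n)) : Set (E n) := (fun y => y - v) ⁻¹' A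

/-- The perturbed set. -/
def pert (F V : Finset (E n)) (A B : Set (E n)) : Set (E n) :=
  (F : Set (E n)) ∪ ⋃ v ∈ V, (tr v A ∩ B)

/-- Near `K` there are sets of the space which consist of finitely many points and of pieces of
translates of `K₀`, the overlap of the translates being bounded independently of `K₀`. -/
lemma construct {Ω : Set (E n)} (hΩ : Bornology.IsBounded Ω) (K : KSpace Ω) {η : ℝ} (hη : 0 < η) :
    ∃ M : ℕ, ∀ K₀ : KSpace Ω, ∃ (F V : Finset (E n)) (K' : KSpace Ω),
      dist K' K ≤ 3 * η ∧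
      ((K'.1 : Set (E n)) = pert F V (K₀.1 : Set (E n)) (cthickening (3 * η) (K.1 : Set (E n)))) ∧
      F.card ≤ M ∧
      (∀ (x : E n) (V' : Finset (E n)), V' ⊆ V →
        (∀ v ∈ V', x + v ∈ cthickening (3 * η + 1) (K.1 : Set (E n))) → V'.card ≤ M) := by
  classical
  -- finite net of directions
  have htb : TotallyBounded Ω := by
    obtain ⟨R, hR⟩ := hΩ.subset_closedBall 0
    exact (isCompact_closedBall (0 : E n) R).totallyBounded.subset hR
  obtain ⟨D, hDΩ, hDfin, hDcov⟩ := htb.exists_subset (dist_mem_uniformity hη)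
  -- finite net of K
  obtain ⟨F₀, hFK, hFfin, hFcov⟩ := K.1.isCompact.finite_cover_balls hη
  have hseg : ∀ e : E n, ∃ b : E n, e ∈ D → ∀ t ∈ Icc (0 : ℝ) 1, b + t • e ∈ (K.1 : Set (E n)) := by
    intro e
    by_cases he : e ∈ D
    · obtain ⟨b, hb⟩ := K.2 e (hDΩ he)
      exact ⟨b, fun _ => hb⟩
    · exact ⟨0, fun h => absurd h he⟩
  choose b hb using hseg
  obtain ⟨R₁, hR₁⟩ := (K.1.isCompact.isBounded.cthickening (δ := 3 * η + 1)).subset_closedBall 0
  set ε : ℝ := η / (Real.sqrt n + 1) with hεdef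
  have hsq : 0 ≤ Real.sqrt n := Real.sqrt_nonneg _
  have hε : 0 < ε := by positivity
  have hεη : Real.sqrt n * ε ≤ η := by
    rw [hεdef, mul_div_assoc', div_le_iff₀ (by positivity)]
    nlinarith
  obtain ⟨M₀, hM₀⟩ := card_lat (n := n) hε R₁
  refine ⟨max hFfin.toFinset.card (hDfin.toFinset.card * M₀), fun K₀ => ?_⟩
  obtain ⟨R₀, hR₀⟩ := K₀.1.isCompact.isBounded.subset_closedBall 0
  obtain ⟨L, hL⟩ := exists_nat_ge (R₀ / ε + 1)
  set Λ : Finset (Fin n → ℤ) := Finset.Icc (fun _ => -(L : ℤ)) (fun _ => (L : ℤ)) with hΛ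
  set V : Finset (E n) := hDfin.toFinset.biUnion (fun e => Λ.image (fun z => b e - lat ε z)) with hV
  set F : Finset (E n) := hFfin.toFinset with hF
  set B : Set (E n) := cthickening (3 * η) (K.1 : Set (E n)) with hB
  set A : Set (E n) := (K₀.1 : Set (E n)) with hA
  have hBcl : IsClosed B := isClosed_cthickening
  have hBcomp : IsCompact B := K.1.isCompact.cthickening
  have hAcl : IsClosed A := K₀.1.isCompact.isClosed
  have hcomp : IsCompact (pert F V A B) := by
    refine (F.finite_toSet.isCompact).union ?_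
    refine V.finite_toSet.isCompact_biUnion fun v _ => ?_
    exact hBcomp.inter_left (hAcl.preimage (by fun_prop))
  have hne : (pert F V A B).Nonempty := by
    obtain ⟨x, hx⟩ := K.1.nonempty
    have := hFcov hx
    simp only [mem_iUnion, exists_prop] at this
    obtain ⟨f, hf, _⟩ := this
    exact ⟨f, Or.inl (by simpa [hF] using hf)⟩
  have hsegs : HasSegments Ω (pert F V A B) := by
    intro ω hω
    obtain ⟨a, ha⟩ := K₀.2 ω hω
    have h1 := hDcov hω
    simp only [mem_iUnion, exists_prop] at h1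
    obtain ⟨e, he, hωe⟩ := h1
    have hωe' : dist ω e < η := hωe
    set z : Fin n → ℤ := fun k => ⌊a k / ε⌋ with hz
    have hza : ‖a - lat ε z‖ ≤ η := (exists_lat hε a).trans hεη
    have hzΛ : z ∈ Λ := by
      have haR : ‖a‖ ≤ R₀ := by
        have h2 : a + (0 : ℝ) • ω ∈ A := ha 0 (by simp)
        rw [zero_smul, add_zero] at h2
        simpa using hR₀ h2
      rw [hΛ, Finset.mem_Icc]
      have h3 : ∀ k, |a k / ε| ≤ R₀ / ε := by
        intro k
        rw [abs_div, abs_of_pos hε]
        gcongr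
        exact (PiLp.norm_apply_le a k).trans haR
      constructor
      · intro k
        show -(L : ℤ) ≤ ⌊a k / ε⌋
        rw [Int.le_floor]
        push_cast
        have := (abs_le.1 (h3 k)).1
        linarith
      · intro k
        show ⌊a k / ε⌋ ≤ (L : ℤ)
        have h4 : ((⌊a k / ε⌋ : ℤ) : ℝ) ≤ L := by
          have h5 := Int.floor_le (a k / ε)
          have := (abs_le.1 (h3 k)).2
          linarith
        exact_mod_cast h4
    refine ⟨a + (b e - lat ε z), fun t ht => Or.inr ?_⟩
    simp only [mem_iUnion, exists_prop]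
    refine ⟨b e - lat ε z, ?_, ?_, ?_⟩
    · rw [hV, Finset.mem_biUnion]
      exact ⟨e, by simpa using he, Finset.mem_image.2 ⟨z, hzΛ, rfl⟩⟩
    · show a + (b e - lat ε z) + t • ω - (b e - lat ε z) ∈ A
      have : a + (b e - lat ε z) + t • ω - (b e - lat ε z) = a + t • ω := by abel
      rw [this]
      exact ha t ht
    · have h6 : b e + t • e ∈ (K.1 : Set (E n)) := hb e he t ht
      refine mem_cthickening_of_dist_le _ (b e + t • e) _ _ h6 ?_
      rw [dist_eq_norm]
      have h7 : a + (b e - lat ε z) + t • ω - (b e + t • e) = (a - lat ε z) + t • (ω - e) := by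
        rw [smul_sub]; abel
      rw [h7]
      refine (norm_add_le _ _).trans ?_
      have h8 : ‖t • (ω - e)‖ ≤ η := by
        rw [norm_smul, Real.norm_eq_abs, abs_of_nonneg ht.1]
        rw [dist_eq_norm] at hωe'
        have := norm_nonneg (ω - e)
        nlinarith [ht.2]
      linarith
  refine ⟨F, V, ⟨⟨⟨pert F V A B, hcomp⟩, hne⟩, hsegs⟩, ?_, rfl, le_max_left _ _, ?_⟩
  · rw [Subtype.dist_eq, NonemptyCompacts.dist_eq]
    refine hausdorffDist_le_of_mem_dist (by positivity) ?_ ?_
    · intro x hx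
      have hxB : x ∈ B := by
        rcases hx with hx | hx
        · refine self_subset_cthickening _ ?_
          exact hFK (by simpa [hF] using hx)
        · simp only [mem_iUnion, exists_prop] at hx
          obtain ⟨v, _, hx⟩ := hx
          exact hx.2
      rw [hB, K.1.isCompact.cthickening_eq_biUnion_closedBall (by positivity)] at hxB
      simp only [mem_iUnion, exists_prop] at hxB
      obtain ⟨y, hy, hxy⟩ := hxB
      exact ⟨y, hy, hxy⟩
    · intro y hy
      have := hFcov hy
      simp only [mem_iUnion, exists_prop] at this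
      obtain ⟨f, hf, hyf⟩ := this
      refine ⟨f, Or.inl (by simpa [hF] using hf), ?_⟩
      have : dist y f < η := hyf
      linarith
  · intro x V' hV' hx
    refine le_trans ?_ (le_max_right _ _)
    have h1 : V' ⊆ hDfin.toFinset.biUnion
        (fun e => ((Λ.filter (fun z => b e - lat ε z ∈ V')).image (fun z => b e - lat ε z))) := by
      intro v hv
      have h2 := hV' hv
      rw [hV, Finset.mem_biUnion] at h2
      obtain ⟨e, he, h3⟩ := h2
      rw [Finset.mem_image] at h3
      obtain ⟨z, hz, rfl⟩ := h3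
      rw [Finset.mem_biUnion]
      exact ⟨e, he, Finset.mem_image.2 ⟨z, Finset.mem_filter.2 ⟨hz, hv⟩, rfl⟩⟩
    refine (Finset.card_le_card h1).trans ?_
    refine Finset.card_biUnion_le_card_mul _ _ _ fun e _ => ?_
    refine Finset.card_image_le.trans ?_
    refine hM₀ _ (x + b e) fun z hz => ?_
    have h4 := hR₁ (hx _ (Finset.mem_filter.1 hz).2)
    rw [mem_closedBall_zero_iff] at h4
    have h5 : x + b e - lat ε z = x + (b e - lat ε z) := by abel
    rw [h5]; exact h4

/-! ### volume of neighbourhoods -/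

lemma cthickening_pert {F V : Finset (E n)} {A B B₁ : Set (E n)} {δ : ℝ} (hδ : 0 ≤ δ)
    (hB₁ : cthickening δ B ⊆ B₁) (hK : IsCompact (pert F V A B)) :
    cthickening δ (pert F V A B) ⊆
      (⋃ f ∈ F, closedBall f δ) ∪ ⋃ v ∈ V, (tr v (cthickening δ A) ∩ B₁) := by
  intro y hy
  rw [hK.cthickening_eq_biUnion_closedBall hδ] at hy
  simp only [mem_iUnion, exists_prop] at hy
  obtain ⟨x, hx, hyx⟩ := hy
  rcases hx with hx | hx
  · left
    simp only [mem_iUnion, exists_prop]
    exact ⟨x, by simpa using hx, hyx⟩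
  · right
    simp only [mem_iUnion, exists_prop] at hx ⊢
    obtain ⟨v, hv, hxA, hxB⟩ := hx
    refine ⟨v, hv, ?_, hB₁ (mem_cthickening_of_dist_le _ _ _ _ hxB hyx)⟩
    have hxA' : x - v ∈ A := hxA
    show y - v ∈ cthickening δ A
    refine mem_cthickening_of_dist_le (y - v) (x - v) δ A hxA' ?_
    rw [dist_sub_right]
    exact hyx

lemma vol_pert {F V : Finset (E n)} {A B B₁ : Set (E n)} {M : ℕ} {δ : ℝ} (hδ : 0 ≤ δ)
    (hB₁ : cthickening δ B ⊆ B₁) (hcl : IsClosed B₁) (hK : IsCompact (pert F V A B))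
    (hF : F.card ≤ M)
    (hov : ∀ (x : E n) (V' : Finset (E n)), V' ⊆ V → (∀ v ∈ V', x + v ∈ B₁) → V'.card ≤ M) :
    volume (cthickening δ (pert F V A B)) ≤
      M * volume (closedBall (0 : E n) δ) + M * volume (cthickening δ A) := by
  classical
  refine (measure_mono (cthickening_pert hδ hB₁ hK)).trans ?_
  refine (measure_union_le _ _).trans (add_le_add ?_ ?_)
  · refine (measure_biUnion_finset_le _ _).trans ?_
    calc ∑ f ∈ F, volume (closedBall f δ) = ∑ _f ∈ F, volume (closedBall (0 : E n) δ) :=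
          Finset.sum_congr rfl fun f _ => Measure.addHaar_closedBall_center _ _ _
      _ = F.card * volume (closedBall (0 : E n) δ) := by rw [Finset.sum_const, nsmul_eq_mul]
      _ ≤ M * volume (closedBall (0 : E n) δ) := by gcongr
  · refine (measure_biUnion_finset_le _ _).trans ?_
    set C := cthickening δ A with hC
    have hCm : MeasurableSet C := isClosed_cthickening.measurableSet
    have hSm : ∀ v : E n, MeasurableSet {x : E n | x + v ∈ B₁} := fun v =>
      (hcl.preimage (by fun_prop)).measurableSet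
    have h1 : ∀ v : E n, volume (tr v C ∩ B₁) =
        ∫⁻ x in C, ({x : E n | x + v ∈ B₁}).indicator 1 x := by
      intro v
      rw [lintegral_indicator_one (hSm v), Measure.restrict_apply (hSm v)]
      have h2 : tr v C ∩ B₁ = (fun y => y + (-v)) ⁻¹' ({x : E n | x + v ∈ B₁} ∩ C) := by
        ext y
        simp only [tr, mem_inter_iff, mem_preimage, Set.mem_ofPred_eq]
        constructor
        · rintro ⟨h, h'⟩
          refine ⟨?_, ?_⟩
          · rw [neg_add_cancel_right]; exact h'
          · rwa [← sub_eq_add_neg]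
        · rintro ⟨h, h'⟩
          refine ⟨?_, ?_⟩
          · rwa [← sub_eq_add_neg] at h'
          · rw [neg_add_cancel_right] at h; exact h
      rw [h2, measure_preimage_add_right]
    calc ∑ v ∈ V, volume (tr v C ∩ B₁)
        = ∑ v ∈ V, ∫⁻ x in C, ({x : E n | x + v ∈ B₁}).indicator 1 x :=
          Finset.sum_congr rfl fun v _ => h1 v
      _ = ∫⁻ x in C, ∑ v ∈ V, ({x : E n | x + v ∈ B₁}).indicator 1 x := by
          rw [lintegral_finsetSum]
          intro v _
          exact measurable_one.indicator (hSm v)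
      _ ≤ ∫⁻ _x in C, (M : ℝ≥0∞) := by
          refine lintegral_mono fun x => ?_
          have h3 : ∑ v ∈ V, ({x : E n | x + v ∈ B₁}).indicator (1 : E n → ℝ≥0∞) x =
              ((V.filter (fun v => x + v ∈ B₁)).card : ℝ≥0∞) := by
            rw [Finset.card_filter, Nat.cast_sum]
            refine Finset.sum_congr rfl fun v _ => ?_
            by_cases h : x + v ∈ B₁
            · rw [indicator_of_mem (by exact h)]; simp [h]
            · rw [indicator_of_notMem (by exact h)]; simp [h]
          rw [h3]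
          exact Nat.cast_le.2
            (hov x _ (Finset.filter_subset _ _) fun v hv => (Finset.mem_filter.1 hv).2)
      _ = M * volume C := by rw [lintegral_const, Measure.restrict_apply_univ]

/-- The smallest volume of the closed `δ`-neighbourhoods of the sets of the space. -/
noncomputable def vmin (Ω : Set (E n)) (δ : ℝ) : ℝ≥0∞ :=
  ⨅ K : KSpace Ω, volume (cthickening δ (K.1 : Set (E n)))

lemma vmin_le (Ω : Set (E n)) (δ : ℝ) (K : KSpace Ω) :
    vmin Ω δ ≤ volume (cthickening δ (K.1 : Set (E n))) := iInf_le _ K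

lemma ball_le_vmin (Ω : Set (E n)) {δ : ℝ} (_hδ : 0 ≤ δ) :
    volume (closedBall (0 : E n) δ) ≤ vmin Ω δ := by
  refine le_iInf fun K => ?_
  obtain ⟨x, hx⟩ := K.1.nonempty
  rw [← Measure.addHaar_closedBall_center volume x δ]
  exact measure_mono (closedBall_subset_cthickening hx δ)

lemma isOpen_vol (Ω : Set (E n)) {δ : ℝ} (hδ : 0 ≤ δ) (c : ℝ≥0∞) :
    IsOpen {K : KSpace Ω | volume (cthickening δ (K.1 : Set (E n))) < c} := by
  rw [Metric.isOpen_iff]
  intro K hK
  have h1 : Tendsto (fun r => volume (cthickening r (cthickening δ (K.1 : Set (E n))))) (𝓝 0)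
      (𝓝 (volume (cthickening δ (K.1 : Set (E n))))) :=
    tendsto_measure_cthickening_of_isCompact K.1.isCompact.cthickening
  have h2 := h1.eventually_lt_const (show _ < c from hK)
  rw [Metric.eventually_nhds_iff] at h2
  obtain ⟨ρ, hρ, h3⟩ := h2
  refine ⟨ρ / 2, by positivity, fun L hL => ?_⟩
  show volume (cthickening δ (L.1 : Set (E n))) < c
  have h4 : (L.1 : Set (E n)) ⊆ cthickening (ρ / 2) (K.1 : Set (E n)) := by
    intro x hx
    rw [mem_ball, Subtype.dist_eq, NonemptyCompacts.dist_eq] at hL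
    obtain ⟨y, hy, hxy⟩ := exists_dist_lt_of_hausdorffDist_lt hx hL (edist_ne _ _)
    exact mem_cthickening_of_dist_le _ _ _ _ hy hxy.le
  have h5 : cthickening δ (L.1 : Set (E n)) ⊆
      cthickening (ρ / 2) (cthickening δ (K.1 : Set (E n))) := by
    refine (cthickening_subset_of_subset _ h4).trans ?_
    rw [cthickening_cthickening hδ (by positivity), cthickening_cthickening (by positivity) hδ,
      add_comm]
  refine (measure_mono h5).trans_lt (h3 ?_)
  rw [Real.dist_eq, sub_zero, abs_of_pos (by positivity)]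
  linarith

lemma vmin_lt_top (Ω : Set (E n)) (K : KSpace Ω) (δ : ℝ) : vmin Ω δ < ⊤ :=
  (vmin_le Ω δ K).trans_lt K.1.isCompact.isBounded.cthickening.measure_lt_top

/-- **Typical sets are nearly optimal at infinitely many of given scales.** -/
theorem typical_volume {Ω : Set (E n)} (hΩ : Bornology.IsBounded Ω) {δ ψ : ℕ → ℝ}
    (hδ : ∀ k, 0 < δ k) (hδ0 : Tendsto δ atTop (𝓝 0)) (hψ : Tendsto ψ atTop atTop) :
    ∀ᶠ K : KSpace Ω in residual (KSpace Ω),
      ∃ᶠ k in atTop, volume (cthickening (δ k) (K.1 : Set (E n))) <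
        ENNReal.ofReal (ψ k) * vmin Ω (δ k) := by
  simp only [frequently_atTop]
  rw [eventually_countable_forall]
  intro j
  have hopen : IsOpen {K : KSpace Ω | ∃ k ≥ j, volume (cthickening (δ k) (K.1 : Set (E n))) <
      ENNReal.ofReal (ψ k) * vmin Ω (δ k)} := by
    have : {K : KSpace Ω | ∃ k ≥ j, volume (cthickening (δ k) (K.1 : Set (E n))) <
        ENNReal.ofReal (ψ k) * vmin Ω (δ k)} = ⋃ k, ⋃ (_ : k ≥ j),
        {K : KSpace Ω | volume (cthickening (δ k) (K.1 : Set (E n))) <
          ENNReal.ofReal (ψ k) * vmin Ω (δ k)} := by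
      ext K; simp
    rw [this]
    exact isOpen_iUnion fun k => isOpen_iUnion fun _ => isOpen_vol Ω (hδ k).le _
  refine residual_of_dense_open hopen ?_
  rw [Metric.dense_iff]
  intro K r hr
  obtain ⟨M, hM⟩ := construct hΩ K (show 0 < r / 4 by positivity)
  have hev : ∀ᶠ k in atTop, δ k ≤ 1 ∧ (3 * M : ℝ) < ψ k :=
    ((hδ0.eventually_lt_const one_pos).mono fun _ h => h.le).and (hψ.eventually_gt_atTop _)
  obtain ⟨k, ⟨hk1, hk2⟩, hkj⟩ := (hev.and (eventually_ge_atTop j)).exists
  have hv0 : vmin Ω (δ k) ≠ 0 := by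
    have h1 := ball_le_vmin Ω (hδ k).le
    have h2 : 0 < volume (closedBall (0 : E n) (δ k)) := measure_closedBall_pos _ _ (hδ k)
    exact (h2.trans_le h1).ne'
  have hvt : vmin Ω (δ k) ≠ ⊤ := (vmin_lt_top Ω K _).ne
  obtain ⟨K₀, hK₀⟩ : ∃ K₀ : KSpace Ω, volume (cthickening (δ k) (K₀.1 : Set (E n))) <
      2 * vmin Ω (δ k) := by
    have : vmin Ω (δ k) < 2 * vmin Ω (δ k) := by
      rw [two_mul]
      exact ENNReal.lt_add_right hvt hv0
    exact iInf_lt_iff.1 this
  obtain ⟨F, V, K', hd, hcar, hF, hov⟩ := hM K₀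
  refine ⟨K', ?_, k, hkj, ?_⟩
  · rw [mem_ball]; linarith
  · have hB₁ : cthickening (δ k) (cthickening (3 * (r / 4)) (K.1 : Set (E n))) ⊆
        cthickening (3 * (r / 4) + 1) (K.1 : Set (E n)) := by
      rw [cthickening_cthickening (hδ k).le (by positivity)]
      exact cthickening_mono (by linarith) _
    have hcomp : IsCompact (pert F V (K₀.1 : Set (E n))
        (cthickening (3 * (r / 4)) (K.1 : Set (E n)))) := by
      rw [← hcar]; exact K'.1.isCompact
    have h := vol_pert (hδ k).le hB₁ isClosed_cthickening hcomp hF hov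
    rw [hcar]
    have h3M : (M : ℝ≥0∞) * vmin Ω (δ k) + M * (2 * vmin Ω (δ k)) <
        ENNReal.ofReal (ψ k) * vmin Ω (δ k) := by
      have : (M : ℝ≥0∞) * vmin Ω (δ k) + M * (2 * vmin Ω (δ k)) =
          ENNReal.ofReal (3 * M) * vmin Ω (δ k) := by
        rw [ENNReal.ofReal_mul (by norm_num), ENNReal.ofReal_natCast]
        have : ENNReal.ofReal 3 = 3 := by simp
        rw [this]; ring
      rw [this]
      exact ENNReal.mul_lt_mul_left hv0 hvt ((ENNReal.ofReal_lt_ofReal_iff
        (lt_of_le_of_lt (by positivity) hk2)).2 hk2)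
    refine lt_of_le_of_lt (h.trans ?_) h3M
    gcongr
    exact ball_le_vmin Ω (hδ k).le

end Pool.Agent.Q93.TypK
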