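import Pool.Agent.Q93.KF1
import Pool.Agent.Q93.TypK

open MeasureTheory Set Metric Filter Topology
open scoped ENNReal NNReal

namespace Pool.Agent.Q93.KF

variable {n : ℕ}

lemma av_congr {g g' : E n → ℝ≥0∞} (h : g =ᵐ[volume] g') (δ : ℝ) (b e : E n) :
    av g δ b e = av g' δ b e := by
  unfold av
  congr 1
  exact lintegral_congr_ae (ae_restrict_of_ae h)

lemma av_mono {g g' : E n → ℝ≥0∞} (h : ∀ᵐ y, g y ≤ g' y) (δ : ℝ) (b e : E n) :
    av g δ b e ≤ av g' δ b e := by
  unfold av
  gcongr 1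
  exact lintegral_mono_ae (ae_restrict_of_ae h)

lemma av_const_mul {g : E n → ℝ≥0∞} (hg : AEMeasurable g volume) (c : ℝ≥0∞) (δ : ℝ) (b e : E n) :
    av (fun y => c * g y) δ b e = c * av g δ b e := by
  unfold av
  rw [lintegral_const_mul'' c hg.restrict]
  ring

lemma measurableSet_tube2 {a : S n → E n} (ha : Measurable a) (δ : ℝ) :
    MeasurableSet {p : S n × E n | p.2 ∈ tube δ (a p.1) p.1.1} := by
  have h0 : Measurable (fun p : S n × E n => p.2 - a p.1) :=
    measurable_snd.sub (ha.comp measurable_fst)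
  have h1 : Measurable (fun p : S n × E n => (p.1.1 : E n)) :=
    measurable_subtype_coe.comp measurable_fst
  have h2 : Measurable (fun p : S n × E n => (inner ℝ (p.2 - a p.1) p.1.1 : ℝ)) := h0.inner h1
  refine MeasurableSet.inter ?_ ?_
  · exact measurableSet_le h2.abs measurable_const
  · exact measurableSet_le (h0.sub (h2.smul h1)).norm measurable_const

lemma meas_av {a : S n → E n} (ha : Measurable a) {g : E n → ℝ≥0∞} (hg : Measurable g) (δ : ℝ) :
    Measurable (fun e : S n => av g δ (a e) e) := by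
  unfold av
  have hT := measurableSet_tube2 ha δ
  refine Measurable.mul (Measurable.inv ?_) ?_
  · exact measurable_measure_prodMk_left hT
  · have h1 : Measurable (fun p : S n × E n =>
        ({p : S n × E n | p.2 ∈ tube δ (a p.1) p.1.1}).indicator (fun p => g p.2) p) :=
      (hg.comp measurable_snd).indicator hT
    have h2 := h1.lintegral_prod_right' (ν := (volume : Measure (E n)))
    have h3 : (fun e : S n => ∫⁻ y in tube δ (a e) e, g y) = fun e : S n => ∫⁻ y,
        ({p : S n × E n | p.2 ∈ tube δ (a p.1) p.1.1}).indicator (fun p => g p.2) (e, y) := by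
      ext e
      rw [← lintegral_indicator (isClosed_tube δ (a e) e).measurableSet]
      rfl
    rw [h3]
    exact h2

/-- The directions for which some average over a tube with centre in the ball of radius `ρ` about
the origin exceeds `1`. -/
def G (ρ : ℝ) (g : E n → ℝ≥0∞) (δ : ℝ) : Set (S n) :=
  {e | ∃ b : E n, ‖b‖ ≤ ρ ∧ 1 < av g δ b e}

lemma exists_dense (n : ℕ) {ρ : ℝ} (hρ : 0 ≤ ρ) : ∃ D : ℕ → E n, (∀ m, ‖D m‖ ≤ ρ) ∧
    ∀ b : E n, ‖b‖ ≤ ρ → ∃ φ : ℕ → ℕ, Tendsto (fun i => D (φ i)) atTop (𝓝 b) := by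
  have hne : Nonempty (closedBall (0 : E n) ρ) := ⟨⟨0, mem_closedBall_self hρ⟩⟩
  refine ⟨fun m => (TopologicalSpace.denseSeq (closedBall (0 : E n) ρ) m : E n), fun m => ?_,
    fun b hb => ?_⟩
  · exact mem_closedBall_zero_iff.1 (TopologicalSpace.denseSeq (closedBall (0 : E n) ρ) m).2
  · have hb' : b ∈ closedBall (0 : E n) ρ := by simpa using hb
    have hd := TopologicalSpace.denseRange_denseSeq (closedBall (0 : E n) ρ)
    have h1 : (⟨b, hb'⟩ : closedBall (0 : E n) ρ) ∈
        closure (range (TopologicalSpace.denseSeq (closedBall (0 : E n) ρ))) := hd _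
    obtain ⟨x, hx, hlim⟩ := mem_closure_iff_seq_limit.1 h1
    choose φ hφ using hx
    refine ⟨φ, ?_⟩
    have h2 : Tendsto (fun i => ((x i : closedBall (0 : E n) ρ) : E n)) atTop (𝓝 b) :=
      (continuous_subtype_val.tendsto _).comp hlim
    refine h2.congr fun i => ?_
    rw [← hφ i]

/-- Measurable selection. -/
lemma selection {ρ : ℝ} (hρ : 0 ≤ ρ) {g : E n → ℝ≥0∞} (hg : Measurable g) {δ : ℝ} (hδ : 0 < δ) :
    MeasurableSet (G (n := n) ρ g δ) ∧ ∃ s : S n → E n, Measurable s ∧ (∀ e, ‖s e‖ ≤ ρ) ∧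
      ∀ e ∈ G ρ g δ, 1 < av g δ (s e) e := by
  classical
  obtain ⟨D, hD, hDd⟩ := exists_dense n hρ
  have hG : G (n := n) ρ g δ = ⋃ m, {e : S n | 1 < av g δ (D m) e} := by
    ext e
    simp only [G, Set.mem_ofPred_eq, mem_iUnion]
    constructor
    · rintro ⟨b, hb, h1⟩
      by_contra hcon
      push Not at hcon
      obtain ⟨φ, hφ⟩ := hDd b hb
      have h2 := fatou (g := g) (gs := fun _ => g) (fun _ => hg.aemeasurable)
        (Eventually.of_forall fun y => by simp) hδ hφ (e : E n)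
      have h3 : liminf (fun i => av g δ (D (φ i)) (e : E n)) atTop ≤ 1 := by
        refine liminf_le_of_le (by isBoundedDefault) fun c hc => ?_
        obtain ⟨i, hi⟩ := hc.exists
        exact hi.trans (hcon _)
      exact absurd (h1.trans_le (h2.trans h3)) (lt_irrefl _)
    · rintro ⟨m, hm⟩
      exact ⟨D m, hD m, hm⟩
  have hm : ∀ m, MeasurableSet {e : S n | 1 < av g δ (D m) e} := fun m =>
    measurableSet_lt measurable_const (meas_av measurable_const hg δ)
  have hGm : MeasurableSet (G (n := n) ρ g δ) := by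
    rw [hG]; exact MeasurableSet.iUnion hm
  refine ⟨hGm, ?_⟩
  have hex : ∀ e : S n, ∃ m, (1 < av g δ (D m) e) ∨ e ∉ G ρ g δ := by
    intro e
    by_cases he : e ∈ G ρ g δ
    · have := he
      rw [hG, mem_iUnion] at this
      obtain ⟨m, hm⟩ := this
      exact ⟨m, Or.inl hm⟩
    · exact ⟨0, Or.inr he⟩
  refine ⟨fun e => D (Nat.find (hex e)), ?_, fun e => hD _, fun e he => ?_⟩
  · exact Measurable.find (f := fun m _ => D m)
      (p := fun m (e : S n) => (1 < av g δ (D m) e) ∨ e ∉ G ρ g δ) (fun _ => measurable_const)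
      (fun m => (hm m).union hGm.compl) hex
  · rcases Nat.find_spec (hex e) with h | h
    · exact h
    · exact absurd he h

open Pool.Agent.Q93.TypK in
/-- Localisation. -/
lemma localise (n : ℕ) {ρ : ℝ} (hρ : 0 < ρ) {p : ℝ} (hp : 1 ≤ p) : ∃ K : ℕ, ∀ δ : ℝ, 0 < δ →
    δ ≤ 1 → ∀ (g : E n → ℝ≥0∞), Measurable g → ∀ Θ : ℝ≥0∞,
    Θ * (K * ∫⁻ y, g y ^ p) < surf n {e | ∃ b : E n, 1 < av g δ b e} →
    ∃ g' : E n → ℝ≥0∞, Measurable g' ∧ Θ * ∫⁻ y, g' y ^ p < surf n (G ρ g' δ) := by
  classical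
  have hp0 : 0 < p := by linarith
  set ε : ℝ := ρ / (Real.sqrt n + 1) with hεdef
  have hsq : 0 ≤ Real.sqrt n := Real.sqrt_nonneg _
  have hε : 0 < ε := by positivity
  have hεη : Real.sqrt n * ε ≤ ρ := by
    rw [hεdef, mul_div_assoc', div_le_iff₀ (by positivity)]
    nlinarith
  obtain ⟨M, hM⟩ := card_lat (n := n) hε (ρ + 2)
  refine ⟨M, fun δ hδ hδ1 g hg Θ hlt => ?_⟩
  by_contra hcon
  push Not at hcon
  set B : Set (E n) := closedBall 0 (ρ + 2) with hB
  have hBm : MeasurableSet B := measurableSet_closedBall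
  set gz : (Fin n → ℤ) → E n → ℝ≥0∞ := fun z => B.indicator (fun y => g (y + lat ε z)) with hgz
  have hgzm : ∀ z, Measurable (gz z) := fun z =>
    (hg.comp (measurable_id.add_const _)).indicator hBm
  have h1 : {e : S n | ∃ b : E n, 1 < av g δ b e} ⊆ ⋃ z, G ρ (gz z) δ := by
    rintro e ⟨b, hb⟩
    rw [mem_iUnion]
    refine ⟨fun k => ⌊b k / ε⌋, b - lat ε (fun k => ⌊b k / ε⌋), (exists_lat hε b).trans hεη, ?_⟩
    set z : Fin n → ℤ := fun k => ⌊b k / ε⌋ with hz
    have h2 : av g δ b e = av (fun y => g (y + lat ε z)) δ (b - lat ε z) e := by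
      rw [← av_translate, sub_add_cancel]
    have h3 : av (fun y => g (y + lat ε z)) δ (b - lat ε z) e = av (gz z) δ (b - lat ε z) e := by
      unfold av
      congr 1
      refine setLIntegral_congr_fun (isClosed_tube _ _ _).measurableSet fun y hy => ?_
      have he : ‖(e : E n)‖ = 1 := by simp
      have h4 := tube_subset_closedBall he _ hy
      have h5 : y ∈ B := by
        rw [hB, mem_closedBall_zero_iff]
        rw [mem_closedBall, dist_eq_norm] at h4
        have h6 : y = (y - (b - lat ε z)) + (b - lat ε z) := by abel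
        rw [h6]
        refine (norm_add_le _ _).trans ?_
        have h7 := (exists_lat hε b).trans hεη
        linarith
      simp only [hgz]
      rw [indicator_of_mem h5]
    rw [← h3, ← h2]
    exact hb
  have h2 : ∑' z, ∫⁻ y, gz z y ^ p ≤ M * ∫⁻ y, g y ^ p := by
    have h3 : ∀ z, ∫⁻ y, gz z y ^ p = ∫⁻ y, (B.indicator (1 : E n → ℝ≥0∞) (y - lat ε z)) * g y ^ p := by
      intro z
      have h4 : ∀ y, gz z y ^ p = (fun x => (B.indicator (1 : E n → ℝ≥0∞) (x - lat ε z)) * g x ^ p)
          (y + lat ε z) := by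
        intro y
        simp only [hgz, add_sub_cancel_right]
        by_cases hy : y ∈ B
        · rw [indicator_of_mem hy, indicator_of_mem hy, Pi.one_apply, one_mul]
        · rw [indicator_of_notMem hy, indicator_of_notMem hy, zero_mul, ENNReal.zero_rpow_of_pos hp0]
      simp_rw [h4]
      exact lintegral_add_right_eq_self
        (fun x => (B.indicator (1 : E n → ℝ≥0∞) (x - lat ε z)) * g x ^ p) _
    simp_rw [h3]
    rw [← lintegral_tsum fun z => by
      refine Measurable.aemeasurable ?_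
      exact ((measurable_one.indicator hBm).comp (measurable_id.sub_const _)).mul (hg.pow_const p)]
    rw [← lintegral_const_mul' _ _ (ENNReal.natCast_ne_top M)]
    refine lintegral_mono fun y => ?_
    rw [ENNReal.tsum_mul_right]
    gcongr
    rw [ENNReal.tsum_eq_iSup_sum]
    refine iSup_le fun Λ => ?_
    have h5 : ∑ z ∈ Λ, B.indicator (1 : E n → ℝ≥0∞) (y - lat ε z) =
        ((Λ.filter (fun z => y - lat ε z ∈ B)).card : ℝ≥0∞) := by
      rw [Finset.card_filter, Nat.cast_sum]
      refine Finset.sum_congr rfl fun z _ => ?_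
      by_cases h : y - lat ε z ∈ B
      · rw [indicator_of_mem h]; simp [h]
      · rw [indicator_of_notMem h]; simp [h]
    rw [h5]
    refine Nat.cast_le.2 (hM _ y fun z hz => ?_)
    have := (Finset.mem_filter.1 hz).2
    rwa [hB, mem_closedBall_zero_iff] at this
  have h3 : surf n {e | ∃ b : E n, 1 < av g δ b e} ≤ Θ * (M * ∫⁻ y, g y ^ p) :=
    calc surf n {e | ∃ b : E n, 1 < av g δ b e} ≤ surf n (⋃ z, G ρ (gz z) δ) := measure_mono h1
      _ ≤ ∑' z, surf n (G ρ (gz z) δ) := measure_iUnion_le _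
      _ ≤ ∑' z, Θ * ∫⁻ y, gz z y ^ p := ENNReal.tsum_le_tsum fun z => hcon _ (hgzm z)
      _ = Θ * ∑' z, ∫⁻ y, gz z y ^ p := ENNReal.tsum_mul_left
      _ ≤ Θ * (M * ∫⁻ y, g y ^ p) := by gcongr
  exact absurd (hlt.trans_le h3) (lt_irrefl _)

end Pool.Agent.Q93.KF
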