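import Pool.Agent.Q93.KF2

open MeasureTheory Set Metric Filter Topology
open scoped ENNReal NNReal Pointwise

namespace Pool.Agent.Q93.KF

variable {n : ℕ}

/-! ### the orthogonal group (as in `Pool.Agent.TH705.RR.On`) -/

/-- The orthogonal group of `ℝ^n`. -/
noncomputable abbrev On (n : ℕ) := unitary (E n →L[ℝ] E n)

instance cstar_On (n : ℕ) : ContinuousStar (E n →L[ℝ] E n) :=
  ⟨(ContinuousLinearMap.adjoint (𝕜 := ℝ) (E := E n) (F := E n)).continuous⟩

instance compact_On (n : ℕ) : CompactSpace (On n) := by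
  have h1 : IsClosed (unitary (E n →L[ℝ] E n) : Set (E n →L[ℝ] E n)) := isClosed_unitary
  have h2 : Bornology.IsBounded (unitary (E n →L[ℝ] E n) : Set (E n →L[ℝ] E n)) := by
    apply (isBounded_iff_forall_norm_le).2
    refine ⟨1, ?_⟩
    intro u hu
    apply ContinuousLinearMap.opNorm_le_bound _ zero_le_one
    intro x
    rw [one_mul]
    exact (Unitary.norm_map ⟨u, hu⟩ x).le
  have h3 : ProperSpace (E n →L[ℝ] E n) := FiniteDimensional.proper ℝ _
  exact isCompact_iff_compactSpace.1 (Metric.isCompact_of_isClosed_isBounded h1 h2)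

/-- The action of the orthogonal group. -/
noncomputable def act (n : ℕ) : On n →* (E n ≃ₗᵢ[ℝ] E n) := Unitary.linearIsometryEquiv.toMonoidHom

theorem act_cont (v : E n) : Continuous (fun k : On n => act n k v) := by
  have h : (fun k : On n => act n k v) = fun k : On n => (k : E n →L[ℝ] E n) v := rfl
  rw [h]
  exact (ContinuousLinearMap.apply ℝ (E n) v).continuous.comp continuous_subtype_val

theorem act_trans (v w : E n) (hv : ‖v‖ = 1) (hw : ‖w‖ = 1) : ∃ k, act n k v = w := by
  refine ⟨Unitary.linearIsometryEquiv.symm ((ℝ ∙ (v - w))ᗮ.reflection), ?_⟩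
  have h : act n (Unitary.linearIsometryEquiv.symm ((ℝ ∙ (v - w))ᗮ.reflection)) =
      (ℝ ∙ (v - w))ᗮ.reflection := Unitary.linearIsometryEquiv.apply_symm_apply _
  rw [h]
  exact Submodule.reflection_sub (by rw [hv, hw])

/-! ### rotations of the sphere -/

/-- A linear isometry as a map of the sphere. -/
noncomputable def rot (k : E n ≃ₗᵢ[ℝ] E n) (e : S n) : S n := ⟨k e, by simp⟩

lemma continuous_rot (k : E n ≃ₗᵢ[ℝ] E n) : Continuous (rot k : S n → S n) :=
  (k.continuous.comp continuous_subtype_val).subtype_mk _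

lemma surf_rot (k : E n ≃ₗᵢ[ℝ] E n) {A : Set (S n)} (hA : MeasurableSet A) :
    surf n (rot k ⁻¹' A) = surf n A := by
  rw [Measure.toSphere_apply' _ hA, Measure.toSphere_apply' _ ((continuous_rot k).measurable hA)]
  congr 1
  have h1 : Ioo (0 : ℝ) 1 • ((fun e : S n => (e : E n)) '' (rot k ⁻¹' A)) =
      k ⁻¹' (Ioo (0 : ℝ) 1 • ((fun e : S n => (e : E n)) '' A)) := by
    ext y
    simp only [mem_preimage, Set.mem_smul]
    constructor
    · rintro ⟨t, ht, _, ⟨e, he, rfl⟩, rfl⟩
      exact ⟨t, ht, k e, ⟨rot k e, he, rfl⟩, by simp⟩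
    · rintro ⟨t, ht, _, ⟨e, he, rfl⟩, hy⟩
      refine ⟨t, ht, k.symm e, ⟨rot k.symm e, ?_, rfl⟩, ?_⟩
      · show rot k (rot k.symm e) ∈ A
        have : rot k (rot k.symm e) = e := by
          apply Subtype.ext
          show k (k.symm e) = e
          simp
        rw [this]; exact he
      · apply k.injective
        simp only [map_smul, LinearIsometryEquiv.apply_symm_apply]
        exact hy
  rw [h1]
  exact k.measurePreserving.measure_preimage_emb k.toHomeomorph.measurableEmbedding _

lemma exists_unit (hn : 1 ≤ n) : Nonempty (S n) := by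
  refine ⟨⟨EuclideanSpace.single (⟨0, hn⟩ : Fin n) (1 : ℝ), ?_⟩⟩
  simp

/-- Two sets of directions have a large intersection after a rotation. -/
lemma exists_rot (hn : 1 ≤ n) {A B : Set (S n)} (hA : MeasurableSet A) (hB : MeasurableSet B) :
    ∃ k : E n ≃ₗᵢ[ℝ] E n, surf n A * surf n B ≤ surf n univ * surf n (B ∩ rot k ⁻¹' A) := by
  let _ : MeasurableSpace (On n) := borel _
  have _ : BorelSpace (On n) := ⟨rfl⟩
  let K : TopologicalSpace.PositiveCompacts (On n) := ⊤
  have hK : Measure.haarMeasure K Set.univ = 1 := Measure.haarMeasure_self (K₀ := K)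
  have hprob : IsProbabilityMeasure (Measure.haarMeasure K) := ⟨hK⟩
  set μ := Measure.haarMeasure K with hμ
  obtain ⟨e₀⟩ := exists_unit hn
  set u : S n → On n → S n := fun e g => rot (act n g⁻¹) e with hu
  have hu1 : ∀ g, Continuous (fun e => u e g) := fun g => continuous_rot _
  have hu2 : ∀ e, Measurable (u e) := by
    intro e
    refine Continuous.measurable ?_
    exact ((act_cont (e : E n)).comp continuous_inv).subtype_mk _
  have hum : Measurable (Function.uncurry u) := measurable_uncurry_of_continuous_of_measurable hu1 hu2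
  have hZ : MeasurableSet {q : S n × On n | u q.1 q.2 ∈ A} := hum hA
  -- the function `c`
  have hconst : ∀ e, μ {g | u e g ∈ A} = μ {g | u e₀ g ∈ A} := by
    intro e
    obtain ⟨l, hl⟩ := act_trans (e₀ : E n) (e : E n) (by simp) (by simp)
    have h1 : {g : On n | u e g ∈ A} = (fun g => l⁻¹ * g) ⁻¹' {g | u e₀ g ∈ A} := by
      ext g
      simp only [mem_preimage, Set.mem_ofPred_eq, hu]
      have h2 : rot (act n g⁻¹) e = rot (act n (l⁻¹ * g)⁻¹) e₀ := by
        apply Subtype.ext
        show act n g⁻¹ e = act n (l⁻¹ * g)⁻¹ e₀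
        rw [mul_inv_rev, inv_inv, (act n).map_mul, ← hl]
        rfl
      rw [h2]
    rw [h1, measure_preimage_mul]
  set c := μ {g | u e₀ g ∈ A} with hc
  have hsec1 : ∀ C : Set (S n), MeasurableSet C →
      ∫⁻ g, surf n (C ∩ {e | u e g ∈ A}) ∂μ = c * surf n C := by
    intro C hC
    have hZC : MeasurableSet {q : S n × On n | q.1 ∈ C ∧ u q.1 q.2 ∈ A} :=
      (measurable_fst hC).inter hZ
    have h1 := Measure.prod_apply (μ := surf n) (ν := μ) hZC
    have h2 := Measure.prod_apply_symm (μ := surf n) (ν := μ) hZC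
    have h3 : ∀ g, (fun x => (x, g)) ⁻¹' {q : S n × On n | q.1 ∈ C ∧ u q.1 q.2 ∈ A} =
        C ∩ {e | u e g ∈ A} := fun g => rfl
    have h4 : ∀ e, μ (Prod.mk e ⁻¹' {q : S n × On n | q.1 ∈ C ∧ u q.1 q.2 ∈ A}) =
        C.indicator (fun _ => c) e := by
      intro e
      by_cases he : e ∈ C
      · rw [indicator_of_mem he, ← hconst e]
        congr 1
        ext g; simp [he]
      · rw [indicator_of_notMem he]
        have : Prod.mk e ⁻¹' {q : S n × On n | q.1 ∈ C ∧ u q.1 q.2 ∈ A} = ∅ := by
          ext g; simp [he]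
        rw [this, measure_empty]
    simp_rw [h3] at h2
    simp_rw [h4] at h1
    rw [← h2, h1, lintegral_indicator hC, lintegral_const, Measure.restrict_apply_univ]
  have hA1 : c * surf n univ = surf n A := by
    rw [← hsec1 univ MeasurableSet.univ]
    have : ∀ g, surf n (univ ∩ {e | u e g ∈ A}) = surf n A := by
      intro g
      rw [univ_inter]
      exact surf_rot _ hA
    simp_rw [this]
    rw [lintegral_const, measure_univ, mul_one]
  have hfin : ∫⁻ g, surf n (B ∩ {e | u e g ∈ A}) ∂μ ≠ ⊤ := by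
    rw [hsec1 B hB]
    exact ENNReal.mul_ne_top (measure_ne_top _ _) (measure_ne_top _ _)
  obtain ⟨g, hg⟩ := exists_lintegral_le hfin
  refine ⟨act n g⁻¹, ?_⟩
  rw [hsec1 B hB] at hg
  calc surf n A * surf n B = surf n univ * (c * surf n B) := by rw [← hA1]; ring
    _ ≤ surf n univ * surf n (B ∩ {e | u e g ∈ A}) := by gcongr

/-- A set of directions of positive measure covers, after few rotations, almost everything. -/
lemma spread (hn : 1 ≤ n) {η : ℝ} (hη : 0 < η) : ∃ L : ℝ, 0 < L ∧ ∀ A : Set (S n),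
    MeasurableSet A → 0 < surf n A → ∃ T : Finset (E n ≃ₗᵢ[ℝ] E n),
      (T.card : ℝ) * (surf n).real A ≤ L ∧ (surf n).real {e | ∀ k ∈ T, rot k e ∉ A} ≤ η := by
  classical
  obtain ⟨e₀⟩ := exists_unit hn
  set s : ℝ := (surf n).real univ with hs
  rcases eq_or_lt_of_le (show 0 ≤ s from measureReal_nonneg) with hs0 | hs0
  · refine ⟨1, one_pos, fun A hA hpos => ?_⟩
    have h1 : surf n univ = 0 := by
      have := hs0.symm
      rw [hs, measureReal_eq_zero_iff] at this
      exact this
    exact absurd (measure_mono (subset_univ A)) (not_le.2 (by rw [h1]; exact hpos))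
  set ℓ : ℝ := max 0 (Real.log (s / η)) with hℓ
  have hℓ0 : 0 ≤ ℓ := le_max_left _ _
  refine ⟨(ℓ + 1) * s, by positivity, fun A hA hpos => ?_⟩
  set α : ℝ := (surf n).real A with hα
  have hα0 : 0 < α := by
    rw [hα, measureReal_def]
    exact ENNReal.toReal_pos hpos.ne' (measure_ne_top _ _)
  have hαs : α ≤ s := measureReal_mono (subset_univ A)
  set β : ℝ := α / s with hβ
  have hβ0 : 0 < β := by positivity
  have hβ1 : β ≤ 1 := by rw [hβ, div_le_one hs0]; exact hαs
  have key : ∀ m : ℕ, ∃ T : Finset (E n ≃ₗᵢ[ℝ] E n), T.card ≤ m ∧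
      (surf n).real {e | ∀ k ∈ T, rot k e ∉ A} ≤ (1 - β) ^ m * s := by
    intro m
    induction m with
    | zero => exact ⟨∅, le_rfl, by simp [hs]⟩
    | succ m ih =>
      obtain ⟨T, hT, hTm⟩ := ih
      set B : Set (S n) := {e | ∀ k ∈ T, rot k e ∉ A} with hB
      have hBm : MeasurableSet B := by
        have : B = ⋂ k ∈ T, (rot k ⁻¹' A)ᶜ := by ext e; simp [hB]
        rw [this]
        exact Finset.measurableSet_biInter _ fun k _ => ((continuous_rot k).measurable hA).compl
      obtain ⟨k, hk⟩ := exists_rot hn hA hBm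
      refine ⟨insert k T, (Finset.card_insert_le _ _).trans (by omega), ?_⟩
      have hset : {e : S n | ∀ k' ∈ insert k T, rot k' e ∉ A} = B \ (rot k ⁻¹' A) := by
        ext e
        simp only [Finset.mem_insert, forall_eq_or_imp, Set.mem_ofPred_eq, hB, Set.mem_sdiff,
          mem_preimage]
        tauto
      rw [hset]
      have h1 : (surf n).real (B \ (rot k ⁻¹' A)) =
          (surf n).real B - (surf n).real (B ∩ rot k ⁻¹' A) := by
        have := measureReal_inter_add_sdiff (μ := surf n) (s := B) (t := rot k ⁻¹' A)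
          ((continuous_rot k).measurable hA)
        linarith
      have h2 : α * (surf n).real B ≤ s * (surf n).real (B ∩ rot k ⁻¹' A) := by
        have h3 := ENNReal.toReal_mono (ENNReal.mul_ne_top (measure_ne_top _ _)
          (measure_ne_top _ _)) hk
        rw [ENNReal.toReal_mul, ENNReal.toReal_mul] at h3
        exact h3
      have h3 : β * (surf n).real B ≤ (surf n).real (B ∩ rot k ⁻¹' A) := by
        rw [hβ, div_mul_eq_mul_div, div_le_iff₀ hs0]
        linarith
      rw [h1, pow_succ]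
      have h4 : 0 ≤ 1 - β := by linarith
      nlinarith
  obtain ⟨m, hm1, hm2⟩ : ∃ m : ℕ, ℓ / β ≤ m ∧ (m : ℝ) ≤ ℓ / β + 1 :=
    ⟨⌈ℓ / β⌉₊, Nat.le_ceil _, (Nat.ceil_lt_add_one (by positivity)).le⟩
  obtain ⟨T, hT, hTm⟩ := key m
  refine ⟨T, ?_, ?_⟩
  · have h1 : (T.card : ℝ) ≤ m := by exact_mod_cast hT
    have h2 : α = β * s := by rw [hβ]; field_simp
    calc (T.card : ℝ) * α ≤ (ℓ / β + 1) * α := by gcongr; exact h1.trans hm2
      _ = (ℓ + β) * s := by rw [h2]; field_simp
      _ ≤ (ℓ + 1) * s := by gcongr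
  · refine hTm.trans ?_
    have h1 : (1 - β) ^ m ≤ Real.exp (-ℓ) := by
      have h2 : (1 - β) ≤ Real.exp (-β) := by
        have := Real.add_one_le_exp (-β)
        linarith
      calc (1 - β) ^ m ≤ Real.exp (-β) ^ m := by gcongr
        _ = Real.exp (-(m * β)) := by rw [← Real.exp_nat_mul]; ring_nf
        _ ≤ Real.exp (-ℓ) := by
          apply Real.exp_le_exp.2
          rw [div_le_iff₀ hβ0] at hm1
          linarith
    have h3 : Real.exp (-ℓ) ≤ η / s := by
      have h4 : Real.log (s / η) ≤ ℓ := le_max_right _ _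
      have h5 : -ℓ ≤ Real.log (η / s) := by
        rw [← inv_div, Real.log_inv]
        linarith
      calc Real.exp (-ℓ) ≤ Real.exp (Real.log (η / s)) := Real.exp_le_exp.2 h5
        _ = η / s := Real.exp_log (by positivity)
    calc (1 - β) ^ m * s ≤ η / s * s := by gcongr; exact h1.trans h3
      _ = η := by field_simp

end Pool.Agent.Q93.KF
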