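import Pool.Agent.Q93.KF3

open MeasureTheory Set Metric Filter Topology
open scoped ENNReal NNReal

namespace Pool.Agent.Q93.KF

variable {n : ℕ}

/-- The Kakeya maximal function. -/
noncomputable def maxf (f : E n → ℝ) (δ : ℝ) (e : E n) : ℝ≥0∞ :=
  ⨆ b : E n, av (fun y => ‖f y‖ₑ) δ b e

/-- The weak type `(p, p)` estimate, for all small `δ`, with the rate `Φ δ`. -/
def WeakType (n : ℕ) (p : ℝ) (Φ : ℝ → ℝ) : Prop :=
  ∃ C δ₀ : ℝ, 0 < δ₀ ∧ ∀ δ : ℝ, 0 < δ → δ < δ₀ → ∀ f : E n → ℝ, AEMeasurable f volume →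
    ∀ t : ℝ, 0 < t → ENNReal.ofReal (t ^ p) * surf n {e | ENNReal.ofReal t < maxf f δ e} ≤
      ENNReal.ofReal (C * Φ δ ^ p) * ∫⁻ y, ‖f y‖ₑ ^ p

lemma amplify (hn : 1 ≤ n) {p : ℝ} (hp : 1 ≤ p) {ρ : ℝ} (hρ : 0 < ρ) {Φ : ℝ → ℝ}
    (hΦ : ∀ δ, 0 < δ → 0 < Φ δ) (hW : ¬ WeakType n p Φ) {η C' δ₀ : ℝ} (hη : 0 < η) (hC' : 0 < C')
    (hδ₀ : 0 < δ₀) : ∃ δ, 0 < δ ∧ δ < δ₀ ∧ ∃ F : E n → ℝ≥0∞, Measurable F ∧
      ENNReal.ofReal (C' * Φ δ ^ p) * ∫⁻ y, F y ^ p ≤ 1 ∧ (surf n).real (G ρ F δ)ᶜ ≤ η := by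
  classical
  have hp0 : 0 < p := by linarith
  obtain ⟨K, hK⟩ := localise n hρ hp
  obtain ⟨L, hL0, hL⟩ := spread hn hη
  unfold WeakType at hW
  push Not at hW
  obtain ⟨δ, hδ, hδ1, f, hf, t, ht, hlt⟩ := hW (C' * L * K) (min δ₀ 1) (lt_min hδ₀ one_pos)
  have hδ₀' : δ < δ₀ := hδ1.trans_le (min_le_left _ _)
  have hδ1' : δ ≤ 1 := (hδ1.trans_le (min_le_right _ _)).le
  have hΦp : 0 < Φ δ ^ p := Real.rpow_pos_of_pos (hΦ δ hδ) _
  refine ⟨δ, hδ, hδ₀', ?_⟩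
  -- normalisation
  set f' : E n → ℝ := hf.mk f with hf'
  have hf'm : Measurable f' := hf.measurable_mk
  have hff' : f =ᵐ[volume] f' := hf.ae_eq_mk
  have htE : ENNReal.ofReal t ≠ 0 := (ENNReal.ofReal_pos.2 ht).ne'
  have htT : ENNReal.ofReal t ≠ ⊤ := ENNReal.ofReal_ne_top
  set g : E n → ℝ≥0∞ := fun y => (ENNReal.ofReal t)⁻¹ * ‖f' y‖ₑ with hg
  have hgm : Measurable g := hf'm.enorm.const_mul _
  have h1 : ∀ b e : E n, av g δ b e = (ENNReal.ofReal t)⁻¹ * av (fun y => ‖f y‖ₑ) δ b e := by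
    intro b e
    rw [hg, av_const_mul hf'm.enorm.aemeasurable]
    congr 1
    refine av_congr ?_ _ _ _
    filter_upwards [hff'] with y hy
    rw [hy]
  have h2 : {e : S n | ∃ b : E n, 1 < av g δ b e} = {e : S n | ENNReal.ofReal t < maxf f δ e} := by
    ext e
    simp only [Set.mem_ofPred_eq, maxf, lt_iSup_iff]
    refine exists_congr fun b => ?_
    rw [h1, mul_comm, ← div_eq_mul_inv, ENNReal.lt_div_iff_mul_lt (Or.inl htE) (Or.inl htT), one_mul]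
  have h3 : ∫⁻ y, g y ^ p = (ENNReal.ofReal (t ^ p))⁻¹ * ∫⁻ y, ‖f y‖ₑ ^ p := by
    have h4 : ∀ y, g y ^ p = (ENNReal.ofReal (t ^ p))⁻¹ * ‖f' y‖ₑ ^ p := by
      intro y
      rw [hg]
      simp only
      rw [ENNReal.mul_rpow_of_nonneg _ _ hp0.le, ENNReal.inv_rpow,
        ENNReal.ofReal_rpow_of_pos ht]
    simp_rw [h4]
    rw [lintegral_const_mul _ (hf'm.enorm.pow_const p)]
    congr 1
    refine lintegral_congr_ae ?_
    filter_upwards [hff'] with y hy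
    rw [hy]
  set Θ : ℝ≥0∞ := ENNReal.ofReal (C' * L * Φ δ ^ p) with hΘ
  have htpE : ENNReal.ofReal (t ^ p) ≠ 0 := (ENNReal.ofReal_pos.2 (Real.rpow_pos_of_pos ht p)).ne'
  have htpT : ENNReal.ofReal (t ^ p) ≠ ⊤ := ENNReal.ofReal_ne_top
  have h5 : Θ * (K * ∫⁻ y, g y ^ p) < surf n {e | ∃ b : E n, 1 < av g δ b e} := by
    rw [h2, h3]
    have h6 : ENNReal.ofReal (C' * L * K * Φ δ ^ p) = Θ * K := by
      rw [hΘ, ← ENNReal.ofReal_natCast K, ← ENNReal.ofReal_mul (by positivity)]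
      congr 1; ring
    rw [h6] at hlt
    have h7 : Θ * (K * ((ENNReal.ofReal (t ^ p))⁻¹ * ∫⁻ y, ‖f y‖ₑ ^ p)) =
        (Θ * K * ∫⁻ y, ‖f y‖ₑ ^ p) / ENNReal.ofReal (t ^ p) := by
      rw [div_eq_mul_inv]; ring
    rw [h7, ENNReal.div_lt_iff (Or.inl htpE) (Or.inl htpT), mul_comm (surf n _)]
    exact hlt
  obtain ⟨g', hg'm, hg'⟩ := hK δ hδ hδ1' g hgm Θ h5
  obtain ⟨hAm, _⟩ := selection hρ.le hg'm hδ
  set A : Set (S n) := G ρ g' δ with hA
  have hApos : 0 < surf n A := bot_le.trans_lt hg'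
  obtain ⟨T, hT1, hT2⟩ := hL A hAm hApos
  set F : E n → ℝ≥0∞ := fun y => ⨆ k ∈ T, g' (k y) with hF
  have hFm : Measurable F := by
    refine Measurable.biSup (f := fun (k : E n ≃ₗᵢ[ℝ] E n) y => g' (k y)) (T : Set _)
      T.countable_toSet fun k _ => ?_
    exact hg'm.comp k.continuous.measurable
  refine ⟨F, hFm, ?_, ?_⟩
  · have h8 : ∀ y, F y ^ p ≤ ∑ k ∈ T, g' (k y) ^ p := by
      intro y
      rcases T.eq_empty_or_nonempty with hTe | hTn
      · simp [hF, hTe, ENNReal.zero_rpow_of_pos hp0]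
      · obtain ⟨k, hk, hkeq⟩ : ∃ k ∈ T, F y = g' (k y) := by
          have := Finset.exists_mem_eq_sup' hTn (fun k => g' (k y))
          obtain ⟨k, hk, h⟩ := this
          refine ⟨k, hk, ?_⟩
          rw [hF]
          simp only
          rw [← h, Finset.sup'_eq_sup, Finset.sup_eq_iSup]
        rw [hkeq]
        exact Finset.single_le_sum (f := fun k : E n ≃ₗᵢ[ℝ] E n => g' (k y) ^ p)
          (fun _ _ => bot_le) hk
    have h9 : ∫⁻ y, F y ^ p ≤ T.card * ∫⁻ y, g' y ^ p := by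
      refine (lintegral_mono h8).trans ?_
      have hgk : ∀ k : E n ≃ₗᵢ[ℝ] E n, Measurable (fun y => g' (k y) ^ p) := fun k =>
        (hg'm.comp k.continuous.measurable).pow_const p
      rw [lintegral_finsetSum _ fun k _ => hgk k]
      have h10 : ∀ k : E n ≃ₗᵢ[ℝ] E n, ∫⁻ y, g' (k y) ^ p = ∫⁻ y, g' y ^ p := by
        intro k
        exact k.measurePreserving.lintegral_comp (hg'm.pow_const p)
      simp_rw [h10]
      rw [Finset.sum_const, nsmul_eq_mul]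
    set X : ℝ≥0∞ := ENNReal.ofReal (C' * Φ δ ^ p) with hX
    have h11 : Θ = X * ENNReal.ofReal L := by
      rw [hΘ, hX, ← ENNReal.ofReal_mul (by positivity)]
      congr 1; ring
    have hLE : ENNReal.ofReal L ≠ 0 := (ENNReal.ofReal_pos.2 hL0).ne'
    have h12 : (T.card : ℝ≥0∞) * surf n A ≤ ENNReal.ofReal L := by
      have h13 : surf n A = ENNReal.ofReal ((surf n).real A) := by
        rw [measureReal_def, ENNReal.ofReal_toReal (measure_ne_top _ _)]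
      rw [h13, ← ENNReal.ofReal_natCast, ← ENNReal.ofReal_mul (by positivity)]
      exact ENNReal.ofReal_le_ofReal hT1
    have h14 : (X * (T.card * ∫⁻ y, g' y ^ p)) * ENNReal.ofReal L ≤ 1 * ENNReal.ofReal L := by
      calc (X * (T.card * ∫⁻ y, g' y ^ p)) * ENNReal.ofReal L
          = T.card * (Θ * ∫⁻ y, g' y ^ p) := by rw [h11]; ring
        _ ≤ T.card * surf n A := by gcongr
        _ ≤ 1 * ENNReal.ofReal L := by rw [one_mul]; exact h12
    have h15 : X * (T.card * ∫⁻ y, g' y ^ p) ≤ 1 :=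
      (ENNReal.mul_le_mul_iff_left hLE ENNReal.ofReal_ne_top).1 h14
    exact le_trans (by gcongr) h15
  · refine le_trans (measureReal_mono ?_) hT2
    intro e he k hk hke
    apply he
    obtain ⟨b', hb', h16⟩ := hke
    refine ⟨k.symm b', by simpa using hb', ?_⟩
    have h17 : av (fun y => g' (k y)) δ (k.symm b') e = av g' δ b' (k e) := by
      rw [av_rotate, LinearIsometryEquiv.apply_symm_apply]
    have h18 : av (fun y => g' (k y)) δ (k.symm b') e ≤ av F δ (k.symm b') e := by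
      refine av_mono (Eventually.of_forall fun y => ?_) _ _ _
      exact le_iSup₂ (f := fun (k : E n ≃ₗᵢ[ℝ] E n) (_ : k ∈ T) => g' (k y)) k hk
    refine lt_of_lt_of_le ?_ h18
    rw [h17]
    exact h16

end Pool.Agent.Q93.KF
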