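import Pool.Agent.Q93.KF4

open MeasureTheory Set Metric Filter Topology
open scoped ENNReal NNReal

namespace Pool.Agent.Q93.KF

variable {n : ℕ}

/-- The measurable families of unit segments, one with midpoint `a e`, `‖a e‖ ≤ R`, for (almost)
every direction `e`, with the distance `∫ ‖a e - a' e‖`. -/
abbrev Fam (n : ℕ) (R : ℝ) := {a : Lp (E n) 1 (surf n) // ∀ᵐ e ∂surf n, ‖a e‖ ≤ R}

/-- The average of `|f|` over the tube about the segment in direction `e` of the family `a`. -/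
noncomputable def tubeAv (a : S n → E n) (f : E n → ℝ) (δ : ℝ) (e : S n) : ℝ≥0∞ :=
  av (fun y => ‖f y‖ₑ) δ (a e) e

lemma exists_subseq_ae {α F : Type*} [MeasurableSpace α] {μ : Measure α} [NormedAddCommGroup F]
    {p : ℝ≥0∞} [Fact (1 ≤ p)] {a : ℕ → Lp F p μ} {a₀ : Lp F p μ} (h : Tendsto a atTop (𝓝 a₀)) :
    ∃ φ : ℕ → ℕ, StrictMono φ ∧ ∀ᵐ x ∂μ, Tendsto (fun i => a (φ i) x) atTop (𝓝 (a₀ x)) :=
  (tendstoInMeasure_of_tendsto_Lp h).exists_seq_tendsto_ae

lemma isClosed_fam (n : ℕ) (R : ℝ) :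
    IsClosed {a : Lp (E n) 1 (surf n) | ∀ᵐ e ∂surf n, ‖a e‖ ≤ R} := by
  refine IsSeqClosed.isClosed ?_
  intro a a₀ ha hlim
  obtain ⟨φ, _, h2⟩ := exists_subseq_ae hlim
  have h3 : ∀ᵐ e ∂surf n, ∀ i, ‖a (φ i) e‖ ≤ R := by
    rw [ae_all_iff]
    exact fun i => ha (φ i)
  show ∀ᵐ e ∂surf n, ‖a₀ e‖ ≤ R
  filter_upwards [h2, h3] with e he1 he2
  exact le_of_tendsto he1.norm (Eventually.of_forall he2)

instance (n : ℕ) (R : ℝ) : CompleteSpace (Fam n R) := (isClosed_fam n R).completeSpace_coe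

lemma meas_tubeAv {a : S n → E n} (ha : Measurable a) {f : E n → ℝ} (hf : Measurable f) (δ : ℝ) :
    Measurable (tubeAv a f δ) := meas_av ha hf.enorm δ

section
variable {p : ℝ≥0∞} [Fact (1 ≤ p)] {R : ℝ}

/-- Lower semicontinuity. -/
lemma isOpen_good {δ : ℝ} (hδ : 0 < δ) (c : ℝ≥0∞) (κ : ℝ) :
    IsOpen {x : Fam n R × Lp ℝ p (volume : Measure (E n)) |
      κ < (surf n).real {e | c < tubeAv x.1.1 x.2 δ e}} := by
  rw [← isClosed_compl_iff]
  refine IsSeqClosed.isClosed ?_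
  intro x x₀ hx hlim
  simp only [mem_compl_iff, Set.mem_ofPred_eq, not_lt] at hx ⊢
  have h1 : Tendsto (fun i => (x i).1.1) atTop (𝓝 x₀.1.1) :=
    (continuous_subtype_val.tendsto _).comp ((continuous_fst.tendsto _).comp hlim)
  obtain ⟨φ, hφ, h2⟩ := exists_subseq_ae h1
  have h3 : Tendsto (fun i => (x (φ i)).2) atTop (𝓝 x₀.2) :=
    ((continuous_snd.tendsto _).comp hlim).comp hφ.tendsto_atTop
  obtain ⟨φ', hφ', h4⟩ := exists_subseq_ae h3
  set y : ℕ → Fam n R × Lp ℝ p (volume : Measure (E n)) := fun i => x (φ (φ' i)) with hy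
  have h5 : ∀ᵐ e ∂surf n, Tendsto (fun i => (y i).1.1 e) atTop (𝓝 (x₀.1.1 e)) := by
    filter_upwards [h2] with e he
    exact he.comp hφ'.tendsto_atTop
  have hxy : ∀ i, (surf n).real {e | c < tubeAv (y i).1.1 (y i).2 δ e} ≤ κ := fun i => hx _
  have hκ : 0 ≤ κ := measureReal_nonneg.trans (hxy 0)
  have hAm : ∀ z : Fam n R × Lp ℝ p (volume : Measure (E n)),
      MeasurableSet {e | c < tubeAv z.1.1 z.2 δ e} := fun z =>
    measurableSet_lt measurable_const (meas_tubeAv (Lp.stronglyMeasurable z.1.1).measurable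
      (Lp.stronglyMeasurable z.2).measurable δ)
  have hxy' : ∀ i, surf n {e | c < tubeAv (y i).1.1 (y i).2 δ e} ≤ ENNReal.ofReal κ := by
    intro i
    have := hxy i
    rw [measureReal_def] at this
    exact (ENNReal.le_ofReal_iff_toReal_le (measure_ne_top _ _) hκ).2 this
  have h6 : ∀ᵐ e ∂surf n, ({e | c < tubeAv x₀.1.1 x₀.2 δ e}).indicator (1 : S n → ℝ≥0∞) e ≤
      liminf (fun i => ({e | c < tubeAv (y i).1.1 (y i).2 δ e}).indicator (1 : S n → ℝ≥0∞) e)
        atTop := by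
    filter_upwards [h5] with e he
    by_cases hc : c < tubeAv x₀.1.1 x₀.2 δ e
    · have h7 : tubeAv x₀.1.1 x₀.2 δ e ≤
          liminf (fun i => tubeAv (y i).1.1 (y i).2 δ e) atTop := by
        unfold tubeAv
        refine fatou (fun i => (Lp.stronglyMeasurable (y i).2).measurable.enorm.aemeasurable)
          ?_ hδ he (e : E n)
        filter_upwards [h4] with z hz
        have h8 : Tendsto (fun i => ‖(y i).2 z‖ₑ) atTop (𝓝 ‖x₀.2 z‖ₑ) := hz.enorm
        exact h8.liminf_eq.ge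
      have h9 : ∀ᶠ i in atTop, c < tubeAv (y i).1.1 (y i).2 δ e :=
        eventually_lt_of_lt_liminf (hc.trans_le h7) (by isBoundedDefault)
      rw [indicator_of_mem (by exact hc)]
      refine le_liminf_of_le (by isBoundedDefault) ?_
      filter_upwards [h9] with i hi
      rw [indicator_of_mem (by exact hi)]
    · rw [indicator_of_notMem (by exact hc)]
      exact bot_le
  have h10 : surf n {e | c < tubeAv x₀.1.1 x₀.2 δ e} ≤ ENNReal.ofReal κ := by
    calc surf n {e | c < tubeAv x₀.1.1 x₀.2 δ e}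
        = ∫⁻ e, ({e | c < tubeAv x₀.1.1 x₀.2 δ e}).indicator 1 e ∂surf n :=
          (lintegral_indicator_one (hAm x₀)).symm
      _ ≤ ∫⁻ e, liminf (fun i => ({e | c < tubeAv (y i).1.1 (y i).2 δ e}).indicator
            (1 : S n → ℝ≥0∞) e) atTop ∂surf n := lintegral_mono_ae h6
      _ ≤ liminf (fun i => ∫⁻ e, ({e | c < tubeAv (y i).1.1 (y i).2 δ e}).indicator
            (1 : S n → ℝ≥0∞) e ∂surf n) atTop :=
          lintegral_liminf_le fun i => measurable_one.indicator (hAm _)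
      _ ≤ ENNReal.ofReal κ := by
          refine liminf_le_of_le (by isBoundedDefault) fun b hb => ?_
          obtain ⟨i, hi⟩ := hb.exists
          refine hi.trans ?_
          rw [lintegral_indicator_one (hAm _)]
          exact hxy' i
  rw [measureReal_def]
  exact ENNReal.toReal_le_of_le_ofReal hκ h10

end

/-- A finite net. -/
lemma exists_net (n : ℕ) {R ρ : ℝ} (hρ : 0 < ρ) (hρR : ρ < R) : ∃ N : Finset (E n),
    (∀ c ∈ N, ‖c‖ ≤ R - ρ) ∧ ∀ x : E n, ‖x‖ ≤ R → ∃ c ∈ N, ‖x - c‖ ≤ 2 * ρ := by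
  have hR : 0 < R := hρ.trans hρR
  obtain ⟨t, ht, htf, hcov⟩ :=
    (isCompact_closedBall (0 : E n) (R - ρ)).finite_cover_balls hρ
  refine ⟨htf.toFinset, fun c hc => ?_, fun x hx => ?_⟩
  · have := ht (by simpa using hc)
    simpa using this
  · have h1 : (1 - ρ / R) • x ∈ closedBall (0 : E n) (R - ρ) := by
      rw [mem_closedBall_zero_iff, norm_smul, Real.norm_eq_abs, abs_of_nonneg (by
        rw [sub_nonneg, div_le_one hR]; exact hρR.le)]
      have h2 : 0 ≤ 1 - ρ / R := by rw [sub_nonneg, div_le_one hR]; exact hρR.le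
      calc (1 - ρ / R) * ‖x‖ ≤ (1 - ρ / R) * R := by gcongr
        _ = R - ρ := by field_simp
    have h2 := hcov h1
    simp only [mem_iUnion, exists_prop] at h2
    obtain ⟨c, hc, h3⟩ := h2
    refine ⟨c, by simpa using hc, ?_⟩
    rw [mem_ball, dist_eq_norm] at h3
    have h4 : x - c = (ρ / R) • x + ((1 - ρ / R) • x - c) := by
      rw [sub_smul, one_smul]; abel
    rw [h4]
    refine (norm_add_le _ _).trans ?_
    have h5 : ‖(ρ / R) • x‖ ≤ ρ := by
      rw [norm_smul, Real.norm_eq_abs, abs_of_pos (by positivity)]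
      calc ρ / R * ‖x‖ ≤ ρ / R * R := by gcongr
        _ = ρ := by field_simp
    linarith

/-- Measurable choice of a nearby point of the net. -/
lemma choose_net {R ρ : ℝ} (hρ : 0 < ρ) {N : Finset (E n)}
    (hN : ∀ x : E n, ‖x‖ ≤ R → ∃ c ∈ N, ‖x - c‖ ≤ 2 * ρ) {a : S n → E n} (ha : Measurable a) :
    ∃ c : S n → E n, Measurable c ∧ ∀ e, ‖a e‖ ≤ R → c e ∈ N ∧ ‖a e - c e‖ ≤ 2 * ρ := by
  classical
  set l : List (E n) := N.toList with hl
  have hex : ∀ e : S n, ∃ m : ℕ, (m < l.length ∧ ‖a e - l.getD m 0‖ ≤ 2 * ρ) ∨ ¬ ‖a e‖ ≤ R := by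
    intro e
    by_cases h : ‖a e‖ ≤ R
    · obtain ⟨c, hc, hc'⟩ := hN (a e) h
      have hcl : c ∈ l := by simpa [hl] using hc
      obtain ⟨m, hm, hmc⟩ := List.mem_iff_getElem.1 hcl
      refine ⟨m, Or.inl ⟨hm, ?_⟩⟩
      rw [List.getD_eq_getElem _ _ hm, hmc]
      exact hc'
    · exact ⟨0, Or.inr h⟩
  refine ⟨fun e => l.getD (Nat.find (hex e)) 0, ?_, ?_⟩
  · exact Measurable.find (f := fun m (_ : S n) => l.getD m 0)
      (p := fun m (e : S n) => (m < l.length ∧ ‖a e - l.getD m 0‖ ≤ 2 * ρ) ∨ ¬ ‖a e‖ ≤ R)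
      (fun _ => measurable_const)
      (fun m => by
        refine MeasurableSet.union ?_ (measurableSet_le ha.norm measurable_const).compl
        refine (MeasurableSet.const _).inter ?_
        exact measurableSet_le (ha.sub_const _).norm measurable_const) hex
  · intro e he
    rcases Nat.find_spec (hex e) with ⟨h1, h2⟩ | h
    · refine ⟨?_, h2⟩
      show l.getD (Nat.find (hex e)) 0 ∈ N
      rw [List.getD_eq_getElem _ _ h1]
      exact Finset.mem_toList.1 (List.getElem_mem h1)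
    · exact absurd he h

end Pool.Agent.Q93.KF
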