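import Pool.Agent.Q93.KF5

open MeasureTheory Set Metric Filter Topology
open scoped ENNReal NNReal

namespace Pool.Agent.Q93.KF

variable {n : ℕ}

section
variable {p : ℝ≥0∞} [Fact (1 ≤ p)] {R : ℝ}

/-- The density step. -/
lemma dense_step (hn : 1 ≤ n) (hp : p ≠ ⊤) (hR : 0 < R) {Φ : ℝ → ℝ} (hΦ : ∀ δ, 0 < δ → 0 < Φ δ)
    (hW : ¬ WeakType n p.toReal Φ) (x₀ : Fam n R × Lp ℝ p (volume : Measure (E n))) {r M η δ₀ : ℝ}
    (hr : 0 < r) (hM : 0 < M) (hη : 0 < η) (hδ₀ : 0 < δ₀) :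
    ∃ x ∈ ball x₀ r, ∃ δ, 0 < δ ∧ δ < δ₀ ∧
      (surf n).real {e | ENNReal.ofReal (M * Φ δ) < tubeAv x.1.1 x.2 δ e}ᶜ ≤ η := by
  classical
  have hp1 : (1 : ℝ≥0∞) ≤ p := Fact.out
  set q : ℝ := p.toReal with hq
  have hq1 : 1 ≤ q := by
    rw [hq]
    have := ENNReal.toReal_mono hp hp1
    simpa using this
  have hq0 : 0 < q := by linarith
  have hp0 : p ≠ 0 := (lt_of_lt_of_le one_pos hp1).ne'
  obtain ⟨a₀, f₀⟩ := x₀
  set s' : ℝ := (((measureUnivNNReal (surf n)) ^ (1 : ℝ≥0∞).toReal⁻¹ : ℝ≥0) : ℝ) with hs'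
  have hs'0 : 0 ≤ s' := NNReal.coe_nonneg _
  -- the radius
  set ρ : ℝ := min (R / 2) (r / (6 * (s' + 1))) with hρdef
  have hρ : 0 < ρ := lt_min (by positivity) (by positivity)
  have hρR : ρ < R := (min_le_left _ _).trans_lt (by linarith)
  have hρr : s' * (3 * ρ) < r := by
    have h1 : ρ ≤ r / (6 * (s' + 1)) := min_le_right _ _
    rw [le_div_iff₀ (by positivity)] at h1
    nlinarith
  obtain ⟨N, hN1, hN2⟩ := exists_net n hρ hρR
  have hMq : 0 < M ^ q := Real.rpow_pos_of_pos hM _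
  set C' : ℝ := M ^ q * (N.card + 1) / (r / 2) ^ q with hC'
  have hC'0 : 0 < C' := by positivity
  obtain ⟨δ, hδ, hδδ₀, F, hFm, hF1, hF2⟩ := amplify hn hq1 hρ hΦ hW hη hC'0 hδ₀
  obtain ⟨hGm, s, hsm, hsρ, hs1⟩ := selection hρ.le hFm hδ
  have ha₀m : Measurable (a₀.1 : S n → E n) := (Lp.stronglyMeasurable a₀.1).measurable
  obtain ⟨c, hcm, hc⟩ := choose_net hρ hN2 ha₀m
  have hΦδ : 0 < Φ δ := hΦ δ hδ
  set θ : ℝ := M * Φ δ with hθ
  have hθ0 : 0 < θ := by positivity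
  -- the function
  set H : E n → ℝ≥0∞ := fun y => ENNReal.ofReal θ * ⨆ z ∈ N, F (y - z) with hH
  have hHm : Measurable H := by
    refine Measurable.const_mul ?_ _
    refine Measurable.biSup (f := fun (z : E n) y => F (y - z)) (N : Set _)
      N.countable_toSet fun z _ => ?_
    exact hFm.comp (measurable_id.sub_const z)
  have hHint : ∫⁻ y, H y ^ q ≤ ENNReal.ofReal ((r / 2) ^ q) := by
    have h1 : ∀ y, H y ^ q ≤ ENNReal.ofReal (θ ^ q) * ∑ z ∈ N, F (y - z) ^ q := by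
      intro y
      simp only [hH]
      rw [ENNReal.mul_rpow_of_nonneg _ _ hq0.le, ENNReal.ofReal_rpow_of_pos hθ0]
      gcongr
      rcases N.eq_empty_or_nonempty with hNe | hNn
      · simp [hNe, ENNReal.zero_rpow_of_pos hq0]
      · obtain ⟨z, hz, hzeq⟩ := Finset.exists_mem_eq_sup' hNn (fun z => F (y - z))
        rw [Finset.sup'_eq_sup, Finset.sup_eq_iSup] at hzeq
        rw [hzeq]
        exact Finset.single_le_sum (f := fun z : E n => F (y - z) ^ q) (fun _ _ => bot_le) hz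
    have h2 : ∫⁻ y, H y ^ q ≤ ENNReal.ofReal (θ ^ q) * (N.card * ∫⁻ y, F y ^ q) := by
      refine (lintegral_mono h1).trans ?_
      have hFz : ∀ z : E n, Measurable (fun y => F (y - z) ^ q) := fun z =>
        (hFm.comp (measurable_id.sub_const z)).pow_const q
      rw [lintegral_const_mul _ (Finset.measurable_sum _ fun z _ => hFz z),
        lintegral_finsetSum _ fun z _ => hFz z]
      have h3 : ∀ z : E n, ∫⁻ y, F (y - z) ^ q = ∫⁻ y, F y ^ q := fun z =>
        lintegral_sub_right_eq_self (fun y => F y ^ q) z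
      simp_rw [h3]
      rw [Finset.sum_const, nsmul_eq_mul]
    refine h2.trans ?_
    have h4 : ENNReal.ofReal (θ ^ q) * (N.card * ∫⁻ y, F y ^ q) ≤
        ENNReal.ofReal ((r / 2) ^ q) * (ENNReal.ofReal (C' * Φ δ ^ q) * ∫⁻ y, F y ^ q) := by
      rw [← mul_assoc, ← mul_assoc]
      refine mul_le_mul' ?_ le_rfl
      rw [← ENNReal.ofReal_natCast, ← ENNReal.ofReal_mul (by positivity),
        ← ENNReal.ofReal_mul (by positivity)]
      apply ENNReal.ofReal_le_ofReal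
      have h5 : (r / 2) ^ q * (C' * Φ δ ^ q) = M ^ q * (N.card + 1) * Φ δ ^ q := by
        rw [hC']; field_simp
      rw [h5, hθ, Real.mul_rpow hM.le hΦδ.le]
      have h6 : 0 < Φ δ ^ q := Real.rpow_pos_of_pos hΦδ _
      nlinarith [mul_pos hMq h6]
    calc _ ≤ _ := h4
      _ ≤ ENNReal.ofReal ((r / 2) ^ q) * 1 := by gcongr
      _ = _ := mul_one _
  have hHfin : ∀ᵐ y, H y < ⊤ := by
    have h1 : ∀ᵐ y, H y ^ q < ⊤ := ae_lt_top (hHm.pow_const q) (hHint.trans_lt ENNReal.ofReal_lt_top).ne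
    filter_upwards [h1] with y hy
    by_contra hcon
    rw [not_lt, top_le_iff] at hcon
    rw [hcon, ENNReal.top_rpow_of_pos hq0] at hy
    exact lt_irrefl _ hy
  have hf₀m : Measurable (f₀ : E n → ℝ) := (Lp.stronglyMeasurable f₀).measurable
  set sg : E n → ℝ := fun y => if 0 ≤ f₀ y then 1 else -1 with hsg
  have hsgm : Measurable sg := Measurable.ite (measurableSet_le measurable_const hf₀m)
    measurable_const measurable_const
  have hsgabs : ∀ y, |sg y| = 1 := by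
    intro y
    simp only [hsg]
    split_ifs <;> simp
  set u : E n → ℝ := fun y => sg y * (H y).toReal with hu
  have hum : Measurable u := hsgm.mul hHm.ennreal_toReal
  have hunorm : ∀ y, ‖u y‖ₑ ≤ H y := by
    intro y
    rw [← ofReal_norm, Real.norm_eq_abs, hu]
    simp only
    rw [abs_mul, hsgabs, one_mul, abs_of_nonneg ENNReal.toReal_nonneg]
    exact ENNReal.ofReal_toReal_le
  have heL : eLpNorm u p volume ≤ ENNReal.ofReal (r / 2) := by
    rw [eLpNorm_eq_lintegral_rpow_enorm_toReal hp0 hp]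
    calc (∫⁻ y, ‖u y‖ₑ ^ q) ^ (1 / q) ≤ (∫⁻ y, H y ^ q) ^ (1 / q) := by
          gcongr with y
          exact hunorm y
      _ ≤ (ENNReal.ofReal ((r / 2) ^ q)) ^ (1 / q) := by gcongr
      _ = ENNReal.ofReal (r / 2) := by
          rw [ENNReal.ofReal_rpow_of_pos (by positivity), ← Real.rpow_mul (by positivity),
            mul_one_div_cancel hq0.ne', Real.rpow_one]
  have huLp : MemLp u p volume := ⟨hum.aestronglyMeasurable, heL.trans_lt ENNReal.ofReal_lt_top⟩
  set f₁ : Lp ℝ p (volume : Measure (E n)) := f₀ + huLp.toLp u with hf₁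
  have hf₁dist : dist f₁ f₀ ≤ r / 2 := by
    rw [dist_eq_norm, hf₁, add_sub_cancel_left, Lp.norm_toLp]
    exact ENNReal.toReal_le_of_le_ofReal (by positivity) heL
  have hf₁H : ∀ᵐ y, H y ≤ ‖f₁ y‖ₑ := by
    filter_upwards [hHfin, Lp.coeFn_add f₀ (huLp.toLp u), huLp.coeFn_toLp] with y h1 h2 h3
    have h4 : f₁ y = f₀ y + u y := by rw [hf₁, h2, Pi.add_apply, h3]
    rw [h4, ← ofReal_norm, Real.norm_eq_abs]
    have h5 : (H y).toReal ≤ |f₀ y + u y| := by
      simp only [hu, hsg]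
      have h6 : 0 ≤ (H y).toReal := ENNReal.toReal_nonneg
      split_ifs with h
      · rw [abs_of_nonneg (by linarith)]; linarith
      · push Not at h
        rw [abs_of_nonpos (by linarith)]; linarith
    calc H y = ENNReal.ofReal (H y).toReal := (ENNReal.ofReal_toReal h1.ne).symm
      _ ≤ ENNReal.ofReal |f₀ y + u y| := ENNReal.ofReal_le_ofReal h5
  -- the family
  set b : S n → E n := fun e => c e + s e with hb
  have hbm : Measurable b := hcm.add hsm
  have ha₀R : ∀ᵐ e ∂surf n, ‖a₀.1 e‖ ≤ R := a₀.2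
  have hbR : ∀ᵐ e ∂surf n, ‖b e‖ ≤ R := by
    filter_upwards [ha₀R] with e he
    have h1 := hN1 _ (hc e he).1
    have h2 := hsρ e
    calc ‖c e + s e‖ ≤ ‖c e‖ + ‖s e‖ := norm_add_le _ _
      _ ≤ R := by linarith
  have hbLp : MemLp b 1 (surf n) := MemLp.of_bound hbm.aestronglyMeasurable R hbR
  have hbLpR : ∀ᵐ e ∂surf n, ‖hbLp.toLp b e‖ ≤ R := by
    filter_upwards [hbR, hbLp.coeFn_toLp] with e h1 h2
    rw [h2]; exact h1
  set a₁ : Fam n R := ⟨hbLp.toLp b, hbLpR⟩ with ha₁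
  have ha₁dist : dist a₁ a₀ < r := by
    rw [Subtype.dist_eq, dist_eq_norm]
    refine lt_of_le_of_lt (Lp.norm_le_of_ae_bound (C := 3 * ρ) (by positivity) ?_) hρr
    filter_upwards [ha₀R, hbLp.coeFn_toLp, Lp.coeFn_sub (hbLp.toLp b) a₀.1] with e h1 h2 h3
    rw [h3, Pi.sub_apply, h2]
    have h4 := (hc e h1).2
    have h5 : b e - a₀.1 e = s e - (a₀.1 e - c e) := by
      simp only [hb]; abel
    rw [h5]
    refine (norm_sub_le _ _).trans ?_
    have := hsρ e
    linarith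
  refine ⟨(a₁, f₁), ?_, δ, hδ, hδδ₀, ?_⟩
  · rw [mem_ball, Prod.dist_eq]
    exact max_lt ha₁dist (hf₁dist.trans_lt (by linarith))
  · refine le_trans ?_ hF2
    have hae : ∀ᵐ e ∂surf n, e ∈ ({e | ENNReal.ofReal (M * Φ δ) < tubeAv a₁.1 f₁ δ e}ᶜ : Set (S n)) →
        e ∈ ((G ρ F δ)ᶜ : Set (S n)) := by
      filter_upwards [ha₀R, hbLp.coeFn_toLp] with e h1 h2 h3 h4
      apply h3
      have h5 : (a₁.1 : S n → E n) e = c e + s e := h2
      have h6 := hs1 e h4
      show ENNReal.ofReal (M * Φ δ) < tubeAv a₁.1 f₁ δ e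
      unfold tubeAv
      rw [h5]
      have h7 : av H δ (c e + s e) e ≤ av (fun y => ‖f₁ y‖ₑ) δ (c e + s e) e := av_mono hf₁H _ _ _
      refine lt_of_lt_of_le ?_ h7
      have h8 : av (fun y => ENNReal.ofReal θ * F (y - c e)) δ (c e + s e) e ≤
          av H δ (c e + s e) e := by
        refine av_mono (Eventually.of_forall fun y => ?_) _ _ _
        simp only [hH]
        gcongr
        exact le_iSup₂ (f := fun (z : E n) (_ : z ∈ N) => F (y - z)) (c e) (hc e h1).1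
      refine lt_of_lt_of_le ?_ h8
      have hFc : AEMeasurable (fun y => F (y - c e)) volume :=
        (hFm.comp (measurable_id.sub_const (c e))).aemeasurable
      rw [av_const_mul hFc, add_comm (c e) (s e), av_translate]
      simp only [add_sub_cancel_right]
      calc ENNReal.ofReal θ = ENNReal.ofReal θ * 1 := (mul_one _).symm
        _ < ENNReal.ofReal θ * av F δ (s e) e :=
          ENNReal.mul_lt_mul_right (ENNReal.ofReal_pos.2 hθ0).ne' ENNReal.ofReal_ne_top h6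
    exact ENNReal.toReal_mono (measure_ne_top _ _) (measure_mono_ae hae)

/-- **Dichotomy.** -/
theorem dichotomy (hn : 1 ≤ n) (hp : p ≠ ⊤) (hR : 0 < R) {Φ : ℝ → ℝ}
    (hΦ : ∀ δ, 0 < δ → 0 < Φ δ) :
    WeakType n p.toReal Φ ∨
    ∀ᶠ x : Fam n R × Lp ℝ p (volume : Measure (E n)) in
      residual (Fam n R × Lp ℝ p (volume : Measure (E n))),
      ∀ᵐ e ∂surf n, ∀ M : ℕ, ∃ᶠ δ in 𝓝[>] 0, ENNReal.ofReal (M * Φ δ) < tubeAv x.1.1 x.2 δ e := by
  by_cases hW : WeakType n p.toReal Φ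
  · exact Or.inl hW
  right
  set s : ℝ := (surf n).real univ with hs
  have hAm : ∀ (z : Fam n R × Lp ℝ p (volume : Measure (E n))) (δ : ℝ) (c : ℝ≥0∞),
      MeasurableSet {e | c < tubeAv z.1.1 z.2 δ e} := fun z δ c =>
    measurableSet_lt measurable_const (meas_tubeAv (Lp.stronglyMeasurable z.1.1).measurable
      (Lp.stronglyMeasurable z.2).measurable δ)
  have key : ∀ j : ℕ, ∀ᶠ x : Fam n R × Lp ℝ p (volume : Measure (E n)) in
      residual (Fam n R × Lp ℝ p (volume : Measure (E n))), ∃ δ : ℝ, 0 < δ ∧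
        δ < 1 / ((j : ℝ) + 1) ∧ s - 1 / ((j : ℝ) + 1) <
        (surf n).real {e | ENNReal.ofReal (((j : ℝ) + 1) * Φ δ) < tubeAv x.1.1 x.2 δ e} := by
    intro j
    refine residual_of_dense_open ?_ ?_
    · have : {x : Fam n R × Lp ℝ p (volume : Measure (E n)) | ∃ δ : ℝ, 0 < δ ∧
          δ < 1 / ((j : ℝ) + 1) ∧ s - 1 / ((j : ℝ) + 1) <
          (surf n).real {e | ENNReal.ofReal (((j : ℝ) + 1) * Φ δ) < tubeAv x.1.1 x.2 δ e}} =
          ⋃ δ : ℝ, ⋃ (_ : 0 < δ), ⋃ (_ : δ < 1 / ((j : ℝ) + 1)),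
          {x : Fam n R × Lp ℝ p (volume : Measure (E n)) | s - 1 / ((j : ℝ) + 1) <
          (surf n).real {e | ENNReal.ofReal (((j : ℝ) + 1) * Φ δ) < tubeAv x.1.1 x.2 δ e}} := by
        ext x; simp only [mem_iUnion, Set.mem_ofPred_eq, exists_prop]
      rw [this]
      exact isOpen_iUnion fun δ => isOpen_iUnion fun hδ => isOpen_iUnion fun _ => isOpen_good hδ _ _
    · rw [Metric.dense_iff]
      intro x₀ r hr
      obtain ⟨x, hx, δ, hδ, hδ1, hm⟩ := dense_step hn hp hR hΦ hW x₀ hr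
        (show (0 : ℝ) < (j : ℝ) + 1 by positivity)
        (show (0 : ℝ) < 1 / (2 * ((j : ℝ) + 1)) by positivity)
        (show (0 : ℝ) < 1 / ((j : ℝ) + 1) by positivity)
      refine ⟨x, hx, δ, hδ, hδ1, ?_⟩
      rw [measureReal_compl (hAm x _ _)] at hm
      have h1 : (1 : ℝ) / (2 * ((j : ℝ) + 1)) < 1 / ((j : ℝ) + 1) := by
        apply one_div_lt_one_div_of_lt (by positivity)
        linarith [show (0 : ℝ) < (j : ℝ) + 1 by positivity]
      linarith
  filter_upwards [eventually_countable_forall.2 key] with x hx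
  choose δ hδ hδ1 hm using hx
  set bad : ℕ → Set (S n) := fun j =>
    {e | ENNReal.ofReal (((j : ℝ) + 1) * Φ (δ j)) < tubeAv x.1.1 x.2 (δ j) e}ᶜ with hbad
  have hbadm : ∀ j, (surf n).real (bad j) ≤ 1 / ((j : ℝ) + 1) := by
    intro j
    simp only [hbad]
    rw [measureReal_compl (hAm x _ _)]
    have := hm j
    linarith
  have hnull : ∀ m : ℕ, surf n (⋂ j ≥ m, bad j) = 0 := by
    intro m
    rw [← measureReal_eq_zero_iff]
    refine le_antisymm ?_ measureReal_nonneg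
    refine le_of_forall_pos_le_add fun ε hε => ?_
    obtain ⟨j, hj⟩ := exists_nat_one_div_lt hε
    have h1 : (surf n).real (⋂ j ≥ m, bad j) ≤ (surf n).real (bad (max j m)) :=
      measureReal_mono (iInter₂_subset (max j m) (le_max_right _ _))
    have h2 := hbadm (max j m)
    have h3 : (1 : ℝ) / (((max j m : ℕ) : ℝ) + 1) ≤ 1 / ((j : ℝ) + 1) := by
      apply one_div_le_one_div_of_le (by positivity)
      have : (j : ℝ) ≤ ((max j m : ℕ) : ℝ) := by exact_mod_cast le_max_left _ _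
      linarith
    linarith
  have hnull2 : surf n (⋃ m, ⋂ j ≥ m, bad j) = 0 := measure_iUnion_null hnull
  rw [← compl_mem_ae_iff] at hnull2
  filter_upwards [hnull2] with e he M
  rw [mem_compl_iff, mem_iUnion] at he
  push Not at he
  intro hcon
  rw [eventually_nhdsWithin_iff, Metric.eventually_nhds_iff] at hcon
  obtain ⟨δ₁, hδ₁, hcon⟩ := hcon
  obtain ⟨m₁, hm₁⟩ := exists_nat_one_div_lt hδ₁
  have h1 := he (max M m₁)
  simp only [mem_iInter, not_forall] at h1
  obtain ⟨j, hj, hjb⟩ := h1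
  simp only [hbad, mem_compl_iff, not_not, Set.mem_ofPred_eq] at hjb
  have h2 : δ j < δ₁ := by
    refine (hδ1 j).trans (lt_of_le_of_lt ?_ hm₁)
    apply one_div_le_one_div_of_le (by positivity)
    have : (m₁ : ℝ) ≤ j := by exact_mod_cast (le_max_right _ _).trans hj
    linarith
  refine hcon (y := δ j) (by rw [Real.dist_eq, sub_zero, abs_of_pos (hδ j)]; exact h2) (hδ j) ?_
  refine lt_of_le_of_lt (ENNReal.ofReal_le_ofReal ?_) hjb
  have h3 : (M : ℝ) ≤ j := by exact_mod_cast (le_max_left _ _).trans hj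
  have h4 := hΦ _ (hδ j)
  nlinarith

end

end Pool.Agent.Q93.KF
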