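import Pool.Agent.Q93.KF6

open MeasureTheory Set Metric Filter Topology
open scoped ENNReal NNReal

namespace Pool.Agent.Q93.KF

variable {n : ℕ}

lemma maxf_congr {f f' : E n → ℝ} (h : f =ᵐ[volume] f') (δ : ℝ) (e : E n) :
    maxf f δ e = maxf f' δ e := by
  unfold maxf
  refine iSup_congr fun b => av_congr ?_ _ _ _
  filter_upwards [h] with y hy
  rw [hy]

lemma meas_maxf {f : E n → ℝ} (hf : Measurable f) {δ : ℝ} (hδ : 0 < δ) :
    Measurable (fun e : S n => maxf f δ e) := by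
  have h0 : ∀ e : S n, maxf f δ e = ⨆ m, av (fun y => ‖f y‖ₑ) δ (TopologicalSpace.denseSeq (E n) m) e := by
    intro e
    refine le_antisymm ?_ ?_
    · refine iSup_le fun b => ?_
      obtain ⟨x, hx, hlim⟩ := mem_closure_iff_seq_limit.1
        (TopologicalSpace.denseRange_denseSeq (E n) b)
      choose φ hφ using hx
      have h2 := fatou (g := fun y => ‖f y‖ₑ) (gs := fun _ => fun y => ‖f y‖ₑ)
        (fun _ => hf.enorm.aemeasurable) (Eventually.of_forall fun y => by simp) hδ hlim (e : E n)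
      refine h2.trans ?_
      refine liminf_le_of_le (by isBoundedDefault) fun c hc => ?_
      obtain ⟨i, hi⟩ := hc.exists
      refine hi.trans ?_
      rw [← hφ i]
      exact le_iSup (fun m => av (fun y => ‖f y‖ₑ) δ (TopologicalSpace.denseSeq (E n) m) e) (φ i)
    · exact iSup_le fun m => le_iSup (fun b => av (fun y => ‖f y‖ₑ) δ b (e : E n)) _
  simp_rw [h0]
  exact Measurable.iSup fun m => meas_av measurable_const hf.enorm δ

/-- Jensen's inequality. -/
lemma av_rpow_le {p : ℝ} (hp : 1 ≤ p) {g : E n → ℝ≥0∞} (hg : AEMeasurable g volume) {δ : ℝ}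
    (hδ : 0 < δ) (b : E n) (e : S n) :
    av g δ b e ^ p ≤ (volume (ball (0 : E n) (min δ (1 / 2))))⁻¹ * ∫⁻ y, g y ^ p := by
  have hp0 : 0 < p := by linarith
  have he : ‖(e : E n)‖ = 1 := by simp
  have hv0 := vol_tube_ne_zero hδ he b
  have hvT := vol_tube_ne_top (δ := δ) he b
  set v := volume (tube δ b (e : E n)) with hv
  have h1 : ∫⁻ y in tube δ b e, g y ≤ (∫⁻ y in tube δ b e, g y ^ p) ^ (1 / p) * v ^ (1 - 1 / p) := by
    rcases eq_or_lt_of_le hp with h | h
    · subst h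
      simp
    · have hpq : p.HolderConjugate (p / (p - 1)) := Real.HolderConjugate.conjExponent h
      have h2 := ENNReal.lintegral_mul_le_Lp_mul_Lq (volume.restrict (tube δ b (e : E n))) hpq
        (f := g) (g := fun _ => 1) hg.restrict aemeasurable_const
      simp only [Pi.mul_apply, mul_one, ENNReal.one_rpow, lintegral_const,
        Measure.restrict_apply_univ, one_mul] at h2
      refine h2.trans (le_of_eq ?_)
      congr 2
      field_simp
  have h3 : av g δ b e ≤ (v⁻¹ * ∫⁻ y in tube δ b e, g y ^ p) ^ (1 / p) := by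
    unfold av
    rw [← hv]
    calc v⁻¹ * ∫⁻ y in tube δ b e, g y
        ≤ v⁻¹ * ((∫⁻ y in tube δ b e, g y ^ p) ^ (1 / p) * v ^ (1 - 1 / p)) := by gcongr
      _ = (v⁻¹ * ∫⁻ y in tube δ b e, g y ^ p) ^ (1 / p) := by
        rw [ENNReal.mul_rpow_of_nonneg _ _ (by positivity), ENNReal.inv_rpow, ← ENNReal.rpow_neg]
        have h4 : v⁻¹ * v ^ (1 - 1 / p) = v ^ (-(1 / p)) := by
          rw [← ENNReal.rpow_neg_one, ← ENNReal.rpow_add _ _ hv0 hvT]
          congr 1; ring
        rw [← h4]; ring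
  calc av g δ b e ^ p ≤ ((v⁻¹ * ∫⁻ y in tube δ b e, g y ^ p) ^ (1 / p)) ^ p := by gcongr
    _ = v⁻¹ * ∫⁻ y in tube δ b e, g y ^ p := by
      rw [← ENNReal.rpow_mul, one_div_mul_cancel hp0.ne', ENNReal.rpow_one]
    _ ≤ (volume (ball (0 : E n) (min δ (1 / 2))))⁻¹ * ∫⁻ y, g y ^ p := by
      gcongr
      · exact vol_tube_pos he b
      · exact Measure.restrict_le_self

lemma maxf_rpow_le {p : ℝ} (hp : 1 ≤ p) {f : E n → ℝ} (hf : AEMeasurable f volume) {δ : ℝ}
    (hδ : 0 < δ) (e : S n) :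
    maxf f δ e ^ p ≤ (volume (ball (0 : E n) (min δ (1 / 2))))⁻¹ * ∫⁻ y, ‖f y‖ₑ ^ p := by
  have hp0 : 0 < p := by linarith
  unfold maxf
  rw [← ENNReal.le_rpow_inv_iff hp0]
  refine iSup_le fun b => ?_
  rw [ENNReal.le_rpow_inv_iff hp0]
  exact av_rpow_le hp hf.enorm hδ b e

/-- Dyadic decomposition. -/
lemma dyadic {p : ℝ} (hp : 0 < p) (J : ℕ) (x : ℝ≥0∞) (hx : x ≤ 2 ^ J) :
    x ^ p ≤ 1 + ∑ j ∈ Finset.range J, ENNReal.ofReal (2 ^ (((j : ℝ) + 1) * p)) *
      (if (2 : ℝ≥0∞) ^ j < x then 1 else 0) := by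
  induction J with
  | zero =>
    simp only [pow_zero] at hx
    simp only [Finset.range_zero, Finset.sum_empty, add_zero]
    exact ENNReal.rpow_le_one hx hp.le
  | succ J ih =>
    rw [Finset.sum_range_succ]
    rcases le_or_gt x (2 ^ J) with h | h
    · exact (ih h).trans (by gcongr; exact le_self_add)
    · rw [if_pos h, mul_one]
      have h1 : x ^ p ≤ ENNReal.ofReal (2 ^ (((J : ℝ) + 1) * p)) := by
        calc x ^ p ≤ ((2 : ℝ≥0∞) ^ (J + 1)) ^ p := by gcongr
          _ = ENNReal.ofReal (2 ^ (((J : ℝ) + 1) * p)) := by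
            rw [← ENNReal.rpow_natCast, ← ENNReal.rpow_mul,
              ← ENNReal.ofReal_rpow_of_pos (by norm_num)]
            simp
      refine h1.trans ?_
      rw [← add_assoc]
      exact le_add_self

end Pool.Agent.Q93.KF
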