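import Pool.Agent.Q93.KF7

open MeasureTheory Set Metric Filter Topology
open scoped ENNReal NNReal

namespace Pool.Agent.Q93.KF

variable {n : ℕ}

lemma log_bound {W s : ℝ} (hW : 1 ≤ W) (hs : 0 < s) (m : ℕ) : ∃ C : ℝ, 0 < C ∧ ∀ δ : ℝ, 0 < δ →
    δ < 1 → ∀ J : ℕ, (J : ℝ) ≤ Real.logb 2 (W * δ ^ (-(m : ℝ))) + 1 → (J : ℝ) + 1 ≤ C * δ ^ (-s) := by
  have hlog2 : 0 < Real.log 2 := Real.log_pos (by norm_num)
  refine ⟨Real.log W / Real.log 2 + m / (s * Real.log 2) + 2, by
    have := Real.log_nonneg hW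
    positivity, fun δ hδ hδ1 J hJ => ?_⟩
  have h1 : (1 : ℝ) ≤ δ ^ (-s) := by
    rw [Real.rpow_neg hδ.le]
    exact (one_le_inv₀ (Real.rpow_pos_of_pos hδ s)).2 (Real.rpow_le_one hδ.le hδ1.le hs.le)
  have h2 : Real.log (1 / δ) ≤ δ ^ (-s) / s := by
    have := Real.log_le_rpow_div (x := 1 / δ) (by positivity) hs
    rw [one_div, Real.inv_rpow hδ.le, ← Real.rpow_neg hδ.le] at this
    rw [one_div]; exact this
  have h3 : Real.logb 2 (W * δ ^ (-(m : ℝ))) = Real.log W / Real.log 2 +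
      m * Real.log (1 / δ) / Real.log 2 := by
    rw [Real.logb, Real.log_mul (by positivity) (Real.rpow_pos_of_pos hδ _).ne',
      Real.log_rpow hδ, one_div, Real.log_inv, add_div]
    ring
  rw [h3] at hJ
  have h4 : m * Real.log (1 / δ) / Real.log 2 ≤ m / (s * Real.log 2) * δ ^ (-s) := by
    calc m * Real.log (1 / δ) / Real.log 2 ≤ m * (δ ^ (-s) / s) / Real.log 2 := by gcongr
      _ = m / (s * Real.log 2) * δ ^ (-s) := by field_simp
  have h5 : 0 ≤ Real.log W / Real.log 2 := by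
    have := Real.log_nonneg hW
    positivity
  nlinarith

lemma vol_ball {δ : ℝ} (h : 0 < δ) :
    volume (ball (0 : E n) δ) = ENNReal.ofReal (δ ^ n) * volume (ball (0 : E n) 1) := by
  have := Measure.addHaar_ball_mul_of_pos (volume : Measure (E n)) 0 h 1
  rw [mul_one, finrank_euclideanSpace, Fintype.card_fin] at this
  exact this

/-- The strong type estimate with the rate `δ^(-κ)`, for all `0 < δ < 1`:
`‖f^*_δ‖_p^p ≤ (C δ^(-κ))^p ‖f‖_p^p`. -/
def Strong (n : ℕ) (p κ : ℝ) : Prop :=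
  ∃ C : ℝ, 0 < C ∧ ∀ δ : ℝ, 0 < δ → δ < 1 → ∀ f : E n → ℝ, AEMeasurable f volume →
    ∫⁻ e, maxf f δ e ^ p ∂surf n ≤ ENNReal.ofReal ((C * δ ^ (-κ)) ^ p) * ∫⁻ y, ‖f y‖ₑ ^ p

theorem weak_strong (hn : 1 ≤ n) {p κ ε : ℝ} (hp : 1 ≤ p) (hκ : 0 ≤ κ) (hε : 0 < ε)
    (h : WeakType n p (fun δ => δ ^ (-κ))) : Strong n p (κ + ε) := by
  have hp0 : 0 < p := by linarith
  obtain ⟨C₀, δ₀, hδ₀, hweak⟩ := h
  set C : ℝ := max C₀ 1 with hC
  have hC1 : 1 ≤ C := le_max_right _ _
  set δ₁ : ℝ := min δ₀ (1 / 2) with hδ₁def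
  have hδ₁ : 0 < δ₁ := lt_min hδ₀ (by norm_num)
  set V : ℝ := (volume (ball (0 : E n) 1)).toReal with hV
  have hVfin : volume (ball (0 : E n) 1) ≠ ⊤ := measure_ball_lt_top.ne
  have hVpos' : 0 < volume (ball (0 : E n) 1) := measure_ball_pos _ _ one_pos
  have hVpos : 0 < V := ENNReal.toReal_pos hVpos'.ne' hVfin
  set W : ℝ := max (1 / V) 1 with hW
  have hW1 : 1 ≤ W := le_max_right _ _
  obtain ⟨C₁, hC₁, hJb⟩ := log_bound hW1 (show 0 < ε * p by positivity) n
  set s : ℝ := (surf n).real univ with hs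
  have hs0 : 0 ≤ s := measureReal_nonneg
  have hsE : surf n univ = ENNReal.ofReal s := by
    rw [hs, measureReal_def, ENNReal.ofReal_toReal (measure_ne_top _ _)]
  set A₁ : ℝ := (s + 2 ^ p * C) * C₁ with hA₁
  have hA₁0 : 0 < A₁ := by positivity
  set vb : ℝ := (volume (ball (0 : E n) (min δ₁ (1 / 2)))).toReal with hvb
  have hvbpos : 0 < vb := ENNReal.toReal_pos
    (measure_ball_pos _ _ (lt_min hδ₁ (by norm_num))).ne' measure_ball_lt_top.ne
  have hvbE : volume (ball (0 : E n) (min δ₁ (1 / 2))) = ENNReal.ofReal vb := by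
    rw [hvb, ENNReal.ofReal_toReal measure_ball_lt_top.ne]
  set A₂ : ℝ := s * vb⁻¹ with hA₂
  have hA₂0 : 0 ≤ A₂ := by positivity
  -- it is enough to have the estimate with a constant outside
  have hmain : ∃ A : ℝ, 0 < A ∧ ∀ δ : ℝ, 0 < δ → δ < 1 → ∀ f : E n → ℝ, Measurable f →
      ∫⁻ e, maxf f δ e ^ p ∂surf n ≤ ENNReal.ofReal (A * δ ^ (-((κ + ε) * p))) *
        ∫⁻ y, ‖f y‖ₑ ^ p := by
    refine ⟨A₁ + A₂, by positivity, fun δ hδ hδ1 f hf => ?_⟩
    have hδpow : (1 : ℝ) ≤ δ ^ (-((κ + ε) * p)) := by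
      rw [Real.rpow_neg hδ.le]
      exact (one_le_inv₀ (Real.rpow_pos_of_pos hδ _)).2
        (Real.rpow_le_one hδ.le hδ1.le (by positivity))
    set Nf : ℝ≥0∞ := ∫⁻ y, ‖f y‖ₑ ^ p with hNf
    rcases lt_or_ge δ δ₁ with hlt | hge
    · have hδ12 : δ < 1 / 2 := hlt.trans_le (min_le_right _ _)
      have hδδ₀ : δ < δ₀ := hlt.trans_le (min_le_left _ _)
      have hvδ : volume (ball (0 : E n) (min δ (1 / 2))) = ENNReal.ofReal (δ ^ n * V) := by
        rw [min_eq_left hδ12.le, vol_ball hδ, ENNReal.ofReal_mul (by positivity), hV,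
          ENNReal.ofReal_toReal hVfin]
      have hcrude := fun e : S n => maxf_rpow_le hp hf.aemeasurable hδ e
      rw [hvδ, ← hNf] at hcrude
      rcases eq_or_ne Nf 0 with hN0 | hN0
      · have h0 : ∀ e : S n, maxf f δ e ^ p = 0 := by
          intro e
          have := hcrude e
          rw [hN0, mul_zero] at this
          exact le_antisymm this bot_le
        simp_rw [h0]
        simp
      rcases eq_or_ne Nf ⊤ with hNT | hNT
      · rw [hNT, ENNReal.mul_top (ENNReal.ofReal_pos.2 (by positivity)).ne']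
        exact le_top
      set t₀ : ℝ := Nf.toReal ^ (1 / p) with ht₀
      have hNr : 0 < Nf.toReal := ENNReal.toReal_pos hN0 hNT
      have ht₀pos : 0 < t₀ := Real.rpow_pos_of_pos hNr _
      have ht₀p : t₀ ^ p = Nf.toReal := by
        rw [ht₀, ← Real.rpow_mul hNr.le, one_div_mul_cancel hp0.ne', Real.rpow_one]
      have hT₀p : ENNReal.ofReal t₀ ^ p = Nf := by
        rw [ENNReal.ofReal_rpow_of_pos ht₀pos, ht₀p, ENNReal.ofReal_toReal hNT]
      have hT0 : ENNReal.ofReal t₀ ≠ 0 := (ENNReal.ofReal_pos.2 ht₀pos).ne'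
      have hTT : ENNReal.ofReal t₀ ≠ ⊤ := ENNReal.ofReal_ne_top
      set x : S n → ℝ≥0∞ := fun e => (ENNReal.ofReal t₀)⁻¹ * maxf f δ e with hx
      have hxm : Measurable x := (meas_maxf hf hδ).const_mul _
      have hxp : ∀ e, x e ^ p ≤ (ENNReal.ofReal (δ ^ n * V))⁻¹ := by
        intro e
        simp only [hx]
        rw [ENNReal.mul_rpow_of_nonneg _ _ hp0.le, ENNReal.inv_rpow, hT₀p]
        calc Nf⁻¹ * maxf f δ e ^ p ≤ Nf⁻¹ * ((ENNReal.ofReal (δ ^ n * V))⁻¹ * Nf) := by
              gcongr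
              exact hcrude e
          _ = (ENNReal.ofReal (δ ^ n * V))⁻¹ * (Nf * Nf⁻¹) := by ring
          _ = _ := by rw [ENNReal.mul_inv_cancel hN0 hNT, mul_one]
      -- number of dyadic scales
      set w : ℝ := W * δ ^ (-(n : ℝ)) with hw
      have hδn : (1 : ℝ) ≤ δ ^ (-(n : ℝ)) := by
        rw [Real.rpow_neg hδ.le]
        exact (one_le_inv₀ (Real.rpow_pos_of_pos hδ _)).2
          (Real.rpow_le_one hδ.le hδ1.le (by positivity))
      have hw1 : 1 ≤ w := by nlinarith
      set J : ℕ := ⌈Real.logb 2 w⌉₊ with hJ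
      have hJ1 : (J : ℝ) ≤ Real.logb 2 w + 1 :=
        (Nat.ceil_lt_add_one (Real.logb_nonneg (by norm_num) hw1)).le
      have hJ2 : w ≤ 2 ^ J := by
        have h1 : Real.logb 2 w ≤ J := Nat.le_ceil _
        rw [Real.logb_le_iff_le_rpow (by norm_num) (by positivity), Real.rpow_natCast] at h1
        exact h1
      have hxJ : ∀ e, x e ≤ 2 ^ J := by
        intro e
        by_contra hcon
        rw [not_le] at hcon
        have h1 : (2 : ℝ≥0∞) ^ J < x e ^ p := by
          have h2 : (1 : ℝ≥0∞) ≤ x e := by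
            refine le_trans ?_ hcon.le
            exact one_le_pow₀ (by norm_num)
          calc (2 : ℝ≥0∞) ^ J < x e := hcon
            _ = x e ^ (1 : ℝ) := (ENNReal.rpow_one _).symm
            _ ≤ x e ^ p := ENNReal.rpow_le_rpow_of_exponent_le h2 hp
        have h3 := h1.trans_le (hxp e)
        have h4 : (ENNReal.ofReal (δ ^ n * V))⁻¹ ≤ ENNReal.ofReal w := by
          rw [← ENNReal.ofReal_inv_of_pos (by positivity)]
          apply ENNReal.ofReal_le_ofReal
          rw [mul_inv, hw, mul_comm]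
          have h5 : V⁻¹ ≤ W := by rw [← one_div]; exact le_max_left _ _
          have h6 : (δ ^ n)⁻¹ = δ ^ (-(n : ℝ)) := by
            rw [Real.rpow_neg hδ.le, Real.rpow_natCast]
          rw [h6]
          gcongr
        have h5 : ENNReal.ofReal w ≤ (2 : ℝ≥0∞) ^ J := by
          calc ENNReal.ofReal w ≤ ENNReal.ofReal (2 ^ J) := ENNReal.ofReal_le_ofReal hJ2
            _ = 2 ^ J := by rw [ENNReal.ofReal_pow (by norm_num)]; simp
        exact absurd (h3.trans_le (h4.trans h5)) (lt_irrefl _)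
      set Φp : ℝ := (δ ^ (-κ)) ^ p with hΦp
      have hΦp1 : 1 ≤ Φp := by
        rw [hΦp]
        apply Real.one_le_rpow _ hp0.le
        rw [Real.rpow_neg hδ.le]
        exact (one_le_inv₀ (Real.rpow_pos_of_pos hδ _)).2 (Real.rpow_le_one hδ.le hδ1.le hκ)
      have hlevel : ∀ j : ℕ, ENNReal.ofReal (2 ^ (((j : ℝ) + 1) * p)) *
          surf n {e | (2 : ℝ≥0∞) ^ j < x e} ≤ ENNReal.ofReal (2 ^ p * (C * Φp)) := by
        intro j
        have h1 : {e : S n | (2 : ℝ≥0∞) ^ j < x e} =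
            {e : S n | ENNReal.ofReal (2 ^ j * t₀) < maxf f δ e} := by
          ext e
          simp only [Set.mem_ofPred_eq, hx]
          rw [mul_comm (ENNReal.ofReal t₀)⁻¹, ← div_eq_mul_inv,
            ENNReal.lt_div_iff_mul_lt (Or.inl hT0) (Or.inl hTT),
            ENNReal.ofReal_mul (by positivity), ENNReal.ofReal_pow (by norm_num)]
          simp
        rw [h1]
        have h2 := hweak δ hδ hδδ₀ f hf.aemeasurable (2 ^ j * t₀) (by positivity)
        set Sj := surf n {e : S n | ENNReal.ofReal (2 ^ j * t₀) < maxf f δ e} with hSj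
        have h3 : ENNReal.ofReal (C₀ * (fun δ : ℝ => δ ^ (-κ)) δ ^ p) ≤ ENNReal.ofReal (C * Φp) := by
          apply ENNReal.ofReal_le_ofReal
          show C₀ * (δ ^ (-κ)) ^ p ≤ C * Φp
          have : C₀ ≤ C := le_max_left _ _
          rw [hΦp]
          gcongr
        have h4 : ENNReal.ofReal ((2 ^ j * t₀) ^ p) = ENNReal.ofReal (2 ^ ((j : ℝ) * p)) * Nf := by
          rw [Real.mul_rpow (by positivity) ht₀pos.le, ENNReal.ofReal_mul (by positivity), ht₀p,
            ENNReal.ofReal_toReal hNT]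
          congr 2
          rw [← Real.rpow_natCast, ← Real.rpow_mul (by norm_num)]
        rw [h4, ← hNf] at h2
        have h5 : (ENNReal.ofReal (2 ^ ((j : ℝ) * p)) * Sj) * Nf ≤ ENNReal.ofReal (C * Φp) * Nf := by
          calc (ENNReal.ofReal (2 ^ ((j : ℝ) * p)) * Sj) * Nf
              = ENNReal.ofReal (2 ^ ((j : ℝ) * p)) * Nf * Sj := by ring
            _ ≤ _ := h2
            _ ≤ _ := by gcongr
        have h6 : ENNReal.ofReal (2 ^ ((j : ℝ) * p)) * Sj ≤ ENNReal.ofReal (C * Φp) :=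
          (ENNReal.mul_le_mul_iff_left hN0 hNT).1 h5
        calc ENNReal.ofReal (2 ^ (((j : ℝ) + 1) * p)) * Sj
            = ENNReal.ofReal (2 ^ p) * (ENNReal.ofReal (2 ^ ((j : ℝ) * p)) * Sj) := by
              rw [← mul_assoc, ← ENNReal.ofReal_mul (by positivity), ← Real.rpow_add (by norm_num)]
              congr 3; ring
          _ ≤ ENNReal.ofReal (2 ^ p) * ENNReal.ofReal (C * Φp) := by gcongr
          _ = ENNReal.ofReal (2 ^ p * (C * Φp)) := (ENNReal.ofReal_mul (by positivity)).symm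
      have hxint : ∫⁻ e, x e ^ p ∂surf n ≤ ENNReal.ofReal (s + J * (2 ^ p * (C * Φp))) := by
        have hset : ∀ j : ℕ, MeasurableSet {e : S n | (2 : ℝ≥0∞) ^ j < x e} := fun j =>
          measurableSet_lt measurable_const hxm
        have hite : ∀ j : ℕ, Measurable (fun e => if (2 : ℝ≥0∞) ^ j < x e then (1 : ℝ≥0∞) else 0) :=
          fun j => Measurable.ite (hset j) measurable_const measurable_const
        calc ∫⁻ e, x e ^ p ∂surf n
            ≤ ∫⁻ e, (1 + ∑ j ∈ Finset.range J, ENNReal.ofReal (2 ^ (((j : ℝ) + 1) * p)) *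
                (if (2 : ℝ≥0∞) ^ j < x e then 1 else 0)) ∂surf n :=
              lintegral_mono fun e => dyadic hp0 J (x e) (hxJ e)
          _ = surf n univ + ∑ j ∈ Finset.range J, ENNReal.ofReal (2 ^ (((j : ℝ) + 1) * p)) *
                surf n {e | (2 : ℝ≥0∞) ^ j < x e} := by
              rw [lintegral_add_left measurable_const, lintegral_const, one_mul,
                lintegral_finsetSum _ fun j _ => (hite j).const_mul _]
              congr 1
              refine Finset.sum_congr rfl fun j _ => ?_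
              rw [lintegral_const_mul _ (hite j)]
              congr 1
              rw [← lintegral_indicator_one (hset j)]
              refine lintegral_congr fun e => ?_
              by_cases he : (2 : ℝ≥0∞) ^ j < x e
              · rw [if_pos he, indicator_of_mem (by exact he)]; rfl
              · rw [if_neg he, indicator_of_notMem (by exact he)]
          _ ≤ ENNReal.ofReal s + ∑ _j ∈ Finset.range J, ENNReal.ofReal (2 ^ p * (C * Φp)) := by
              rw [hsE]
              gcongr with j hj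
              exact hlevel j
          _ = ENNReal.ofReal (s + J * (2 ^ p * (C * Φp))) := by
              rw [Finset.sum_const, Finset.card_range, nsmul_eq_mul,
                ENNReal.ofReal_add hs0 (by positivity),
                ENNReal.ofReal_mul (p := (J : ℝ)) (Nat.cast_nonneg J), ENNReal.ofReal_natCast]
      have hback : ∫⁻ e, maxf f δ e ^ p ∂surf n = Nf * ∫⁻ e, x e ^ p ∂surf n := by
        rw [← lintegral_const_mul _ (hxm.pow_const p)]
        refine lintegral_congr fun e => ?_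
        simp only [hx]
        rw [ENNReal.mul_rpow_of_nonneg _ _ hp0.le, ENNReal.inv_rpow, hT₀p, ← mul_assoc,
          ENNReal.mul_inv_cancel hN0 hNT, one_mul]
      rw [hback, mul_comm]
      gcongr
      refine hxint.trans (ENNReal.ofReal_le_ofReal ?_)
      have h1 := hJb δ hδ hδ1 J (by rw [← hw]; exact hJ1)
      have h2 : δ ^ (-((κ + ε) * p)) = Φp * δ ^ (-(ε * p)) := by
        rw [hΦp, ← Real.rpow_mul hδ.le, ← Real.rpow_add hδ]
        congr 1; ring
      have h3 : 0 < δ ^ (-(ε * p)) := Real.rpow_pos_of_pos hδ _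
      calc s + J * (2 ^ p * (C * Φp)) ≤ (s + 2 ^ p * C) * (J + 1) * Φp := by
            have h4 : 0 < (2 : ℝ) ^ p * C := by positivity
            have h5 : s ≤ s * Φp := by nlinarith
            have h6 : 0 ≤ s * (J : ℝ) * Φp := by positivity
            nlinarith
        _ ≤ (s + 2 ^ p * C) * (C₁ * δ ^ (-(ε * p))) * Φp := by gcongr
        _ = A₁ * (Φp * δ ^ (-(ε * p))) := by rw [hA₁]; ring
        _ ≤ (A₁ + A₂) * δ ^ (-((κ + ε) * p)) := by
            rw [h2]
            gcongr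
            linarith
    · have h1 : ∀ e : S n, maxf f δ e ^ p ≤ ENNReal.ofReal vb⁻¹ * Nf := by
        intro e
        refine (maxf_rpow_le hp hf.aemeasurable hδ e).trans ?_
        refine mul_le_mul_left ?_ Nf
        rw [ENNReal.ofReal_inv_of_pos hvbpos, ← hvbE]
        exact ENNReal.inv_le_inv.2 (measure_mono (ball_subset_ball (min_le_min_right _ hge)))
      calc ∫⁻ e, maxf f δ e ^ p ∂surf n ≤ ∫⁻ _e, ENNReal.ofReal vb⁻¹ * Nf ∂surf n :=
            lintegral_mono h1
        _ = ENNReal.ofReal A₂ * Nf := by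
            rw [lintegral_const, hsE, hA₂, ENNReal.ofReal_mul hs0]; ring
        _ ≤ ENNReal.ofReal ((A₁ + A₂) * δ ^ (-((κ + ε) * p))) * Nf := by
            have h2 : A₂ ≤ (A₁ + A₂) * δ ^ (-((κ + ε) * p)) := by
              calc A₂ ≤ (A₁ + A₂) * 1 := by linarith
                _ ≤ _ := mul_le_mul_of_nonneg_left hδpow (by linarith)
            exact mul_le_mul_left (ENNReal.ofReal_le_ofReal h2) Nf
  obtain ⟨A, hA, hA'⟩ := hmain
  refine ⟨A ^ (1 / p), by positivity, fun δ hδ hδ1 f hf => ?_⟩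
  have h1 := hA' δ hδ hδ1 (hf.mk f) hf.measurable_mk
  have h2 : ∀ e : S n, maxf f δ e = maxf (hf.mk f) δ e := fun e => maxf_congr hf.ae_eq_mk δ e
  have h3 : ∫⁻ y, ‖f y‖ₑ ^ p = ∫⁻ y, ‖hf.mk f y‖ₑ ^ p := by
    refine lintegral_congr_ae ?_
    filter_upwards [hf.ae_eq_mk] with y hy
    rw [hy]
  simp_rw [h2, h3]
  refine h1.trans (le_of_eq ?_)
  congr 2
  rw [Real.mul_rpow (by positivity) (by positivity), ← Real.rpow_mul hA.le,
    one_div_mul_cancel hp0.ne', Real.rpow_one, ← Real.rpow_mul hδ.le]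
  congr 2; ring

end Pool.Agent.Q93.KF
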