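import Pool.Agent.Q93.KF8

open MeasureTheory Set Metric Filter Topology
open scoped ENNReal NNReal Pointwise

namespace Pool.Agent.Q93.KF

variable {n : ℕ}

lemma vol_tube_double {δ : ℝ} (b e : E n) :
    volume (tube (2 * δ) b e) ≤ 2 ^ n * volume (tube δ b e) := by
  rw [vol_tube_translate _ b, vol_tube_translate _ b]
  have h1 : tube (2 * δ) (0 : E n) e ⊆ (2 : ℝ) • tube δ (0 : E n) e := by
    intro y hy
    rw [mem_smul_set_iff_inv_smul_mem₀ (by norm_num)]
    simp only [tube, Set.mem_ofPred_eq, sub_zero] at hy ⊢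
    constructor
    · rw [real_inner_smul_left, abs_mul, abs_of_pos (by norm_num : (0:ℝ) < 2⁻¹)]
      have := abs_nonneg (inner ℝ y e : ℝ)
      linarith [hy.1]
    · rw [real_inner_smul_left, mul_smul, ← smul_sub, norm_smul, Real.norm_eq_abs,
        abs_of_pos (by norm_num : (0:ℝ) < 2⁻¹)]
      linarith [hy.2]
  refine (measure_mono h1).trans (le_of_eq ?_)
  rw [Measure.addHaar_smul, finrank_euclideanSpace, Fintype.card_fin, abs_of_pos (by positivity),
    ENNReal.ofReal_pow (by norm_num)]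
  simp

lemma tube_mono {δ δ' : ℝ} (h : δ ≤ δ') (b e : E n) : tube δ b e ⊆ tube δ' b e :=
  fun _ hy => ⟨hy.1, hy.2.trans h⟩

lemma av_le_double {δ δ' : ℝ} (hδ : 0 < δ) (h : δ ≤ δ') (h' : δ' ≤ 2 * δ) {e : E n}
    (he : ‖e‖ = 1) (g : E n → ℝ≥0∞) (b : E n) : av g δ b e ≤ 2 ^ n * av g δ' b e := by
  unfold av
  have h1 : volume (tube δ' b e) ≤ 2 ^ n * volume (tube δ b e) :=
    (measure_mono (tube_mono h' b e)).trans (vol_tube_double b e)
  have h2 : (volume (tube δ b e))⁻¹ ≤ 2 ^ n * (volume (tube δ' b e))⁻¹ := by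
    rw [← div_eq_mul_inv, ENNReal.le_div_iff_mul_le (Or.inl (vol_tube_ne_zero (hδ.trans_le h) he b))
      (Or.inl (vol_tube_ne_top he b))]
    calc (volume (tube δ b e))⁻¹ * volume (tube δ' b e)
        ≤ (volume (tube δ b e))⁻¹ * (2 ^ n * volume (tube δ b e)) := by gcongr
      _ = 2 ^ n * (volume (tube δ b e) * (volume (tube δ b e))⁻¹) := by ring
      _ = 2 ^ n := by
        rw [ENNReal.mul_inv_cancel (vol_tube_ne_zero hδ he b) (vol_tube_ne_top he b), mul_one]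
  calc (volume (tube δ b e))⁻¹ * ∫⁻ y in tube δ b e, g y
      ≤ (2 ^ n * (volume (tube δ' b e))⁻¹) * ∫⁻ y in tube δ' b e, g y := by
        refine mul_le_mul' h2 ?_
        exact lintegral_mono_set (tube_mono h b e)
    _ = _ := by ring

lemma maxf_le_double {δ δ' : ℝ} (hδ : 0 < δ) (h : δ ≤ δ') (h' : δ' ≤ 2 * δ) (f : E n → ℝ)
    (e : S n) : maxf f δ e ≤ 2 ^ n * maxf f δ' e := by
  unfold maxf
  refine iSup_le fun b => ?_
  refine (av_le_double hδ h h' (by simp) _ b).trans ?_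
  gcongr
  exact le_iSup (fun b => av (fun y => ‖f y‖ₑ) δ' b (e : E n)) b

/-- `F δ = O(δ^(-κ))` as `δ → 0`. -/
def Big (κ : ℝ) (F : ℝ → ℝ≥0∞) : Prop :=
  ∃ C : ℝ, ∀ᶠ δ in 𝓝[>] 0, F δ ≤ ENNReal.ofReal (C * δ ^ (-κ))

theorem strong_ptwise {p : ℝ} (hp : 1 ≤ p) {κ ε : ℝ} (hκ : 0 ≤ κ) (hε : 0 < ε)
    (h : Strong n p (κ + ε)) {f : E n → ℝ} (hf : AEMeasurable f volume)
    (hfp : ∫⁻ y, ‖f y‖ₑ ^ p ≠ ⊤) :
    ∀ᵐ e ∂surf n, Big (κ + 2 * ε) (fun δ => maxf f δ (e : S n)) := by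
  have hp0 : 0 < p := by linarith
  wlog hfm : Measurable f generalizing f
  · have h1 := this (f := hf.mk f) hf.measurable_mk.aemeasurable (by
      have h3 : ∫⁻ y, ‖f y‖ₑ ^ p = ∫⁻ y, ‖hf.mk f y‖ₑ ^ p := by
        refine lintegral_congr_ae ?_
        filter_upwards [hf.ae_eq_mk] with y hy
        rw [hy]
      rwa [← h3]) hf.measurable_mk
    filter_upwards [h1] with e he
    have h2 : (fun δ => maxf f δ (e : E n)) = fun δ => maxf (hf.mk f) δ e := by
      funext δ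
      exact maxf_congr hf.ae_eq_mk δ e
    rw [h2]
    exact he
  obtain ⟨C, hC, hS⟩ := h
  set Nf : ℝ≥0∞ := ∫⁻ y, ‖f y‖ₑ ^ p with hNf
  set q : ℝ := (2 : ℝ) ^ (-(ε * p)) with hq
  have hq0 : 0 < q := Real.rpow_pos_of_pos (by norm_num) _
  have hq1 : q < 1 := by
    rw [hq]
    apply Real.rpow_lt_one_of_one_lt_of_neg (by norm_num)
    nlinarith
  set D : ℕ → ℝ := fun j => (1 / 2 : ℝ) ^ (j + 1) with hD
  have hD0 : ∀ j, 0 < D j := fun j => by positivity
  have hD1 : ∀ j, D j < 1 := fun j => pow_lt_one₀ (by norm_num) (by norm_num) (by omega)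
  set g : ℕ → S n → ℝ≥0∞ := fun j e => ENNReal.ofReal (D j ^ ((κ + 2 * ε) * p)) *
    maxf f (D j) e ^ p with hg
  have hgm : ∀ j, Measurable (g j) := fun j => ((meas_maxf hfm (hD0 j)).pow_const p).const_mul _
  have hgint : ∀ j, ∫⁻ e, g j e ∂surf n ≤ ENNReal.ofReal (C ^ p * q ^ (j + 1)) * Nf := by
    intro j
    rw [hg]
    simp only
    rw [lintegral_const_mul _ ((meas_maxf hfm (hD0 j)).pow_const p)]
    have h1 := hS (D j) (hD0 j) (hD1 j) f hf
    calc ENNReal.ofReal (D j ^ ((κ + 2 * ε) * p)) * ∫⁻ e, maxf f (D j) e ^ p ∂surf n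
        ≤ ENNReal.ofReal (D j ^ ((κ + 2 * ε) * p)) *
          (ENNReal.ofReal ((C * D j ^ (-(κ + ε))) ^ p) * Nf) := by gcongr
      _ = ENNReal.ofReal (C ^ p * q ^ (j + 1)) * Nf := by
        rw [← mul_assoc, ← ENNReal.ofReal_mul (Real.rpow_pos_of_pos (hD0 j) _).le]
        congr 2
        have hDj := hD0 j
        rw [Real.mul_rpow hC.le (by positivity), ← Real.rpow_mul hDj.le, mul_left_comm,
          ← Real.rpow_add hDj]
        congr 1
        have h2 : (κ + 2 * ε) * p + -(κ + ε) * p = ε * p := by ring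
        rw [h2, hD, hq]
        simp only
        rw [← Real.rpow_natCast ((2:ℝ) ^ (-(ε * p))), ← Real.rpow_mul (by norm_num),
          ← Real.rpow_natCast, one_div, Real.inv_rpow (by norm_num), ← Real.rpow_neg (by norm_num),
          ← Real.rpow_mul (by norm_num)]
        congr 1; ring
  have hsum : ∑' j, ∫⁻ e, g j e ∂surf n ≠ ⊤ := by
    refine ne_top_of_le_ne_top ?_ (ENNReal.tsum_le_tsum hgint)
    rw [ENNReal.tsum_mul_right]
    refine ENNReal.mul_ne_top ?_ hfp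
    have hs : Summable (fun j : ℕ => C ^ p * q ^ (j + 1)) := by
      have := (summable_geometric_of_lt_one hq0.le hq1).mul_left (C ^ p * q)
      refine this.congr fun j => ?_
      rw [pow_succ]; ring
    exact hs.tsum_ofReal_ne_top
  rw [← lintegral_tsum fun j => (hgm j).aemeasurable] at hsum
  have hae := ae_lt_top (Measurable.tsum hgm) hsum
  filter_upwards [hae] with e he
  set T : ℝ≥0∞ := ∑' j, g j e with hT
  have hTj : ∀ j, maxf f (D j) e ≤ T ^ (1 / p) * ENNReal.ofReal (D j ^ (-(κ + 2 * ε))) := by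
    intro j
    have h1 : g j e ≤ T := ENNReal.le_tsum j
    have hDj := hD0 j
    have hpos : 0 < D j ^ (κ + 2 * ε) := Real.rpow_pos_of_pos hDj _
    have h2 : (ENNReal.ofReal (D j ^ (κ + 2 * ε)) * maxf f (D j) e) ^ p ≤ T := by
      rw [ENNReal.mul_rpow_of_nonneg _ _ hp0.le, ENNReal.ofReal_rpow_of_pos hpos,
        ← Real.rpow_mul hDj.le]
      exact h1
    have h3 : ENNReal.ofReal (D j ^ (κ + 2 * ε)) * maxf f (D j) e ≤ T ^ (1 / p) := by
      rw [one_div, ENNReal.le_rpow_inv_iff hp0]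
      exact h2
    calc maxf f (D j) e = ENNReal.ofReal (D j ^ (-(κ + 2 * ε))) *
          (ENNReal.ofReal (D j ^ (κ + 2 * ε)) * maxf f (D j) e) := by
          rw [← mul_assoc, ← ENNReal.ofReal_mul (by positivity), ← Real.rpow_add hDj,
            neg_add_cancel, Real.rpow_zero, ENNReal.ofReal_one, one_mul]
      _ ≤ ENNReal.ofReal (D j ^ (-(κ + 2 * ε))) * T ^ (1 / p) := by gcongr
      _ = _ := mul_comm _ _
  have hT' : T ^ (1 / p) ≠ ⊤ := ENNReal.rpow_ne_top_of_nonneg (by positivity) he.ne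
  refine ⟨2 ^ n * (T ^ (1 / p)).toReal, ?_⟩
  have hev : ∀ᶠ δ : ℝ in 𝓝[>] 0, δ < 1 / 2 :=
    (eventually_lt_nhds (by norm_num)).filter_mono nhdsWithin_le_nhds
  filter_upwards [hev, self_mem_nhdsWithin] with δ hδ1 hδ
  have hδ0 : 0 < δ := hδ
  obtain ⟨j, hj1, hj2⟩ := exists_nat_pow_near_of_lt_one hδ0 (by linarith : δ ≤ 1)
    (show (0:ℝ) < 1 / 2 by norm_num) (by norm_num)
  -- `(1/2)^(j+1) < δ ≤ (1/2)^j`
  have hj0 : j ≠ 0 := by
    rintro rfl
    norm_num at hj1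
    linarith
  obtain ⟨i, rfl⟩ := Nat.exists_eq_succ_of_ne_zero hj0
  have h1 : maxf f δ e ≤ 2 ^ n * maxf f (D i) e := by
    refine maxf_le_double hδ0 hj2 ?_ f e
    have : (1 / 2 : ℝ) ^ (i.succ + 1) = (1 / 2) * D i := by rw [hD]; simp only; rw [pow_succ]; ring
    rw [this] at hj1
    show D i ≤ 2 * δ
    linarith
  refine h1.trans ?_
  have h2 : D i ^ (-(κ + 2 * ε)) ≤ δ ^ (-(κ + 2 * ε)) := by
    apply Real.rpow_le_rpow_of_nonpos hδ0 hj2
    linarith
  calc 2 ^ n * maxf f (D i) e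
      ≤ 2 ^ n * (T ^ (1 / p) * ENNReal.ofReal (δ ^ (-(κ + 2 * ε)))) := by
        gcongr
        exact (hTj i).trans (by gcongr)
    _ = ENNReal.ofReal (2 ^ n * (T ^ (1 / p)).toReal * δ ^ (-(κ + 2 * ε))) := by
        rw [ENNReal.ofReal_mul (by positivity), ENNReal.ofReal_mul (by positivity),
          ENNReal.ofReal_toReal hT', ENNReal.ofReal_pow (by norm_num), mul_assoc]
        simp

end Pool.Agent.Q93.KF
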