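import Pool.Agent.Q88.MT.Stm

/-!
# Project MT, job GRO
-/

set_option autoImplicit false

open Set Filter Topology

noncomputable section

namespace Pool.Agent.Q93.MTGRO

open Pool.Agent.Q88.MT

variable {n : ℕ}

lemma hc_hc {d e : ℤ} (hde : e ≠ d) {v : X n → ℂ} (hv : hc d v = v) (x : X n) :
    hc e v x = 0 := by
  rw [← hv]
  unfold hc
  split_ifs with h1 h2
  · exact absurd (h1.symm.trans h2) hde
  · rfl
  · rfl

lemma hc_self (d : ℤ) (v : X n → ℂ) : hc d (hc d v) = hc d v := by
  funext x
  unfold hc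
  split_ifs <;> rfl

theorem gro (_h : S_bas) (_h1 : S_bdd) (h2 : S_inv) (h3 : S_ban) (h4 : S_hco) : S_gro := by
  intro n k b l hK hl0 hl
  obtain ⟨C, hC, hban⟩ := h3 n k b l hl
  obtain ⟨hinv, hlin, hsub⟩ := h2 n k b
  obtain ⟨c1, c2, c3, c4, c5⟩ := h4 n k b
  obtain ⟨K, hKd⟩ : ∃ K : ℤ, K = ∑ j, k j := ⟨_, rfl⟩
  rw [← hKd] at hK c1
  have T0 : T k (fun _ => (0 : ℂ)) = fun _ => 0 := by
    have h := hlin (fun _ => 0) (fun _ => 0) (-1)
    simp only [mul_zero, add_zero] at h
    rw [h]
    funext y
    have : T k (fun _ => (0 : ℂ)) y + -1 * T k (fun _ => (0 : ℂ)) y = 0 := by ring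
    linear_combination this
  have Tsm : ∀ (c : ℂ) (v : X n → ℂ), T k (fun x => c * v x) = fun y => c * T k v y := by
    intro c v
    have h := hlin (fun _ => 0) v c
    simp only [zero_add] at h
    rw [h, T0]
    funext y
    simp
  have hinvm : ∀ (m : ℕ) (v : X n → ℂ), v ∈ M n b → (T k)^[m] v ∈ M n b := by
    intro m
    induction m with
    | zero => intro v hv; exact hv
    | succ m ih =>
      intro v hv
      rw [Function.iterate_succ_apply']
      exact hinv _ (ih v hv)
  have hsol : ∀ v ∈ M n b, ∃! u : X n → ℂ, u ∈ M n b ∧ (fun y => T k u y - l * u y) = v :=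
    not_not.1 hl
  -- homogeneous elements
  have key : ∀ (d : ℤ) (v : X n → ℂ), v ∈ M n b → hc d v = v → ∀ m : ℕ,
      nn ((T k)^[m] v) ≤ C * ‖l‖ ^ (m + 1) * nn v := by
    intro d v hv hdv m
    obtain ⟨u, ⟨hu, he⟩, -⟩ := hsol v hv
    have comp : ∀ (e : ℤ) (y : X n), T k (hc (e - K) u) y - l * hc e u y = hc e v y := by
      intro e y
      have h := c1 (e - K) u
      rw [sub_add_cancel] at h
      rw [← h, ← he]
      unfold hc
      split_ifs
      · rfl
      · ring
    have zero : ∀ (N : ℕ) (e : ℤ), e < d → e < N * K → hc e u = fun _ => 0 := by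
      intro N
      induction N with
      | zero =>
        intro e _ he0
        have h := c3 e u (by simpa using he0)
        rw [h]
        rfl
      | succ N ih =>
        intro e hed heN
        have h := ih (e - K) (by linarith) (by push_cast at heN; linarith)
        funext y
        have h5 := comp e y
        rw [h, T0, hc_hc (ne_of_lt hed) hdv] at h5
        have h6 : l * hc e u y = 0 := by linear_combination -h5
        exact (mul_eq_zero.1 h6).resolve_left hl0
    have zero' : ∀ e : ℤ, e < d → hc e u = fun _ => 0 := by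
      intro e hed
      refine zero (e.toNat + 1) e hed ?_
      have h5 : e ≤ (e.toNat : ℤ) := Int.self_le_toNat e
      have h6 : (1 : ℤ) ≤ K := hK
      push_cast
      nlinarith [Int.natCast_nonneg e.toNat]
    have form : ∀ i : ℕ, hc (d + i * K) u = fun y => (-(l ^ (i + 1))⁻¹) * (T k)^[i] v y := by
      intro i
      induction i with
      | zero =>
        funext y
        have h5 := comp d y
        rw [zero' (d - K) (by linarith), T0, hdv] at h5
        simp only [Nat.cast_zero, zero_mul, add_zero, zero_add, pow_one, Function.iterate_zero,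
          id_eq]
        field_simp
        linear_combination -h5
      | succ i ih =>
        funext y
        have h5 := comp (d + (i + 1 : ℕ) * K) y
        have h6 : d + ((i + 1 : ℕ) : ℤ) * K - K = d + i * K := by push_cast; ring
        have h7 : d + ((i + 1 : ℕ) : ℤ) * K ≠ d := by
          push_cast
          have : 0 < ((i : ℤ) + 1) * K := by positivity
          linarith
        rw [h6, ih, Tsm, hc_hc h7 hdv] at h5
        rw [Function.iterate_succ_apply']
        have h8 : l * hc (d + ((i + 1 : ℕ) : ℤ) * K) u y =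
            -(l ^ (i + 1))⁻¹ * T k ((T k)^[i] v) y := by linear_combination -h5
        have h9 : hc (d + ((i + 1 : ℕ) : ℤ) * K) u y =
            l⁻¹ * (l * hc (d + ((i + 1 : ℕ) : ℤ) * K) u y) := by
          rw [inv_mul_cancel_left₀ hl0]
        rw [h9, h8, pow_succ l (i + 1), mul_inv]
        ring
    have hT : (T k)^[m] v = fun y => (-(l ^ (m + 1))) * hc (d + m * K) u y := by
      funext y
      rw [form m]
      have : l ^ (m + 1) ≠ 0 := pow_ne_zero _ hl0
      field_simp
    have hs := (_h n).2.1 (-(l ^ (m + 1))) (hc (d + m * K) u) (c2 _ u hu).1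
    rw [hT, hs.2, norm_neg, norm_pow]
    have h5 := c5 (d + m * K) u hu.1
    have h6 := hban u hu
    rw [he] at h6
    calc ‖l‖ ^ (m + 1) * nn (hc (d + m * K) u) ≤ ‖l‖ ^ (m + 1) * (C * nn v) := by
          refine mul_le_mul_of_nonneg_left (h5.trans h6) (by positivity)
      _ = C * ‖l‖ ^ (m + 1) * nn v := by ring
  -- general elements
  refine ⟨C * ‖l‖, by positivity, fun m v hv => ?_⟩
  have shift : ∀ (i : ℕ) (d : ℤ), hc (d + i * K) ((T k)^[i] v) = (T k)^[i] (hc d v) := by
    intro i
    induction i with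
    | zero => intro d; simp
    | succ i ih =>
      intro d
      rw [Function.iterate_succ_apply', Function.iterate_succ_apply', ← ih d, ← c1]
      congr 1
      push_cast
      ring
  have hs1 := c4 v hv.1
  have hs2 := c4 ((T k)^[m] v) (hinvm m v hv).1
  have hs3 : HasSum (fun d : ℤ => nn (hc (d + m * K) ((T k)^[m] v)) ^ 2) (nn ((T k)^[m] v) ^ 2) :=
    (Equiv.addRight ((m : ℤ) * K)).hasSum_iff.2 hs2
  have hs4 := hs1.mul_left ((C * ‖l‖ ^ (m + 1)) ^ 2)
  have hle : nn ((T k)^[m] v) ^ 2 ≤ (C * ‖l‖ ^ (m + 1)) ^ 2 * nn v ^ 2 := by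
    refine hasSum_le (fun d => ?_) hs3 hs4
    rw [shift, ← mul_pow]
    refine pow_le_pow_left₀ (Real.sqrt_nonneg _) ?_ 2
    exact key d (hc d v) (c2 d v hv) (hc_self d v) m
  rw [← mul_pow] at hle
  have h5 : nn ((T k)^[m] v) ≤ C * ‖l‖ ^ (m + 1) * nn v :=
    (pow_le_pow_iff_left₀ (Real.sqrt_nonneg _) (by
      have : 0 ≤ nn v := Real.sqrt_nonneg _
      positivity) two_ne_zero).1 hle
  refine h5.trans (le_of_eq ?_)
  ring

end Pool.Agent.Q93.MTGRO
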