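import Pool.Agent.Q93.TypK

open MeasureTheory Metric Set Filter Topology TopologicalSpace
open scoped ENNReal NNReal

namespace Pool.Agent.Q93.TypK

variable {n : ℕ}

/-- `K` has a finite cover by balls of radii `r i ≤ 1` with `∑ h (r i) < ε`. -/
def Cheap (h : ℝ → ℝ) (K : Set (E n)) (ε : ℝ) : Prop :=
  ∃ (ι : Type) (_ : Fintype ι) (x : ι → E n) (r : ι → ℝ),
    (∀ i, 0 < r i ∧ r i ≤ 1) ∧ K ⊆ ⋃ i, ball (x i) (r i) ∧ ∑ i, h (r i) < ε

lemma cheap_pert {F V : Finset (E n)} {A K : Set (E n)} {M : ℕ} {η : ℝ} {h : ℝ → ℝ}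
    (hη : 0 < η) (hF : F.card ≤ M)
    (hov : ∀ (x : E n) (V' : Finset (E n)), V' ⊆ V →
      (∀ v ∈ V', x + v ∈ cthickening (3 * η + 1) K) → V'.card ≤ M)
    (hh : ∀ r, 0 < r → r ≤ 1 → 0 ≤ h r) {r₀ : ℝ} (hr₀ : 0 < r₀) (hr₁ : r₀ ≤ 1) {ε ε' : ℝ}
    (hA : Cheap h A ε) (hε : M * h r₀ + M * ε ≤ ε') (hε0 : 0 < ε') :
    Cheap h (pert F V A (cthickening (3 * η) K)) ε' := by
  classical
  obtain ⟨ι, hι, x, r, hr, hcov, hsum⟩ := hA
  have hsum0 : 0 ≤ ∑ i, h (r i) := Finset.sum_nonneg fun i _ => hh _ (hr i).1 (hr i).2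
  set B₁ := cthickening (3 * η + 1) K with hB₁
  have hsum2 : ∑ v : V, ∑ i : {i // x i + v.1 ∈ B₁}, h (r i.1) ≤ M * ∑ i, h (r i) := by
    calc ∑ v : V, ∑ i : {i // x i + v.1 ∈ B₁}, h (r i.1)
        = ∑ v : V, ∑ i, if x i + v.1 ∈ B₁ then h (r i) else 0 := by
          refine Finset.sum_congr rfl fun v _ => ?_
          rw [← Finset.sum_filter]
          rw [← Finset.sum_subtype_of_mem (fun i => h (r i)) (p := fun i => x i + v.1 ∈ B₁)
            (fun i hi => (Finset.mem_filter.1 hi).2)]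
          refine Finset.sum_congr ?_ fun _ _ => rfl
          ext i; simp [i.2]
      _ = ∑ i, ∑ v : V, if x i + v.1 ∈ B₁ then h (r i) else 0 := Finset.sum_comm
      _ ≤ ∑ i, M * h (r i) := by
          refine Finset.sum_le_sum fun i _ => ?_
          have h1 : ∑ v : V, (if x i + v.1 ∈ B₁ then h (r i) else 0) =
              ((V.filter (fun v => x i + v ∈ B₁)).card : ℝ) * h (r i) := by
            rw [Finset.sum_coe_sort V (fun v => if x i + v ∈ B₁ then h (r i) else 0),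
              ← Finset.sum_filter, Finset.sum_const, nsmul_eq_mul]
          rw [h1]
          refine mul_le_mul_of_nonneg_right ?_ (hh _ (hr i).1 (hr i).2)
          exact Nat.cast_le.2
            (hov (x i) _ (Finset.filter_subset _ _) fun v hv => (Finset.mem_filter.1 hv).2)
      _ = M * ∑ i, h (r i) := by rw [Finset.mul_sum]
  have hsum1 : ∑ _f : F, h r₀ ≤ M * h r₀ := by
    rw [Finset.sum_const, nsmul_eq_mul]
    refine mul_le_mul_of_nonneg_right ?_ (hh _ hr₀ hr₁)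
    simp only [Finset.card_univ, Fintype.card_coe]
    exact_mod_cast hF
  refine ⟨F ⊕ (Σ v : V, {i // x i + v.1 ∈ B₁}), inferInstance,
    Sum.elim (fun f => f.1) (fun p => x p.2.1 + p.1.1), Sum.elim (fun _ => r₀) (fun p => r p.2.1),
    ?_, ?_, ?_⟩
  · rintro (f | p)
    · exact ⟨hr₀, hr₁⟩
    · exact hr _
  · rintro y (hy | hy)
    · rw [mem_iUnion]
      refine ⟨Sum.inl ⟨y, by simpa using hy⟩, ?_⟩
      exact mem_ball_self hr₀
    · simp only [mem_iUnion, exists_prop] at hy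
      obtain ⟨v, hv, hyA, hyB⟩ := hy
      have h2 := hcov hyA
      rw [mem_iUnion] at h2
      obtain ⟨i, hi⟩ := h2
      have h3 : dist y (x i + v) < r i := by
        rw [mem_ball, dist_eq_norm] at hi
        rw [dist_eq_norm]
        have : y - (x i + v) = y - v - x i := by abel
        rw [this]; exact hi
      have h4 : x i + v ∈ B₁ := by
        rw [hB₁, add_comm (3 * η) 1]
        refine cthickening_cthickening_subset zero_le_one (by positivity) K ?_
        refine mem_cthickening_of_dist_le _ y _ _ hyB ?_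
        rw [dist_comm]
        linarith [(hr i).2]
      rw [mem_iUnion]
      exact ⟨Sum.inr ⟨⟨v, hv⟩, ⟨i, h4⟩⟩, h3⟩
  · rw [Fintype.sum_sum_type, Fintype.sum_sigma]
    simp only [Sum.elim_inl, Sum.elim_inr]
    rcases Nat.eq_zero_or_pos M with hM | hM
    · subst hM
      simp only [Nat.cast_zero, zero_mul] at hsum1 hsum2 hε
      linarith
    · have hM' : (0 : ℝ) < M := by exact_mod_cast hM
      have h5 : (M : ℝ) * ∑ i, h (r i) < M * ε := by nlinarith
      linarith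

lemma isOpen_cheap (Ω : Set (E n)) (h : ℝ → ℝ) (ε : ℝ) :
    IsOpen {K : KSpace Ω | Cheap h (K.1 : Set (E n)) ε} := by
  rw [Metric.isOpen_iff]
  rintro K ⟨ι, hι, x, r, hr, hcov, hsum⟩
  obtain ⟨ρ, hρ, h1⟩ := K.1.isCompact.exists_thickening_subset_open
    (isOpen_iUnion fun i => isOpen_ball) hcov
  refine ⟨ρ, hρ, fun L hL => ⟨ι, hι, x, r, hr, ?_, hsum⟩⟩
  refine Subset.trans ?_ h1
  intro y hy
  rw [mem_ball, Subtype.dist_eq, NonemptyCompacts.dist_eq] at hL
  obtain ⟨z, hz, hyz⟩ := exists_dist_lt_of_hausdorffDist_lt hy hL (edist_ne _ _)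
  exact mem_thickening_iff.2 ⟨z, hz, hyz⟩

/-- **Zero-one law for contents.** -/
theorem typical_content {Ω : Set (E n)} (hΩ : Bornology.IsBounded Ω) {h : ℝ → ℝ}
    (hh : ∀ r, 0 < r → r ≤ 1 → 0 ≤ h r) (hsmall : ∀ ε > 0, ∃ r, 0 < r ∧ r ≤ 1 ∧ h r < ε) :
    (∃ c > 0, ∀ K : KSpace Ω, ¬ Cheap h (K.1 : Set (E n)) c) ∨
    ∀ᶠ K : KSpace Ω in residual (KSpace Ω), ∀ ε > 0, Cheap h (K.1 : Set (E n)) ε := by
  by_cases hcase : ∃ c > 0, ∀ K : KSpace Ω, ¬ Cheap h (K.1 : Set (E n)) c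
  · exact Or.inl hcase
  right
  push Not at hcase
  have key : ∀ j : ℕ, ∀ᶠ K : KSpace Ω in residual (KSpace Ω),
      Cheap h (K.1 : Set (E n)) (1 / ((j : ℝ) + 1)) := by
    intro j
    refine residual_of_dense_open (isOpen_cheap Ω h _) ?_
    rw [Metric.dense_iff]
    intro K ρ hρ
    obtain ⟨M, hM⟩ := construct hΩ K (show 0 < ρ / 4 by positivity)
    set ε' : ℝ := 1 / ((j : ℝ) + 1) with hε'
    have hε'0 : 0 < ε' := by positivity
    obtain ⟨K₀, hK₀⟩ := hcase (ε' / (2 * (M + 1))) (by positivity)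
    obtain ⟨r₀, hr₀, hr₁, hr₂⟩ := hsmall (ε' / (2 * (M + 1))) (by positivity)
    obtain ⟨F, V, K', hd, hcar, hF, hov⟩ := hM K₀
    refine ⟨K', ?_, ?_⟩
    · rw [mem_ball]; linarith
    · show Cheap h (K'.1 : Set (E n)) ε'
      rw [hcar]
      refine cheap_pert (by positivity) hF hov hh hr₀ hr₁ hK₀ ?_ hε'0
      have h1 : (M : ℝ) * h r₀ ≤ M * (ε' / (2 * (M + 1))) := by gcongr
      have h2 : (M : ℝ) * (ε' / (2 * (M + 1))) + M * (ε' / (2 * (M + 1))) ≤ ε' := by
        have : (M : ℝ) * (ε' / (2 * (M + 1))) + M * (ε' / (2 * (M + 1))) =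
            ε' * (M / (M + 1)) := by field_simp; ring
        rw [this]
        have h3 : (M : ℝ) / (M + 1) ≤ 1 := by
          rw [div_le_one (by positivity)]; linarith
        nlinarith
      linarith
  have key2 := eventually_countable_forall.2 key
  filter_upwards [key2] with K hK ε hε
  obtain ⟨j, hj⟩ := exists_nat_one_div_lt hε
  obtain ⟨ι, hι, x, r, hr, hcov, hsum⟩ := hK j
  exact ⟨ι, hι, x, r, hr, hcov, hsum.trans hj⟩

end Pool.Agent.Q93.TypK
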