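import Pool.Agent.Q93.TypK2

open MeasureTheory Metric Set Filter Topology TopologicalSpace
open scoped ENNReal NNReal

namespace Pool.Agent.Q93.TypK

variable {n : ℕ}

lemma hausdorff_zero_of_cheap {s : ℝ} (hs : 0 < s) {K : Set (E n)}
    (hK : ∀ ε > 0, Cheap (fun r => r ^ s) K ε) : μH[s] K = 0 := by
  have h1 : ∀ m : ℕ, Cheap (fun r => r ^ s) K ((1 / ((m : ℝ) + 1)) ^ s) :=
    fun m => hK _ (by positivity)
  choose ι hι x r hr hcov hsum using h1
  have hr' : ∀ m i, r m i ≤ 1 / ((m : ℝ) + 1) := by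
    intro m i
    have h2 : r m i ^ s < (1 / ((m : ℝ) + 1)) ^ s :=
      lt_of_le_of_lt (Finset.single_le_sum (f := fun i => r m i ^ s)
        (fun i _ => Real.rpow_nonneg (hr m i).1.le _) (Finset.mem_univ i)) (hsum m)
    exact ((Real.rpow_lt_rpow_iff (hr m i).1.le (by positivity) hs).1 h2).le
  have hdiam : ∀ m i, ediam (ball (x m i) (r m i)) ≤ 2 * ENNReal.ofReal (r m i) := by
    intro m i
    rw [← eball_ofReal]
    exact ediam_eball_le
  have hlim : Tendsto (fun m : ℕ => 2 * ENNReal.ofReal (1 / ((m : ℝ) + 1))) atTop (𝓝 0) := by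
    have h3 : Tendsto (fun m : ℕ => ENNReal.ofReal (1 / ((m : ℝ) + 1))) atTop
        (𝓝 (ENNReal.ofReal 0)) :=
      (ENNReal.continuous_ofReal.tendsto 0).comp tendsto_one_div_add_atTop_nhds_zero_nat
    rw [ENNReal.ofReal_zero] at h3
    have := ENNReal.Tendsto.const_mul (a := 2) h3 (Or.inr (by norm_num))
    simpa using this
  have h4 := Measure.hausdorffMeasure_le_liminf_sum (X := E n) s K
    (l := (atTop : Filter ℕ)) (fun m => 2 * ENNReal.ofReal (1 / ((m : ℝ) + 1))) hlim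
    (fun m i => ball (x m i) (r m i))
    (Eventually.of_forall fun m i => (hdiam m i).trans (by
      gcongr
      exact hr' m i)) (Eventually.of_forall fun m => hcov m)
  have h5 : ∀ m, ∑ i, ediam (ball (x m i) (r m i)) ^ s ≤
      2 ^ s * ENNReal.ofReal ((1 / ((m : ℝ) + 1)) ^ s) := by
    intro m
    calc ∑ i, ediam (ball (x m i) (r m i)) ^ s
        ≤ ∑ i, 2 ^ s * ENNReal.ofReal (r m i ^ s) := by
          refine Finset.sum_le_sum fun i _ => ?_
          rw [← ENNReal.ofReal_rpow_of_pos (hr m i).1, ← ENNReal.mul_rpow_of_nonneg _ _ hs.le]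
          exact ENNReal.rpow_le_rpow (hdiam m i) hs.le
      _ = 2 ^ s * ENNReal.ofReal (∑ i, r m i ^ s) := by
          rw [← Finset.mul_sum, ENNReal.ofReal_sum_of_nonneg]
          intro i _
          exact Real.rpow_nonneg (hr m i).1.le _
      _ ≤ 2 ^ s * ENNReal.ofReal ((1 / ((m : ℝ) + 1)) ^ s) := by
          gcongr
          exact (hsum m).le
  have h6 : Tendsto (fun m : ℕ => (2 : ℝ≥0∞) ^ s * ENNReal.ofReal ((1 / ((m : ℝ) + 1)) ^ s)) atTop
      (𝓝 0) := by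
    have h7 : Tendsto (fun m : ℕ => (1 / ((m : ℝ) + 1)) ^ s) atTop (𝓝 0) := by
      have := tendsto_one_div_add_atTop_nhds_zero_nat (𝕜 := ℝ) |>.rpow_const
        (p := s) (Or.inr hs.le)
      rwa [Real.zero_rpow hs.ne'] at this
    have h8 : Tendsto (fun m : ℕ => ENNReal.ofReal ((1 / ((m : ℝ) + 1)) ^ s)) atTop
        (𝓝 (ENNReal.ofReal 0)) := (ENNReal.continuous_ofReal.tendsto 0).comp h7
    rw [ENNReal.ofReal_zero] at h8
    have := ENNReal.Tendsto.const_mul (a := (2 : ℝ≥0∞) ^ s) h8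
      (Or.inr (ENNReal.rpow_ne_top_of_nonneg hs.le (by norm_num)))
    simpa using this
  have h9 : liminf (fun m => ∑ i, ediam (ball (x m i) (r m i)) ^ s) atTop ≤ 0 := by
    rw [← h6.liminf_eq]
    exact liminf_le_liminf (Eventually.of_forall h5)
  exact le_antisymm (h4.trans h9) bot_le

lemma exists_radius {s : ℝ} (hs : 0 < s) {d ρ : ℝ} (_hd : 0 ≤ d) (hd1 : d ≤ 1 / 2) (hρ : 0 < ρ) :
    ∃ r, d < r ∧ r ≤ 1 ∧ r ^ s ≤ d ^ s + ρ := by
  have hc : Tendsto (fun r : ℝ => r ^ s) (𝓝[>] d) (𝓝 (d ^ s)) :=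
    ((Real.continuous_rpow_const hs.le).tendsto d).mono_left nhdsWithin_le_nhds
  have h1 : ∀ᶠ r in 𝓝[>] d, r ^ s < d ^ s + ρ := hc.eventually_lt_const (by linarith)
  have h2 : ∀ᶠ r in 𝓝[>] d, r < 1 :=
    (eventually_lt_nhds (show d < 1 by linarith)).filter_mono nhdsWithin_le_nhds
  obtain ⟨r, ⟨h3, h4⟩, h5⟩ := ((h1.and h2).and self_mem_nhdsWithin).exists
  exact ⟨r, h5, h4.le, h3.le⟩

lemma cheap_of_hausdorff_zero {s : ℝ} (hs : 0 < s) {K : Set (E n)} (hKc : IsCompact K)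
    (hK : μH[s] K = 0) {ε : ℝ} (hε : 0 < ε) : Cheap (fun r => r ^ s) K ε := by
  rw [Measure.hausdorffMeasure_apply] at hK
  have h1 : (⨅ (t : ℕ → Set (E n)) (_ : K ⊆ ⋃ n, t n)
      (_ : ∀ n, ediam (t n) ≤ ENNReal.ofReal (1 / 2)),
        ∑' n, ⨆ _ : (t n).Nonempty, ediam (t n) ^ s) = 0 := by
    have h2 := iSup_eq_bot.1 hK (ENNReal.ofReal (1 / 2))
    have h3 := iSup_eq_bot.1 h2 (by simp)
    exact h3
  have h2 : (⨅ (t : ℕ → Set (E n)) (_ : K ⊆ ⋃ n, t n)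
      (_ : ∀ n, ediam (t n) ≤ ENNReal.ofReal (1 / 2)),
        ∑' n, ⨆ _ : (t n).Nonempty, ediam (t n) ^ s) < ENNReal.ofReal (ε / 2) := by
    rw [h1]; simpa using hε
  simp only [iInf_lt_iff] at h2
  obtain ⟨t, ht, htd, hsum⟩ := h2
  set a : ℕ → ℝ≥0∞ := fun n => ⨆ _ : (t n).Nonempty, ediam (t n) ^ s with ha
  have haT : ∑' n, a n ≠ ⊤ := (hsum.trans ENNReal.ofReal_lt_top).ne
  have ha1 : ∀ n, a n ≠ ⊤ := ENNReal.ne_top_of_tsum_ne_top haT
  have key : ∀ j : ℕ, ∃ (x : E n) (r : ℝ), 0 < r ∧ r ≤ 1 ∧ t j ⊆ ball x r ∧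
      r ^ s ≤ (a j).toReal + ε / 4 * (1 / 2) ^ j := by
    intro j
    have hρ : 0 < ε / 4 * (1 / 2 : ℝ) ^ j := by positivity
    have hdt : ediam (t j) ≠ ⊤ := ((htd j).trans_lt ENNReal.ofReal_lt_top).ne
    rcases (t j).eq_empty_or_nonempty with he | hne
    · obtain ⟨r, h1, h2, h3⟩ := exists_radius hs le_rfl (by norm_num) hρ
      refine ⟨0, r, h1, h2, by rw [he]; exact empty_subset _, ?_⟩
      rw [Real.zero_rpow hs.ne'] at h3
      linarith [ENNReal.toReal_nonneg (a := a j)]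
    · obtain ⟨x, hx⟩ := hne
      have hd1 : diam (t j) ≤ 1 / 2 := by
        rw [diam]
        exact ENNReal.toReal_le_of_le_ofReal (by norm_num) (htd j)
      obtain ⟨r, h1, h2, h3⟩ := exists_radius hs (diam_nonneg (s := t j)) hd1 hρ
      have haj : (a j).toReal = diam (t j) ^ s := by
        have : a j = ediam (t j) ^ s := by
          simp only [ha]
          exact iSup_pos (p := (t j).Nonempty) ⟨x, hx⟩
        rw [this, ← ENNReal.toReal_rpow]; rfl
      refine ⟨x, r, diam_nonneg.trans_lt h1, h2, ?_, by rw [haj]; exact h3⟩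
      intro y hy
      rw [mem_ball]
      refine lt_of_le_of_lt ?_ h1
      have hb : Bornology.IsBounded (t j) := isBounded_iff_ediam_ne_top.2 hdt
      exact dist_le_diam_of_mem hb hy hx
  choose x r hr hr1 htb hrs using key
  obtain ⟨I, hI⟩ := hKc.elim_finite_subcover (fun j => ball (x j) (r j)) (fun j => isOpen_ball)
    (ht.trans (iUnion_mono htb))
  refine ⟨I, inferInstance, fun j => x j.1, fun j => r j.1, fun j => ⟨hr _, hr1 _⟩, ?_, ?_⟩
  · refine hI.trans ?_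
    intro y hy
    simp only [mem_iUnion, exists_prop] at hy ⊢
    obtain ⟨j, hj, hy⟩ := hy
    exact ⟨⟨j, hj⟩, hy⟩
  · rw [Finset.sum_coe_sort I (fun j => r j ^ s)]
    have h3 : ∑ j ∈ I, (a j).toReal < ε / 2 := by
      rw [← ENNReal.toReal_sum fun j _ => ha1 j]
      have h4 : ∑ j ∈ I, a j < ENNReal.ofReal (ε / 2) :=
        lt_of_le_of_lt (ENNReal.sum_le_tsum I) hsum
      exact (ENNReal.lt_ofReal_iff_toReal_lt (h4.trans ENNReal.ofReal_lt_top).ne).1 h4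
    have h5 : ∑ j ∈ I, ε / 4 * (1 / 2 : ℝ) ^ j ≤ ε / 2 := by
      rw [← Finset.mul_sum]
      have h6 : ∑ j ∈ I, (1 / 2 : ℝ) ^ j ≤ 2 := by
        calc ∑ j ∈ I, (1 / 2 : ℝ) ^ j ≤ ∑' j : ℕ, (1 / 2 : ℝ) ^ j :=
              summable_geometric_two.sum_le_tsum I fun j _ => by positivity
          _ = 2 := tsum_geometric_two
      nlinarith
    calc ∑ j ∈ I, r j ^ s ≤ ∑ j ∈ I, ((a j).toReal + ε / 4 * (1 / 2) ^ j) :=
          Finset.sum_le_sum fun j _ => hrs j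
      _ = ∑ j ∈ I, (a j).toReal + ∑ j ∈ I, ε / 4 * (1 / 2 : ℝ) ^ j := Finset.sum_add_distrib
      _ < ε := by linarith

end Pool.Agent.Q93.TypK
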