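import Pool.Agent.Q93.TypK3

open MeasureTheory Metric Set Filter Topology TopologicalSpace
open scoped ENNReal NNReal

namespace Pool.Agent.Q93.TypK

variable {n : ℕ}

lemma rpow_small {s : ℝ} (hs : 0 < s) : ∀ ε > 0, ∃ r : ℝ, 0 < r ∧ r ≤ 1 ∧ r ^ s < ε := by
  intro ε hε
  obtain ⟨r, h1, h2, h3⟩ := exists_radius hs le_rfl (by norm_num) (half_pos hε)
  rw [Real.zero_rpow hs.ne'] at h3
  exact ⟨r, h1, h2, by linarith⟩

/-- Zero-one law for Hausdorff measures. -/
theorem typical_hausdorff {Ω : Set (E n)} (hΩ : Bornology.IsBounded Ω) {s : ℝ} (hs : 0 < s) :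
    (∃ c > 0, ∀ K : KSpace Ω, ¬ Cheap (fun r => r ^ s) (K.1 : Set (E n)) c) ∨
    ∀ᶠ K : KSpace Ω in residual (KSpace Ω), μH[s] (K.1 : Set (E n)) = 0 := by
  rcases typical_content hΩ (h := fun r => r ^ s) (fun r hr _ => Real.rpow_nonneg hr.le _)
    (rpow_small hs) with h | h
  · exact Or.inl h
  · right
    filter_upwards [h] with K hK
    exact hausdorff_zero_of_cheap hs hK

/-- **Typical sets have minimal Hausdorff dimension.** -/
theorem typical_dimH {Ω : Set (E n)} (hΩ : Bornology.IsBounded Ω) :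
    ∀ᶠ K : KSpace Ω in residual (KSpace Ω), ∀ K₀ : KSpace Ω,
      dimH (K.1 : Set (E n)) ≤ dimH (K₀.1 : Set (E n)) := by
  set s₀ : ℝ≥0∞ := ⨅ K₀ : KSpace Ω, dimH (K₀.1 : Set (E n)) with hs₀
  have key : ∀ q : ℚ, ∀ᶠ K : KSpace Ω in residual (KSpace Ω),
      s₀ < (Real.toNNReal q : ℝ≥0∞) → dimH (K.1 : Set (E n)) ≤ (Real.toNNReal q : ℝ≥0∞) := by
    intro q
    by_cases hq : s₀ < (Real.toNNReal q : ℝ≥0∞)
    · obtain ⟨K₀, hK₀⟩ := iInf_lt_iff.1 hq
      have hqpos : (0 : ℝ) < Real.toNNReal q := by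
        have : (0 : ℝ≥0∞) < (Real.toNNReal q : ℝ≥0∞) := bot_le.trans_lt hq
        exact_mod_cast this
      have hmu : μH[(Real.toNNReal q : ℝ)] (K₀.1 : Set (E n)) = 0 := by
        exact hausdorffMeasure_of_dimH_lt hK₀
      rcases typical_hausdorff hΩ hqpos with ⟨c, hc, h⟩ | h
      · exact absurd (cheap_of_hausdorff_zero hqpos K₀.1.isCompact hmu hc) (h K₀)
      · filter_upwards [h] with K hK _
        refine dimH_le_of_hausdorffMeasure_ne_top ?_
        rw [hK]; exact ENNReal.zero_ne_top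
    · exact Eventually.of_forall fun K h => absurd h hq
  filter_upwards [eventually_countable_forall.2 key] with K hK K₀
  refine le_trans ?_ (iInf_le (fun K₀ : KSpace Ω => dimH (K₀.1 : Set (E n))) K₀)
  refine le_of_not_gt fun hlt => ?_
  obtain ⟨q, _, h1, h2⟩ := ENNReal.lt_iff_exists_rat_btwn.1 hlt
  exact absurd (hK q h1) (not_le.2 h2)

/-- The lower Minkowski dimension `n - limsup (log |N_δ K| / log δ)` of a subset of `ℝ^n`; here
`N_δ K` is the closed `δ`-neighbourhood. -/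
noncomputable def lowerMinkowski (K : Set (E n)) : EReal :=
  (n : EReal) - limsup (fun δ : ℝ =>
    ((Real.log (volume (cthickening δ K)).toReal / Real.log δ : ℝ) : EReal)) (𝓝[>] 0)

/-- The same for the smallest volume of neighbourhoods. -/
noncomputable def expo (Ω : Set (E n)) (δ : ℝ) : ℝ := Real.log (vmin Ω δ).toReal / Real.log δ

lemma vmin_toReal_pos (Ω : Set (E n)) (K : KSpace Ω) {δ : ℝ} (hδ : 0 < δ) :
    0 < (vmin Ω δ).toReal := by
  refine ENNReal.toReal_pos ?_ (vmin_lt_top Ω K δ).ne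
  exact ((measure_closedBall_pos _ _ hδ).trans_le (ball_le_vmin Ω hδ.le)).ne'

lemma vol_ne_top {Ω : Set (E n)} (K : KSpace Ω) (δ : ℝ) :
    volume (cthickening δ (K.1 : Set (E n))) ≠ ⊤ :=
  K.1.isCompact.isBounded.cthickening.measure_lt_top.ne

lemma vmin_toReal_le (Ω : Set (E n)) (K : KSpace Ω) (δ : ℝ) :
    (vmin Ω δ).toReal ≤ (volume (cthickening δ (K.1 : Set (E n)))).toReal :=
  ENNReal.toReal_mono (vol_ne_top K δ) (vmin_le Ω δ K)

lemma limsup_le_expo (Ω : Set (E n)) (K : KSpace Ω) :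
    limsup (fun δ : ℝ => ((Real.log (volume (cthickening δ (K.1 : Set (E n)))).toReal /
      Real.log δ : ℝ) : EReal)) (𝓝[>] 0) ≤ limsup (fun δ => (expo Ω δ : EReal)) (𝓝[>] 0) := by
  refine limsup_le_limsup ?_
  have h1 : ∀ᶠ δ : ℝ in 𝓝[>] 0, δ < 1 :=
    (eventually_lt_nhds zero_lt_one).filter_mono nhdsWithin_le_nhds
  filter_upwards [h1, self_mem_nhdsWithin] with δ hδ1 hδ0
  rw [EReal.coe_le_coe_iff]
  have hlog : Real.log δ < 0 := Real.log_neg hδ0 hδ1
  unfold expo
  exact div_le_div_of_nonpos_of_le hlog.le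
    (Real.log_le_log (vmin_toReal_pos Ω K hδ0) (vmin_toReal_le Ω K δ))

/-- At infinitely many scales of a given sequence the exponent of a typical set is not much smaller
than the extremal one. -/
lemma typical_expo {Ω : Set (E n)} (hΩ : Bornology.IsBounded Ω) {δ : ℕ → ℝ}
    (hδ : ∀ k, 0 < δ k) (hδ0 : Tendsto δ atTop (𝓝 0)) {ρ : ℝ} (hρ : 0 < ρ) :
    ∀ᶠ K : KSpace Ω in residual (KSpace Ω), ∃ᶠ k in atTop,
      expo Ω (δ k) - ρ < Real.log (volume (cthickening (δ k) (K.1 : Set (E n)))).toReal /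
        Real.log (δ k) := by
  have hδ' : Tendsto δ atTop (𝓝[>] 0) := tendsto_nhdsWithin_iff.2
    ⟨hδ0, Eventually.of_forall hδ⟩
  have hψ : Tendsto (fun k => - Real.log (δ k)) atTop atTop :=
    tendsto_neg_atBot_atTop.comp (Real.tendsto_log_nhdsGT_zero.comp hδ')
  filter_upwards [typical_volume hΩ hδ hδ0 hψ] with K hK
  have hloglog : ∀ᶠ x : ℝ in atTop, Real.log x < ρ * x := by
    have h1 := Real.isLittleO_log_id_atTop.bound (half_pos hρ)
    filter_upwards [h1, eventually_gt_atTop 1] with x hx hx1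
    simp only [id, Real.norm_eq_abs] at hx
    have h2 := le_abs_self (Real.log x)
    rw [abs_of_pos (by linarith : (0 : ℝ) < x)] at hx
    nlinarith
  have hev := (hψ.eventually hloglog).and (hψ.eventually_gt_atTop 1)
  refine (hK.and_eventually hev).mono ?_
  rintro k ⟨h1, h2, h3⟩
  have hlog : Real.log (δ k) < 0 := by linarith
  have hvpos := vmin_toReal_pos Ω K (hδ k)
  have hVpos := hvpos.trans_le (vmin_toReal_le Ω K (δ k))
  have h4 : (volume (cthickening (δ k) (K.1 : Set (E n)))).toReal <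
      (- Real.log (δ k)) * (vmin Ω (δ k)).toReal := by
    have h5 := (ENNReal.toReal_lt_toReal (vol_ne_top K _)
      (ENNReal.mul_ne_top ENNReal.ofReal_ne_top (vmin_lt_top Ω K _).ne)).2 h1
    rwa [ENNReal.toReal_mul, ENNReal.toReal_ofReal (by linarith)] at h5
  have h6 : Real.log (volume (cthickening (δ k) (K.1 : Set (E n)))).toReal <
      Real.log (- Real.log (δ k)) + Real.log (vmin Ω (δ k)).toReal := by
    rw [← Real.log_mul (by linarith) hvpos.ne']
    exact Real.log_lt_log hVpos h4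
  unfold expo
  rw [sub_lt_iff_lt_add, ← sub_lt_iff_lt_add', ← sub_div, div_lt_iff_of_neg hlog]
  linarith

theorem typical_limsup {Ω : Set (E n)} (hΩ : Bornology.IsBounded Ω) :
    ∀ᶠ K : KSpace Ω in residual (KSpace Ω),
      limsup (fun δ => (expo Ω δ : EReal)) (𝓝[>] 0) ≤
      limsup (fun δ : ℝ => ((Real.log (volume (cthickening δ (K.1 : Set (E n)))).toReal /
        Real.log δ : ℝ) : EReal)) (𝓝[>] 0) := by
  set L : EReal := limsup (fun δ => (expo Ω δ : EReal)) (𝓝[>] 0) with hL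
  have key : ∀ q : ℚ, ∀ m : ℕ, ∀ᶠ K : KSpace Ω in residual (KSpace Ω),
      (((q : ℚ) : ℝ) : EReal) < L → (((q : ℝ) - 1 / ((m : ℝ) + 1) : ℝ) : EReal) ≤
      limsup (fun δ : ℝ => ((Real.log (volume (cthickening δ (K.1 : Set (E n)))).toReal /
        Real.log δ : ℝ) : EReal)) (𝓝[>] 0) := by
    intro q m
    by_cases hq : (((q : ℚ) : ℝ) : EReal) < L
    · have h1 : ∃ᶠ δ : ℝ in 𝓝[>] 0, (((q : ℚ) : ℝ) : EReal) < (expo Ω δ : EReal) ∧ 0 < δ :=
        (frequently_lt_of_lt_limsup (by isBoundedDefault) hq).and_eventually self_mem_nhdsWithin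
      obtain ⟨δ, hδl, hδ⟩ := exists_seq_forall_of_frequently h1
      have hδ0 : Tendsto δ atTop (𝓝 0) := hδl.mono_right nhdsWithin_le_nhds
      filter_upwards [typical_expo hΩ (fun k => (hδ k).2) hδ0
        (show (0 : ℝ) < 1 / ((m : ℝ) + 1) by positivity)] with K hK _
      have h2 : ∃ᶠ δ : ℝ in 𝓝[>] 0, (((q : ℝ) - 1 / ((m : ℝ) + 1) : ℝ) : EReal) ≤
          ((Real.log (volume (cthickening δ (K.1 : Set (E n)))).toReal / Real.log δ : ℝ) :
            EReal) := by
        refine hδl.frequently (hK.mono fun k hk => ?_)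
        rw [EReal.coe_le_coe_iff]
        have h3 := EReal.coe_lt_coe_iff.1 (hδ k).1
        linarith
      exact le_limsup_of_frequently_le h2 (by isBoundedDefault)
    · exact Eventually.of_forall fun K h => absurd h hq
  have key2 := eventually_countable_forall.2 fun q => eventually_countable_forall.2 (key q)
  filter_upwards [key2] with K hK
  set S : EReal := limsup (fun δ : ℝ =>
    ((Real.log (volume (cthickening δ (K.1 : Set (E n)))).toReal / Real.log δ : ℝ) : EReal))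
    (𝓝[>] 0) with hS
  refine le_of_not_gt fun hlt => ?_
  obtain ⟨q, h1, h2⟩ := EReal.lt_iff_exists_rat_btwn.1 hlt
  obtain ⟨q', h3, h4⟩ := EReal.lt_iff_exists_rat_btwn.1 h1
  have h5 : (q' : ℝ) < q := by exact_mod_cast h4
  obtain ⟨m, hm⟩ := exists_nat_one_div_lt (show (0 : ℝ) < q - q' by linarith)
  have h6 := hK q m h2
  have h7 : ((q' : ℝ) : EReal) ≤ (((q : ℝ) - 1 / ((m : ℝ) + 1) : ℝ) : EReal) := by
    rw [EReal.coe_le_coe_iff]; linarith
  exact absurd (h7.trans h6) (not_le.2 h3)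

/-- **Typical sets have minimal lower Minkowski dimension.** -/
theorem typical_lowerMinkowski {Ω : Set (E n)} (hΩ : Bornology.IsBounded Ω) :
    ∀ᶠ K : KSpace Ω in residual (KSpace Ω), ∀ K₀ : KSpace Ω,
      lowerMinkowski (K.1 : Set (E n)) ≤ lowerMinkowski (K₀.1 : Set (E n)) := by
  filter_upwards [typical_limsup hΩ] with K hK K₀
  unfold lowerMinkowski
  exact EReal.sub_le_sub le_rfl ((limsup_le_expo Ω K₀).trans hK)

end Pool.Agent.Q93.TypK
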