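import Pool.Agent.Q93.TypK4

open MeasureTheory Metric Set Filter Topology TopologicalSpace
open scoped ENNReal NNReal

namespace Pool.Agent.Q93.TypK

variable {n : ℕ}

/-- The content of `K` for the gauge `h`: the infimum of `∑ h (r i)` over the finite covers of `K`
by balls of radii `r i ≤ 1`. -/
noncomputable def content (h : ℝ → ℝ) (K : Set (E n)) : ℝ≥0∞ :=
  sInf {c | ∃ (ι : Type) (_ : Fintype ι) (x : ι → E n) (r : ι → ℝ),
    (∀ i, 0 < r i ∧ r i ≤ 1) ∧ K ⊆ ⋃ i, ball (x i) (r i) ∧ c = ∑ i, ENNReal.ofReal (h (r i))}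

lemma content_lt_of_cheap {h : ℝ → ℝ} (hh : ∀ r, 0 < r → r ≤ 1 → 0 ≤ h r) {K : Set (E n)} {ε : ℝ}
    (hε : 0 < ε) (hK : Cheap h K ε) : content h K < ENNReal.ofReal ε := by
  obtain ⟨ι, hι, x, r, hr, hcov, hsum⟩ := hK
  refine sInf_lt_iff.2 ⟨_, ⟨ι, hι, x, r, hr, hcov, rfl⟩, ?_⟩
  rw [← ENNReal.ofReal_sum_of_nonneg fun i _ => hh _ (hr i).1 (hr i).2]
  exact (ENNReal.ofReal_lt_ofReal_iff hε).2 hsum

lemma cheap_of_content_lt {h : ℝ → ℝ} (hh : ∀ r, 0 < r → r ≤ 1 → 0 ≤ h r) {K : Set (E n)} {ε : ℝ}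
    (hK : content h K < ENNReal.ofReal ε) : Cheap h K ε := by
  obtain ⟨c, ⟨ι, hι, x, r, hr, hcov, rfl⟩, hc⟩ := sInf_lt_iff.1 hK
  refine ⟨ι, hι, x, r, hr, hcov, ?_⟩
  rw [← ENNReal.ofReal_sum_of_nonneg fun i _ => hh _ (hr i).1 (hr i).2] at hc
  exact (ENNReal.ofReal_lt_ofReal_iff (ENNReal.ofReal_pos.1 (bot_le.trans_lt hc))).1 hc

/-- Zero-one law for contents. -/
theorem content_zero_one {Ω : Set (E n)} (hΩ : Bornology.IsBounded Ω) {h : ℝ → ℝ}
    (hh : ∀ r, 0 < r → r ≤ 1 → 0 ≤ h r) (hsmall : ∀ ε > 0, ∃ r, 0 < r ∧ r ≤ 1 ∧ h r < ε) :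
    (0 < ⨅ K : KSpace Ω, content h (K.1 : Set (E n))) ∨
    ∀ᶠ K : KSpace Ω in residual (KSpace Ω), content h (K.1 : Set (E n)) = 0 := by
  rcases typical_content hΩ hh hsmall with ⟨c, hc, h1⟩ | h1
  · left
    refine lt_of_lt_of_le (ENNReal.ofReal_pos.2 hc) (le_iInf fun K => ?_)
    exact le_of_not_gt fun h2 => h1 K (cheap_of_content_lt hh h2)
  · right
    filter_upwards [h1] with K hK
    refine le_antisymm (le_of_forall_gt fun c hc => ?_) bot_le
    obtain ⟨q, _, hq1, hq2⟩ := ENNReal.lt_iff_exists_rat_btwn.1 hc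
    have hq : (0 : ℝ) < Real.toNNReal q := by exact_mod_cast hq1
    have h2 := content_lt_of_cheap hh hq (hK _ hq)
    rw [ENNReal.ofReal_coe_nnreal] at h2
    exact h2.trans hq2

lemma not_cheap_of_content {h : ℝ → ℝ} (hh : ∀ r, 0 < r → r ≤ 1 → 0 ≤ h r) {Ω : Set (E n)}
    (hpos : 0 < ⨅ K : KSpace Ω, content h (K.1 : Set (E n))) (K : KSpace Ω) :
    ¬ ∀ ε > 0, Cheap h (K.1 : Set (E n)) ε := by
  intro hK
  obtain ⟨q, _, hq1, hq2⟩ := ENNReal.lt_iff_exists_rat_btwn.1 hpos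
  have hq : (0 : ℝ) < Real.toNNReal q := by exact_mod_cast hq1
  have h2 := content_lt_of_cheap hh hq (hK _ hq)
  rw [ENNReal.ofReal_coe_nnreal] at h2
  exact absurd (h2.trans (hq2.trans_le (iInf_le _ K))) (lt_irrefl _)

lemma dimH_le_n (K : Set (E n)) : dimH K ≤ n := by
  have h := dimH_mono (subset_univ K)
  rw [Real.dimH_univ_eq_finrank, finrank_euclideanSpace, Fintype.card_fin] at h
  exact h

theorem kspace_nonempty {Ω : Set (E n)} (hΩ : Bornology.IsBounded Ω) : Nonempty (KSpace Ω) := by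
  obtain ⟨R, hR⟩ := hΩ.subset_closedBall 0
  refine ⟨⟨⟨⟨closedBall 0 (max R 0), isCompact_closedBall _ _⟩,
    ⟨0, mem_closedBall_self (le_max_right _ _)⟩⟩, fun ω hω => ⟨0, fun t ht => ?_⟩⟩⟩
  show 0 + t • ω ∈ closedBall (0 : E n) (max R 0)
  have h1 := hR hω
  rw [mem_closedBall_zero_iff] at h1 ⊢
  rw [zero_add, norm_smul, Real.norm_eq_abs, abs_of_nonneg ht.1]
  have := norm_nonneg ω
  calc t * ‖ω‖ ≤ 1 * ‖ω‖ := by gcongr; exact ht.2
    _ ≤ max R 0 := by rw [one_mul]; exact h1.trans (le_max_left _ _)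

/-- Typical sets exist. -/
lemma exists_of_typical {Ω : Set (E n)} (hΩ : Bornology.IsBounded Ω) {P : KSpace Ω → Prop}
    (h : ∀ᶠ K : KSpace Ω in residual (KSpace Ω), P K) : ∃ K, P K := by
  have := kspace_nonempty hΩ
  exact (dense_of_mem_residual h).nonempty

/-- Hausdorff form: uniform lower bounds. -/
theorem dimH_uniform {Ω : Set (E n)} (hΩ : Bornology.IsBounded Ω) :
    (∀ K : KSpace Ω, dimH (K.1 : Set (E n)) = n) ↔
    ∀ s : ℝ, 0 < s → s < n → 0 < ⨅ K : KSpace Ω, content (fun r => r ^ s) (K.1 : Set (E n)) := by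
  have hh : ∀ s : ℝ, ∀ r : ℝ, 0 < r → r ≤ 1 → 0 ≤ r ^ s := fun s r hr _ => Real.rpow_nonneg hr.le _
  constructor
  · intro hall s hs hsn
    by_contra hcon
    rcases typical_hausdorff hΩ hs with ⟨c, hc, h1⟩ | h1
    · refine hcon (lt_of_lt_of_le (ENNReal.ofReal_pos.2 hc) (le_iInf fun K => ?_))
      exact le_of_not_gt fun h2 => h1 K (cheap_of_content_lt (hh s) h2)
    · obtain ⟨K, hK⟩ := exists_of_typical hΩ h1
      have h2 : dimH (K.1 : Set (E n)) ≤ (Real.toNNReal s : ℝ≥0∞) := by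
        refine dimH_le_of_hausdorffMeasure_ne_top ?_
        rw [Real.coe_toNNReal _ hs.le, hK]; exact ENNReal.zero_ne_top
      rw [hall K] at h2
      have h3 : (n : ℝ≥0) ≤ Real.toNNReal s := by exact_mod_cast h2
      have h4 : (n : ℝ) ≤ s := by
        have := NNReal.coe_le_coe.2 h3
        rwa [Real.coe_toNNReal _ hs.le, NNReal.coe_natCast] at this
      linarith
  · intro hall K
    refine le_antisymm (dimH_le_n _) (le_of_not_gt fun hlt => ?_)
    obtain ⟨q, hq0, h1, h2⟩ := ENNReal.lt_iff_exists_rat_btwn.1 hlt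
    have hq : (0 : ℝ) < Real.toNNReal q := by
      have : (0 : ℝ≥0∞) < (Real.toNNReal q : ℝ≥0∞) := bot_le.trans_lt h1
      exact_mod_cast this
    have hqn : (Real.toNNReal q : ℝ) < n := by
      have : (Real.toNNReal q : ℝ≥0) < (n : ℝ≥0) := by exact_mod_cast h2
      exact_mod_cast this
    have hmu : μH[(Real.toNNReal q : ℝ)] (K.1 : Set (E n)) = 0 := hausdorffMeasure_of_dimH_lt h1
    exact not_cheap_of_content (hh _) (hall _ hq hqn) K
      fun ε hε => cheap_of_hausdorff_zero hq K.1.isCompact hmu hε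

lemma not_meagre_univ {Ω : Set (E n)} (hΩ : Bornology.IsBounded Ω) {s : Set (KSpace Ω)}
    (hs : ∀ K, K ∈ s) : ¬ IsMeagre s := by
  intro h
  obtain ⟨K, hK⟩ := exists_of_typical hΩ (P := fun K => K ∈ sᶜ) h
  exact hK (hs K)

/-- Hausdorff form: generic validity. -/
theorem dimH_generic {Ω : Set (E n)} (hΩ : Bornology.IsBounded Ω) :
    (∀ K : KSpace Ω, dimH (K.1 : Set (E n)) = n) ↔
    ¬ IsMeagre {K : KSpace Ω | dimH (K.1 : Set (E n)) = n} := by
  refine ⟨fun h => not_meagre_univ hΩ h, fun h => ?_⟩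
  by_contra hcon
  push Not at hcon
  obtain ⟨K₀, hK₀⟩ := hcon
  have hlt : dimH (K₀.1 : Set (E n)) < n := lt_of_le_of_ne (dimH_le_n _) hK₀
  refine h ?_
  show _ ∈ residual _
  filter_upwards [typical_dimH hΩ] with K hK
  simp only [mem_compl_iff, Set.mem_ofPred_eq]
  exact ((hK K₀).trans_lt hlt).ne

/-! ### Minkowski dimension -/

lemma tendsto_div_log (c : ℝ) : Tendsto (fun δ : ℝ => c / Real.log δ) (𝓝[>] 0) (𝓝 0) :=
  Real.tendsto_log_nhdsGT_zero.const_div_atBot c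

lemma limsup_nonneg {Ω : Set (E n)} (K : KSpace Ω) :
    0 ≤ limsup (fun δ : ℝ => ((Real.log (volume (cthickening δ (K.1 : Set (E n)))).toReal /
        Real.log δ : ℝ) : EReal)) (𝓝[>] 0) := by
  refine le_of_forall_lt fun c hc => ?_
  obtain ⟨q, h1, h2⟩ := EReal.lt_iff_exists_rat_btwn.1 hc
  refine h1.trans_le ?_
  have hq : (q : ℝ) < 0 := by exact_mod_cast h2
  set C : ℝ := (volume (cthickening 1 (K.1 : Set (E n)))).toReal with hC
  have hev1 : ∀ᶠ δ : ℝ in 𝓝[>] 0, (q : ℝ) < Real.log C / Real.log δ :=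
    (tendsto_div_log _).eventually_const_lt hq
  have hev2 : ∀ᶠ δ : ℝ in 𝓝[>] 0, δ < 1 :=
    (eventually_lt_nhds zero_lt_one).filter_mono nhdsWithin_le_nhds
  refine le_limsup_of_frequently_le (Eventually.frequently ?_) (by isBoundedDefault)
  filter_upwards [hev1, hev2, self_mem_nhdsWithin] with δ h3 h4 h5
  rw [EReal.coe_le_coe_iff]
  have h5' : (0 : ℝ) < δ := h5
  have hlog : Real.log δ < 0 := Real.log_neg h5' h4
  refine h3.le.trans ?_
  refine div_le_div_of_nonpos_of_le hlog.le (Real.log_le_log ?_ ?_)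
  · exact (vmin_toReal_pos Ω K h5').trans_le (vmin_toReal_le Ω K δ)
  · exact ENNReal.toReal_mono (vol_ne_top K 1) (measure_mono (cthickening_mono h4.le _))

lemma lowerMinkowski_le {Ω : Set (E n)} (K : KSpace Ω) :
    lowerMinkowski (K.1 : Set (E n)) ≤ n := by
  unfold lowerMinkowski
  calc (n : EReal) - _ ≤ (n : EReal) - 0 := EReal.sub_le_sub le_rfl (limsup_nonneg K)
    _ = n := by simp

lemma lowerMinkowski_lt {K : Set (E n)} {ε : ℝ} (hε : 0 < ε)
    (h : (ε : EReal) ≤ limsup (fun δ : ℝ => ((Real.log (volume (cthickening δ K)).toReal /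
        Real.log δ : ℝ) : EReal)) (𝓝[>] 0)) : lowerMinkowski K < n := by
  unfold lowerMinkowski
  have h1 : (n : EReal) - (ε : EReal) < n := by
    have : (n : EReal) = ((n : ℝ) : EReal) := by simp
    rw [this, ← EReal.coe_sub, EReal.coe_lt_coe_iff]
    linarith
  exact lt_of_le_of_lt (EReal.sub_le_sub le_rfl h) h1

/-- Minkowski form: uniform lower bounds. -/
theorem mink_uniform {Ω : Set (E n)} (hΩ : Bornology.IsBounded Ω) :
    (∀ K : KSpace Ω, lowerMinkowski (K.1 : Set (E n)) = n) ↔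
    ∀ ε : ℝ, 0 < ε → ∃ c : ℝ, 0 < c ∧ ∀ δ : ℝ, 0 < δ → δ ≤ 1 → ∀ K : KSpace Ω,
      ENNReal.ofReal (c * δ ^ ε) ≤ volume (cthickening δ (K.1 : Set (E n))) := by
  constructor
  · intro hall ε hε
    by_contra hcon
    push Not at hcon
    have hcon' : ∀ k : ℕ, ∃ δ : ℝ, 0 < δ ∧ δ ≤ 1 ∧ ∃ K : KSpace Ω,
        volume (cthickening δ (K.1 : Set (E n))) < ENNReal.ofReal (1 / ((k : ℝ) + 1) * δ ^ ε) :=
      fun k => hcon _ (by positivity)
    choose δ hδ hδ1 K₀ hK₀ using hcon'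
    have hδ0 : Tendsto δ atTop (𝓝 0) := by
      rw [Metric.tendsto_atTop]
      intro η hη
      have hv : 0 < volume (closedBall (0 : E n) η) := measure_closedBall_pos _ _ hη
      have hlim : Tendsto (fun k : ℕ => ENNReal.ofReal (1 / ((k : ℝ) + 1))) atTop
          (𝓝 (ENNReal.ofReal 0)) :=
        (ENNReal.continuous_ofReal.tendsto 0).comp tendsto_one_div_add_atTop_nhds_zero_nat
      rw [ENNReal.ofReal_zero] at hlim
      obtain ⟨N, hN⟩ := (hlim.eventually_lt_const hv).exists_forall_of_atTop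
      refine ⟨N, fun k hk => ?_⟩
      rw [Real.dist_eq, sub_zero, abs_of_pos (hδ k)]
      refine lt_of_not_ge fun hge => ?_
      have h1 : volume (closedBall (0 : E n) η) ≤ vmin Ω (δ k) :=
        (measure_mono (closedBall_subset_closedBall hge)).trans (ball_le_vmin Ω (hδ k).le)
      have h2 : vmin Ω (δ k) < ENNReal.ofReal (1 / ((k : ℝ) + 1) * δ k ^ ε) :=
        (vmin_le Ω _ (K₀ k)).trans_lt (hK₀ k)
      have h3 : ENNReal.ofReal (1 / ((k : ℝ) + 1) * δ k ^ ε) ≤ ENNReal.ofReal (1 / ((k : ℝ) + 1)) := by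
        refine ENNReal.ofReal_le_ofReal ?_
        have : δ k ^ ε ≤ 1 := Real.rpow_le_one (hδ k).le (hδ1 k) hε.le
        have h4 : (0 : ℝ) < 1 / ((k : ℝ) + 1) := by positivity
        nlinarith
      exact absurd (h1.trans (h2.le.trans h3)) (not_le.2 (hN k hk))
    have hψ : Tendsto (fun k : ℕ => (k : ℝ) + 1) atTop atTop :=
      tendsto_atTop_add_const_right _ _ tendsto_natCast_atTop_atTop
    obtain ⟨K, hK⟩ := exists_of_typical hΩ (typical_volume hΩ hδ hδ0 hψ)
    refine (lowerMinkowski_lt (K := (K.1 : Set (E n))) hε ?_).ne (hall K)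
    have hδl : Tendsto δ atTop (𝓝[>] 0) := tendsto_nhdsWithin_iff.2
      ⟨hδ0, Eventually.of_forall hδ⟩
    refine le_limsup_of_frequently_le (hδl.frequently ?_) (by isBoundedDefault)
    have hev : ∀ᶠ k in atTop, δ k < 1 := hδ0.eventually_lt_const one_pos
    refine (hK.and_eventually hev).mono fun k hk => ?_
    obtain ⟨h1, h2⟩ := hk
    rw [EReal.coe_le_coe_iff]
    have hlog : Real.log (δ k) < 0 := Real.log_neg (hδ k) h2
    have h3 : volume (cthickening (δ k) (K.1 : Set (E n))) < ENNReal.ofReal (δ k ^ ε) := by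
      refine h1.trans_le ?_
      have h4 : vmin Ω (δ k) ≤ ENNReal.ofReal (1 / ((k : ℝ) + 1) * δ k ^ ε) :=
        (vmin_le Ω _ (K₀ k)).trans (hK₀ k).le
      calc ENNReal.ofReal ((k : ℝ) + 1) * vmin Ω (δ k)
          ≤ ENNReal.ofReal ((k : ℝ) + 1) * ENNReal.ofReal (1 / ((k : ℝ) + 1) * δ k ^ ε) := by
            gcongr
        _ = ENNReal.ofReal (δ k ^ ε) := by
            rw [← ENNReal.ofReal_mul (by positivity)]
            congr 1
            field_simp
    have hpos : 0 < (volume (cthickening (δ k) (K.1 : Set (E n)))).toReal :=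
      (vmin_toReal_pos Ω K (hδ k)).trans_le (vmin_toReal_le Ω K _)
    have h5 : (volume (cthickening (δ k) (K.1 : Set (E n)))).toReal < δ k ^ ε := by
      have := (ENNReal.toReal_lt_toReal (vol_ne_top K _) ENNReal.ofReal_ne_top).2 h3
      rwa [ENNReal.toReal_ofReal (Real.rpow_nonneg (hδ k).le _)] at this
    have h6 := Real.log_lt_log hpos h5
    rw [Real.log_rpow (hδ k)] at h6
    rw [le_div_iff_of_neg hlog]
    exact h6.le
  · intro hall K
    have h0 : limsup (fun δ : ℝ => ((Real.log (volume (cthickening δ (K.1 : Set (E n)))).toReal /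
        Real.log δ : ℝ) : EReal)) (𝓝[>] 0) ≤ 0 := by
      refine le_of_forall_gt fun c hc => ?_
      obtain ⟨q, h1, h2⟩ := EReal.lt_iff_exists_rat_btwn.1 hc
      have hq : (0 : ℝ) < q := by exact_mod_cast h1
      refine lt_of_le_of_lt ?_ h2
      obtain ⟨c', hc', hall'⟩ := hall (q / 2) (by positivity)
      refine limsup_le_of_le (by isBoundedDefault) ?_
      have hev1 : ∀ᶠ δ : ℝ in 𝓝[>] 0, Real.log c' / Real.log δ < (q : ℝ) / 2 :=
        (tendsto_div_log _).eventually_lt_const (by positivity)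
      have hev2 : ∀ᶠ δ : ℝ in 𝓝[>] 0, δ < 1 :=
        (eventually_lt_nhds zero_lt_one).filter_mono nhdsWithin_le_nhds
      filter_upwards [hev1, hev2, self_mem_nhdsWithin] with δ h3 h4 h5
      have h5' : (0 : ℝ) < δ := h5
      have hlog : Real.log δ < 0 := Real.log_neg h5' h4
      rw [EReal.coe_le_coe_iff]
      have h6 : c' * δ ^ ((q : ℝ) / 2) ≤ (volume (cthickening δ (K.1 : Set (E n)))).toReal := by
        have := ENNReal.toReal_mono (vol_ne_top K _) (hall' δ h5' h4.le K)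
        rwa [ENNReal.toReal_ofReal (by positivity)] at this
      have h7 := Real.log_le_log (by positivity) h6
      rw [Real.log_mul hc'.ne' (Real.rpow_pos_of_pos h5' _).ne', Real.log_rpow h5'] at h7
      have h8 : Real.log (volume (cthickening δ (K.1 : Set (E n)))).toReal / Real.log δ ≤
          (Real.log c' + (q : ℝ) / 2 * Real.log δ) / Real.log δ :=
        div_le_div_of_nonpos_of_le hlog.le h7
      rw [add_div, mul_div_assoc, div_self hlog.ne, mul_one] at h8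
      linarith
    have h1 : limsup (fun δ : ℝ => ((Real.log (volume (cthickening δ (K.1 : Set (E n)))).toReal /
        Real.log δ : ℝ) : EReal)) (𝓝[>] 0) = 0 := le_antisymm h0 (limsup_nonneg K)
    unfold lowerMinkowski
    rw [h1]; simp

/-- Minkowski form: generic validity. -/
theorem mink_generic {Ω : Set (E n)} (hΩ : Bornology.IsBounded Ω) :
    (∀ K : KSpace Ω, lowerMinkowski (K.1 : Set (E n)) = n) ↔
    ¬ IsMeagre {K : KSpace Ω | lowerMinkowski (K.1 : Set (E n)) = n} := by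
  refine ⟨fun h => not_meagre_univ hΩ h, fun h => ?_⟩
  by_contra hcon
  push Not at hcon
  obtain ⟨K₀, hK₀⟩ := hcon
  have hlt : lowerMinkowski (K₀.1 : Set (E n)) < n := lt_of_le_of_ne (lowerMinkowski_le K₀) hK₀
  refine h ?_
  show _ ∈ residual _
  filter_upwards [typical_lowerMinkowski hΩ] with K hK
  simp only [mem_compl_iff, Set.mem_ofPred_eq]
  exact ((hK K₀).trans_lt hlt).ne

end Pool.Agent.Q93.TypK
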