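import Pool.Agent.Q93.TypK5

open MeasureTheory Metric Set Filter Topology TopologicalSpace
open scoped ENNReal NNReal

namespace Pool.Agent.Q93.TypK

variable {n : ℕ}

/-- An open set with segments in all directions of a compact set `Ω` contains a compact one. -/
lemma exists_compact_subset {Ω : Set (E n)} (hΩc : IsCompact Ω) (hne : Ω.Nonempty) {G : Set (E n)}
    (hG : IsOpen G) (hGs : HasSegments Ω G) : ∃ K : KSpace Ω, (K.1 : Set (E n)) ⊆ G := by
  classical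
  have h1 : ∀ ω : Ω, ∃ (a : E n) (δ : ℝ), 0 < δ ∧
      ∀ ω' ∈ closedBall ω.1 δ, ∀ t ∈ Icc (0 : ℝ) 1, a + t • ω' ∈ G := by
    rintro ⟨ω, hω⟩
    obtain ⟨a, ha⟩ := hGs ω hω
    have hS : IsCompact ((fun t : ℝ => a + t • ω) '' Icc (0 : ℝ) 1) :=
      isCompact_Icc.image (by fun_prop)
    obtain ⟨δ, hδ, h2⟩ := hS.exists_thickening_subset_open hG (by
      rintro _ ⟨t, ht, rfl⟩; exact ha t ht)
    refine ⟨a, δ / 2, by positivity, fun ω' hω' t ht => h2 ?_⟩
    rw [mem_thickening_iff]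
    refine ⟨a + t • ω, ⟨t, ht, rfl⟩, ?_⟩
    rw [dist_add_left, dist_eq_norm, ← smul_sub, norm_smul, Real.norm_eq_abs, abs_of_nonneg ht.1]
    rw [mem_closedBall, dist_eq_norm] at hω'
    have h3 := norm_nonneg (ω' - ω)
    have h4 : t * ‖ω' - ω‖ ≤ 1 * ‖ω' - ω‖ := by gcongr; exact ht.2
    linarith
  choose a δ hδ hsub using h1
  obtain ⟨I, hI⟩ := hΩc.elim_finite_subcover (fun ω : Ω => ball ω.1 (δ ω)) (fun _ => isOpen_ball)
    (fun ω hω => mem_iUnion.2 ⟨⟨ω, hω⟩, mem_ball_self (hδ _)⟩)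
  set K : Set (E n) := ⋃ ω ∈ I, (fun p : ℝ × E n => a ω + p.1 • p.2) ''
    (Icc (0 : ℝ) 1 ×ˢ (Ω ∩ closedBall ω.1 (δ ω))) with hK
  have hcomp : IsCompact K := by
    refine I.finite_toSet.isCompact_biUnion fun ω _ => ?_
    refine IsCompact.image (isCompact_Icc.prod (hΩc.inter_right isClosed_closedBall)) ?_
    fun_prop
  have hsegs : HasSegments Ω K := by
    intro ω hω
    have h2 := hI hω
    simp only [mem_iUnion, exists_prop] at h2
    obtain ⟨ω₀, hω₀, h3⟩ := h2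
    refine ⟨a ω₀, fun t ht => ?_⟩
    rw [hK]
    simp only [mem_iUnion, exists_prop]
    exact ⟨ω₀, hω₀, (t, ω), ⟨ht, hω, ball_subset_closedBall h3⟩, rfl⟩
  have hKne : K.Nonempty := by
    obtain ⟨ω, hω⟩ := hne
    obtain ⟨b, hb⟩ := hsegs ω hω
    exact ⟨_, hb 0 (by simp)⟩
  refine ⟨⟨⟨⟨K, hcomp⟩, hKne⟩, hsegs⟩, ?_⟩
  intro y hy
  change y ∈ K at hy
  rw [hK] at hy
  simp only [mem_iUnion, exists_prop] at hy
  obtain ⟨ω, _, ⟨t, ω'⟩, ⟨ht, hω'⟩, rfl⟩ := hy
  exact hsub ω ω' hω'.2 t ht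

/-- The content of `K` for the gauge `h`: the infimum of `∑ h (r i)` over the countable covers of
`K` by balls of radii `r i ≤ 1`. -/
noncomputable def gcontent (h : ℝ → ℝ) (K : Set (E n)) : ℝ≥0∞ :=
  sInf {c | ∃ (ι : Type) (_ : Countable ι) (x : ι → E n) (r : ι → ℝ),
    (∀ i, 0 < r i ∧ r i ≤ 1) ∧ K ⊆ ⋃ i, ball (x i) (r i) ∧ c = ∑' i, ENNReal.ofReal (h (r i))}

lemma gcontent_lt_of_cheap {h : ℝ → ℝ} (hh : ∀ r, 0 < r → r ≤ 1 → 0 ≤ h r) {K : Set (E n)} {ε : ℝ}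
    (hε : 0 < ε) (hK : Cheap h K ε) : gcontent h K < ENNReal.ofReal ε := by
  obtain ⟨ι, hι, x, r, hr, hcov, hsum⟩ := hK
  refine sInf_lt_iff.2 ⟨_, ⟨ι, inferInstance, x, r, hr, hcov, rfl⟩, ?_⟩
  rw [tsum_fintype, ← ENNReal.ofReal_sum_of_nonneg fun i _ => hh _ (hr i).1 (hr i).2]
  exact (ENNReal.ofReal_lt_ofReal_iff hε).2 hsum

/-- A set with segments in all directions of `Ω` and of small content gives an element of the space
with a cheap cover. -/
lemma cheap_of_gcontent_lt {Ω : Set (E n)} (hΩc : IsCompact Ω) (hne : Ω.Nonempty) {h : ℝ → ℝ}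
    (hh : ∀ r, 0 < r → r ≤ 1 → 0 ≤ h r) {K' : Set (E n)} (hK' : HasSegments Ω K') {ε : ℝ}
    (hlt : gcontent h K' < ENNReal.ofReal ε) : ∃ K : KSpace Ω, Cheap h (K.1 : Set (E n)) ε := by
  obtain ⟨c, ⟨ι, hι, x, r, hr, hcov, rfl⟩, hc⟩ := sInf_lt_iff.1 hlt
  obtain ⟨K, hK⟩ := exists_compact_subset hΩc hne (G := ⋃ i, ball (x i) (r i))
    (isOpen_iUnion fun _ => isOpen_ball) (fun ω hω => by
      obtain ⟨a, ha⟩ := hK' ω hω
      exact ⟨a, fun t ht => hcov (ha t ht)⟩)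
  refine ⟨K, ?_⟩
  obtain ⟨I, hI⟩ := K.1.isCompact.elim_finite_subcover (fun j => ball (x j) (r j))
    (fun j => isOpen_ball) hK
  refine ⟨I, inferInstance, fun j => x j.1, fun j => r j.1, fun j => hr _, ?_, ?_⟩
  · refine hI.trans ?_
    intro y hy
    simp only [mem_iUnion, exists_prop] at hy ⊢
    obtain ⟨j, hj, hy⟩ := hy
    exact ⟨⟨j, hj⟩, hy⟩
  · rw [Finset.sum_coe_sort I (fun j => h (r j))]
    have h1 : ENNReal.ofReal (∑ j ∈ I, h (r j)) < ENNReal.ofReal ε := by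
      rw [ENNReal.ofReal_sum_of_nonneg fun i _ => hh _ (hr i).1 (hr i).2]
      exact (ENNReal.sum_le_tsum I).trans_lt hc
    exact (ENNReal.ofReal_lt_ofReal_iff (ENNReal.ofReal_pos.1 (bot_le.trans_lt h1))).1 h1

/-- Zero-one law for contents; the first alternative is for arbitrary sets. -/
theorem gcontent_zero_one {Ω : Set (E n)} (hΩc : IsCompact Ω) (hne : Ω.Nonempty) {h : ℝ → ℝ}
    (hh : ∀ r, 0 < r → r ≤ 1 → 0 ≤ h r) (hsmall : ∀ ε > 0, ∃ r, 0 < r ∧ r ≤ 1 ∧ h r < ε) :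
    (∃ c : ℝ≥0∞, 0 < c ∧ ∀ K : Set (E n), HasSegments Ω K → c ≤ gcontent h K) ∨
    ∀ᶠ K : KSpace Ω in residual (KSpace Ω), gcontent h (K.1 : Set (E n)) = 0 := by
  rcases typical_content hΩc.isBounded hh hsmall with ⟨c, hc, h1⟩ | h1
  · left
    refine ⟨ENNReal.ofReal c, ENNReal.ofReal_pos.2 hc, fun K hK => ?_⟩
    refine le_of_not_gt fun h2 => ?_
    obtain ⟨K₀, hK₀⟩ := cheap_of_gcontent_lt hΩc hne hh hK h2
    exact h1 K₀ hK₀
  · right
    filter_upwards [h1] with K hK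
    refine le_antisymm (le_of_forall_gt fun c hc => ?_) bot_le
    obtain ⟨q, _, hq1, hq2⟩ := ENNReal.lt_iff_exists_rat_btwn.1 hc
    have hq : (0 : ℝ) < Real.toNNReal q := by exact_mod_cast hq1
    have h2 := gcontent_lt_of_cheap hh hq (hK _ hq)
    rw [ENNReal.ofReal_coe_nnreal] at h2
    exact h2.trans hq2

/-- A set of Hausdorff measure zero has content zero. -/
lemma gcontent_of_hausdorff_zero {s : ℝ} (hs : 0 < s) {K : Set (E n)}
    (hK : μH[s] K = 0) : gcontent (fun r => r ^ s) K = 0 := by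
  refine le_antisymm (le_of_forall_gt fun c hc => ?_) bot_le
  obtain ⟨q, _, hq1, hq2⟩ := ENNReal.lt_iff_exists_rat_btwn.1 hc
  have hε : (0 : ℝ) < Real.toNNReal q := by exact_mod_cast hq1
  set ε : ℝ := ((Real.toNNReal q : ℝ≥0) : ℝ) with hεdef
  refine lt_of_lt_of_le ?_ hq2.le
  rw [Measure.hausdorffMeasure_apply] at hK
  have h1 : (⨅ (t : ℕ → Set (E n)) (_ : K ⊆ ⋃ n, t n)
      (_ : ∀ n, ediam (t n) ≤ ENNReal.ofReal (1 / 2)),
        ∑' n, ⨆ _ : (t n).Nonempty, ediam (t n) ^ s) = 0 := by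
    have h2 := iSup_eq_bot.1 hK (ENNReal.ofReal (1 / 2))
    have h3 := iSup_eq_bot.1 h2 (by simp)
    exact h3
  have h2 : (⨅ (t : ℕ → Set (E n)) (_ : K ⊆ ⋃ n, t n)
      (_ : ∀ n, ediam (t n) ≤ ENNReal.ofReal (1 / 2)),
        ∑' n, ⨆ _ : (t n).Nonempty, ediam (t n) ^ s) < ENNReal.ofReal (ε / 2) := by
    rw [h1]; simpa using hε
  simp only [iInf_lt_iff] at h2
  obtain ⟨t, ht, htd, hsum⟩ := h2
  set a : ℕ → ℝ≥0∞ := fun n => ⨆ _ : (t n).Nonempty, ediam (t n) ^ s with ha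
  have haT : ∑' n, a n ≠ ⊤ := (hsum.trans ENNReal.ofReal_lt_top).ne
  have ha1 : ∀ n, a n ≠ ⊤ := ENNReal.ne_top_of_tsum_ne_top haT
  have key : ∀ j : ℕ, ∃ (x : E n) (r : ℝ), 0 < r ∧ r ≤ 1 ∧ t j ⊆ ball x r ∧
      r ^ s ≤ (a j).toReal + ε / 4 * (1 / 2) ^ j := by
    intro j
    have hρ : 0 < ε / 4 * (1 / 2 : ℝ) ^ j := by positivity
    have hdt : ediam (t j) ≠ ⊤ := ((htd j).trans_lt ENNReal.ofReal_lt_top).ne
    rcases (t j).eq_empty_or_nonempty with he | hne
    · obtain ⟨r, h1, h2, h3⟩ := exists_radius hs le_rfl (by norm_num) hρ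
      refine ⟨0, r, h1, h2, by rw [he]; exact empty_subset _, ?_⟩
      rw [Real.zero_rpow hs.ne'] at h3
      linarith [ENNReal.toReal_nonneg (a := a j)]
    · obtain ⟨x, hx⟩ := hne
      have hd1 : diam (t j) ≤ 1 / 2 := by
        rw [diam]
        exact ENNReal.toReal_le_of_le_ofReal (by norm_num) (htd j)
      obtain ⟨r, h1, h2, h3⟩ := exists_radius hs (diam_nonneg (s := t j)) hd1 hρ
      have haj : (a j).toReal = diam (t j) ^ s := by
        have : a j = ediam (t j) ^ s := by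
          simp only [ha]
          exact iSup_pos (p := (t j).Nonempty) ⟨x, hx⟩
        rw [this, ← ENNReal.toReal_rpow]; rfl
      refine ⟨x, r, diam_nonneg.trans_lt h1, h2, ?_, by rw [haj]; exact h3⟩
      intro y hy
      rw [mem_ball]
      refine lt_of_le_of_lt ?_ h1
      have hb : Bornology.IsBounded (t j) := isBounded_iff_ediam_ne_top.2 hdt
      exact dist_le_diam_of_mem hb hy hx
  choose x r hr hr1 htb hrs using key
  refine sInf_lt_iff.2 ⟨_, ⟨ℕ, inferInstance, x, r, fun j => ⟨hr j, hr1 j⟩,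
    ht.trans (iUnion_mono htb), rfl⟩, ?_⟩
  have hsg : Summable (fun j : ℕ => ε / 4 * (1 / 2 : ℝ) ^ j) := summable_geometric_two.mul_left _
  calc ∑' j, ENNReal.ofReal (r j ^ s)
      ≤ ∑' j, (a j + ENNReal.ofReal (ε / 4 * (1 / 2 : ℝ) ^ j)) := by
        refine ENNReal.tsum_le_tsum fun j => ?_
        refine (ENNReal.ofReal_le_ofReal (hrs j)).trans ?_
        rw [ENNReal.ofReal_add ENNReal.toReal_nonneg (by positivity),
          ENNReal.ofReal_toReal (ha1 j)]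
    _ = ∑' j, a j + ENNReal.ofReal (ε / 2) := by
        rw [ENNReal.tsum_add, ← ENNReal.ofReal_tsum_of_nonneg (fun j => by positivity) hsg,
          tsum_mul_left, tsum_geometric_two]
        congr 2
        ring
    _ < ENNReal.ofReal (ε / 2) + ENNReal.ofReal (ε / 2) :=
        ENNReal.add_lt_add_right ENNReal.ofReal_ne_top hsum
    _ = ENNReal.ofReal ε := by
        rw [← ENNReal.ofReal_add (by positivity) (by positivity)]
        congr 1; ring
    _ = (Real.toNNReal q : ℝ≥0∞) := by rw [hεdef, ENNReal.ofReal_coe_nnreal]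

/-- Zero-one law for Hausdorff measures; the first alternative is for arbitrary sets. -/
theorem hausdorff_zero_one {Ω : Set (E n)} (hΩc : IsCompact Ω) (hne : Ω.Nonempty) {s : ℝ}
    (hs : 0 < s) :
    (∃ c : ℝ≥0∞, 0 < c ∧ ∀ K : Set (E n), HasSegments Ω K → c ≤ gcontent (fun r => r ^ s) K) ∨
    ∀ᶠ K : KSpace Ω in residual (KSpace Ω), μH[s] (K.1 : Set (E n)) = 0 := by
  rcases typical_hausdorff hΩc.isBounded hs with ⟨c, hc, h1⟩ | h1
  · left
    refine ⟨ENNReal.ofReal c, ENNReal.ofReal_pos.2 hc, fun K hK => ?_⟩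
    refine le_of_not_gt fun h2 => ?_
    obtain ⟨K₀, hK₀⟩ := cheap_of_gcontent_lt hΩc hne
      (fun r hr _ => Real.rpow_nonneg hr.le _) hK h2
    exact h1 K₀ hK₀
  · exact Or.inr h1

/-- **Typical sets have the smallest Hausdorff dimension of all, also non-compact, sets.** -/
theorem typical_dimH' {Ω : Set (E n)} (hΩc : IsCompact Ω) (hne : Ω.Nonempty) :
    ∀ᶠ K : KSpace Ω in residual (KSpace Ω), ∀ K' : Set (E n), HasSegments Ω K' →
      dimH (K.1 : Set (E n)) ≤ dimH K' := by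
  set s₀ : ℝ≥0∞ := ⨅ K' : {K' : Set (E n) // HasSegments Ω K'}, dimH K'.1 with hs₀
  have key : ∀ q : ℚ, ∀ᶠ K : KSpace Ω in residual (KSpace Ω),
      s₀ < (Real.toNNReal q : ℝ≥0∞) → dimH (K.1 : Set (E n)) ≤ (Real.toNNReal q : ℝ≥0∞) := by
    intro q
    by_cases hq : s₀ < (Real.toNNReal q : ℝ≥0∞)
    · obtain ⟨K₀, hK₀⟩ := iInf_lt_iff.1 hq
      have hqpos : (0 : ℝ) < Real.toNNReal q := by
        have : (0 : ℝ≥0∞) < (Real.toNNReal q : ℝ≥0∞) := bot_le.trans_lt hq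
        exact_mod_cast this
      have hmu : μH[(Real.toNNReal q : ℝ)] K₀.1 = 0 := hausdorffMeasure_of_dimH_lt hK₀
      rcases hausdorff_zero_one hΩc hne hqpos with ⟨c, hc, h⟩ | h
      · have h2 := h K₀.1 K₀.2
        rw [gcontent_of_hausdorff_zero hqpos hmu] at h2
        exact absurd h2 (not_le.2 hc)
      · filter_upwards [h] with K hK _
        refine dimH_le_of_hausdorffMeasure_ne_top ?_
        rw [hK]; exact ENNReal.zero_ne_top
    · exact Eventually.of_forall fun K h => absurd h hq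
  filter_upwards [eventually_countable_forall.2 key] with K hK K' hK'
  refine le_trans ?_ (iInf_le (fun K' : {K' : Set (E n) // HasSegments Ω K'} => dimH K'.1) ⟨K', hK'⟩)
  refine le_of_not_gt fun hlt => ?_
  obtain ⟨q, _, h1, h2⟩ := ENNReal.lt_iff_exists_rat_btwn.1 hlt
  exact absurd (hK q h1) (not_le.2 h2)

/-- Full dimension for compact sets is the same as full dimension for all sets. -/
theorem dimH_arbitrary {Ω : Set (E n)} (hΩc : IsCompact Ω) (hne : Ω.Nonempty) :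
    (∀ K : KSpace Ω, dimH (K.1 : Set (E n)) = n) ↔
    ∀ K : Set (E n), HasSegments Ω K → dimH K = n := by
  constructor
  · intro h K hK
    obtain ⟨K₀, hK₀⟩ := exists_of_typical hΩc.isBounded (typical_dimH' hΩc hne)
    refine le_antisymm (dimH_le_n _) ?_
    rw [← h K₀]
    exact hK₀ K hK
  · intro h K
    exact h _ K.2

/-- Hausdorff form: uniform lower bounds, for arbitrary sets. -/
theorem dimH_uniform' {Ω : Set (E n)} (hΩc : IsCompact Ω) (hne : Ω.Nonempty) :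
    (∀ K : KSpace Ω, dimH (K.1 : Set (E n)) = n) ↔
    ∀ s : ℝ, 0 < s → s < n → ∃ c : ℝ≥0∞, 0 < c ∧
      ∀ K : Set (E n), HasSegments Ω K → c ≤ gcontent (fun r => r ^ s) K := by
  constructor
  · intro hall s hs hsn
    rcases hausdorff_zero_one hΩc hne hs with h1 | h1
    · exact h1
    · exfalso
      obtain ⟨K, hK⟩ := exists_of_typical hΩc.isBounded h1
      have h2 : dimH (K.1 : Set (E n)) ≤ (Real.toNNReal s : ℝ≥0∞) := by
        refine dimH_le_of_hausdorffMeasure_ne_top ?_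
        rw [Real.coe_toNNReal _ hs.le, hK]; exact ENNReal.zero_ne_top
      rw [hall K] at h2
      have h3 : (n : ℝ≥0) ≤ Real.toNNReal s := by exact_mod_cast h2
      have h4 : (n : ℝ) ≤ s := by
        have := NNReal.coe_le_coe.2 h3
        rwa [Real.coe_toNNReal _ hs.le, NNReal.coe_natCast] at this
      linarith
  · intro hall K
    refine le_antisymm (dimH_le_n _) (le_of_not_gt fun hlt => ?_)
    obtain ⟨q, hq0, h1, h2⟩ := ENNReal.lt_iff_exists_rat_btwn.1 hlt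
    have hq : (0 : ℝ) < Real.toNNReal q := by
      have : (0 : ℝ≥0∞) < (Real.toNNReal q : ℝ≥0∞) := bot_le.trans_lt h1
      exact_mod_cast this
    have hqn : (Real.toNNReal q : ℝ) < n := by
      have : (Real.toNNReal q : ℝ≥0) < (n : ℝ≥0) := by exact_mod_cast h2
      exact_mod_cast this
    have hmu : μH[(Real.toNNReal q : ℝ)] (K.1 : Set (E n)) = 0 := hausdorffMeasure_of_dimH_lt h1
    obtain ⟨c, hc, hc'⟩ := hall _ hq hqn
    have h3 := hc' _ K.2
    rw [gcontent_of_hausdorff_zero hq hmu] at h3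
    exact absurd h3 (not_le.2 hc)

end Pool.Agent.Q93.TypK
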