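import Pool.Agent.Q93.TypK6

open MeasureTheory Metric Set Filter Topology TopologicalSpace
open scoped ENNReal NNReal

namespace Pool.Agent.Q93.TypK

variable {n : ℕ}

/-- Typical sets have the smallest lower Minkowski dimension of all bounded sets. -/
theorem typical_mink' {Ω : Set (E n)} (hΩc : IsCompact Ω) (hne : Ω.Nonempty) :
    ∀ᶠ K : KSpace Ω in residual (KSpace Ω), ∀ K' : Set (E n), Bornology.IsBounded K' →
      HasSegments Ω K' → lowerMinkowski (K.1 : Set (E n)) ≤ lowerMinkowski K' := by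
  filter_upwards [typical_lowerMinkowski hΩc.isBounded] with K hK K' hb hK'
  have hcomp : IsCompact (closure K') := hb.isCompact_closure
  have hcne : (closure K').Nonempty := by
    obtain ⟨ω, hω⟩ := hne
    obtain ⟨a, ha⟩ := hK' ω hω
    exact ⟨_, subset_closure (ha 0 (by simp))⟩
  have hseg : HasSegments Ω (closure K') := fun ω hω => by
    obtain ⟨a, ha⟩ := hK' ω hω
    exact ⟨a, fun t ht => subset_closure (ha t ht)⟩
  have h1 := hK ⟨⟨⟨closure K', hcomp⟩, hcne⟩, hseg⟩
  have h2 : lowerMinkowski (closure K') = lowerMinkowski K' := by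
    unfold lowerMinkowski
    simp only [cthickening_closure]
  rw [← h2]
  exact h1

/-- Uniform lower bounds for the volumes of neighbourhoods of arbitrary sets. -/
theorem mink_uniform' {Ω : Set (E n)} (hΩc : IsCompact Ω) (hne : Ω.Nonempty) :
    (∀ K : KSpace Ω, lowerMinkowski (K.1 : Set (E n)) = n) ↔
    ∀ ε : ℝ, 0 < ε → ∃ c : ℝ, 0 < c ∧ ∀ δ : ℝ, 0 < δ → δ ≤ 1 → ∀ K : Set (E n),
      HasSegments Ω K → ENNReal.ofReal (c * δ ^ ε) ≤ volume (cthickening δ K) := by
  constructor
  · intro h ε hε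
    obtain ⟨c, hc, h1⟩ := (mink_uniform hΩc.isBounded).1 h ε hε
    refine ⟨c * (1 / 2) ^ ε, by positivity, fun δ hδ hδ1 K hK => ?_⟩
    obtain ⟨K₁, hK₁⟩ := exists_compact_subset hΩc hne (G := thickening (δ / 2) K)
      isOpen_thickening (fun ω hω => by
        obtain ⟨a, ha⟩ := hK ω hω
        exact ⟨a, fun t ht => self_subset_thickening (by positivity) _ (ha t ht)⟩)
    have h2 := h1 (δ / 2) (by positivity) (by linarith) K₁
    have h3 : c * (1 / 2) ^ ε * δ ^ ε = c * (δ / 2) ^ ε := by
      rw [mul_assoc, ← Real.mul_rpow (by norm_num) hδ.le]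
      congr 2; ring
    rw [h3]
    refine h2.trans (measure_mono ?_)
    calc cthickening (δ / 2) (K₁.1 : Set (E n)) ⊆ cthickening (δ / 2) (thickening (δ / 2) K) :=
          cthickening_subset_of_subset _ hK₁
      _ ⊆ cthickening (δ / 2) (cthickening (δ / 2) K) :=
          cthickening_subset_of_subset _ (thickening_subset_cthickening _ _)
      _ ⊆ cthickening (δ / 2 + δ / 2) K := cthickening_cthickening_subset (by positivity)
          (by positivity) _
      _ = cthickening δ K := by rw [add_halves]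
  · intro h
    refine (mink_uniform hΩc.isBounded).2 fun ε hε => ?_
    obtain ⟨c, hc, h1⟩ := h ε hε
    exact ⟨c, hc, fun δ hδ hδ1 K => h1 δ hδ hδ1 _ K.2⟩

end Pool.Agent.Q93.TypK
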